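import Pool.Agent.QPinch.Limits

open Set Filter Topology

namespace Pool.Agent.QPinch

noncomputable section

variable {L : ℝ} {a b c a1 b1 c1 a2 b2 c2 : ℝ → ℝ}

/-- curvature bounds used in the argument -/
structure Curv (L δ Y : ℝ) (a b c a1 b1 c1 a2 b2 c2 : ℝ → ℝ) : Prop where
  δ_pos : 0 < δ
  Y_nonneg : 0 ≤ Y
  uu_pos : ∀ r ∈ Ioo 0 L, 0 < r11 (a r) (b r) (c r) (a1 r) (c1 r) (a2 r) / a r
  nn_pos : ∀ r ∈ Ioo 0 L, 0 < nn (a r) (b r) (c r) (a1 r) (b1 r) (c1 r) (a2 r) (b2 r) (c2 r)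
  kk_pos : ∀ r ∈ Ioo 0 L, 0 < kk (a r) (b r) (c r) (a1 r) (b1 r) (c1 r)
  uu_le : ∀ r ∈ Ioo 0 L, r11 (a r) (b r) (c r) (a1 r) (c1 r) (a2 r) / a r
    ≤ kk (a r) (b r) (c r) (a1 r) (b1 r) (c1 r) / δ
  un_le : ∀ r ∈ Ioo 0 L, |un (a r) (b r) (c r) (a1 r) (b1 r) (c1 r) (a2 r) (c2 r)|
    ≤ Y * nn (a r) (b r) (c r) (a1 r) (b1 r) (c1 r) (a2 r) (b2 r) (c2 r)

/-- a function tending to zero at the left end whose derivative is nonpositive wherever it is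
positive stays nonpositive -/
theorem trap {N N' : ℝ → ℝ} {r0 : ℝ} (hr0 : 0 < r0)
    (hN : ∀ r ∈ Ioc 0 r0, HasDerivAt N (N' r) r) (h : ∀ r ∈ Ioc 0 r0, 0 < N r → N' r ≤ 0)
    (hl : Tendsto N (𝓝[>] 0) (𝓝 0)) : N r0 ≤ 0 := by
  by_contra hcon
  push Not at hcon
  set y := N r0 / 2 with hy
  have hypos : 0 < y := by positivity
  have h1 : ∀ᶠ r in 𝓝[>] (0:ℝ), N r < y := hl.eventually_lt_const hypos
  have h2 : ∀ᶠ r in 𝓝[>] (0:ℝ), r ∈ Ioo 0 r0 := Ioo_mem_nhdsGT hr0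
  obtain ⟨ρ, hρ1, hρ2⟩ := (h1.and h2).exists
  have hcont : ContinuousOn N (Icc ρ r0) := fun r hr =>
    (hN r ⟨lt_of_lt_of_le hρ2.1 hr.1, hr.2⟩).continuousAt.continuousWithinAt
  have hK : IsCompact (Icc ρ r0 ∩ N ⁻¹' (Iic y)) := by
    have : IsClosed (Icc ρ r0 ∩ N ⁻¹' (Iic y)) :=
      hcont.preimage_isClosed_of_isClosed isClosed_Icc isClosed_Iic
    exact isCompact_Icc.of_isClosed_subset this inter_subset_left
  obtain ⟨r3, hr3, hgr⟩ := hK.exists_isGreatest ⟨ρ, ⟨⟨le_rfl, hρ2.2.le⟩, hρ1.le⟩⟩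
  have hr3' : N r3 ≤ y := hr3.2
  have hlt : r3 < r0 := by
    rcases lt_or_eq_of_le hr3.1.2 with h | h
    · exact h
    · exfalso; rw [h] at hr3'; linarith
  have hpos3 : 0 < r3 := lt_of_lt_of_le hρ2.1 hr3.1.1
  have hanti : AntitoneOn N (Icc r3 r0) := by
    refine antitoneOn_of_deriv_nonpos (convex_Icc _ _) (hcont.mono (Icc_subset_Icc_left hr3.1.1)) ?_ ?_
    · intro r hr
      rw [interior_Icc] at hr
      exact (hN r ⟨hpos3.trans hr.1, hr.2.le⟩).differentiableAt.differentiableWithinAt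
    · intro r hr
      rw [interior_Icc] at hr
      have hmem : r ∈ Ioc 0 r0 := ⟨hpos3.trans hr.1, hr.2.le⟩
      rw [(hN r hmem).deriv]
      apply h r hmem
      by_contra hle
      push Not at hle
      have : r ∈ Icc ρ r0 ∩ N ⁻¹' (Iic y) := ⟨⟨hr3.1.1.trans hr.1.le, hr.2.le⟩, by
        simp only [mem_preimage, mem_Iic]; linarith⟩
      have := hgr this
      linarith [hr.1]
  have := hanti (left_mem_Icc.mpr hlt.le) (right_mem_Icc.mpr hlt.le) hlt.le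
  linarith

/-- monotone functions dominate their limit at the left end -/
theorem mono_ge_lim {φ φ' : ℝ → ℝ} {r0 l : ℝ} (hr0 : 0 < r0)
    (hφ : ∀ r ∈ Ioc 0 r0, HasDerivAt φ (φ' r) r) (h : ∀ r ∈ Ioc 0 r0, 0 ≤ φ' r)
    (hl : Tendsto φ (𝓝[>] 0) (𝓝 l)) : l ≤ φ r0 := by
  have hmono : MonotoneOn φ (Ioc 0 r0) := by
    refine monotoneOn_of_deriv_nonneg (convex_Ioc _ _)
      (fun r hr => (hφ r hr).continuousAt.continuousWithinAt) ?_ ?_
    · intro r hr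
      rw [interior_Ioc] at hr
      exact (hφ r ⟨hr.1, hr.2.le⟩).differentiableAt.differentiableWithinAt
    · intro r hr
      rw [interior_Ioc] at hr
      rw [(hφ r ⟨hr.1, hr.2.le⟩).deriv]
      exact h r ⟨hr.1, hr.2.le⟩
  refine le_of_tendsto hl ?_
  have h2 : ∀ᶠ r in 𝓝[>] (0:ℝ), r ∈ Ioo 0 r0 := Ioo_mem_nhdsGT hr0
  filter_upwards [h2] with r hr
  exact hmono ⟨hr.1, hr.2.le⟩ ⟨hr0, le_rfl⟩ hr.2.le

theorem mem_of_Ioc {r0 r L : ℝ} (hr0 : r0 ∈ Ioo 0 L) (hr : r ∈ Ioc 0 r0) : r ∈ Ioo 0 L :=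
  ⟨hr.1, hr.2.trans_lt hr0.2⟩

theorem p_nonneg (h : Side L a b c a1 b1 c1 a2 b2 c2)
    {δ Y : ℝ} (hc : Curv L δ Y a b c a1 b1 c1 a2 b2 c2) {r : ℝ} (hr : r ∈ Ioo 0 L) :
    0 ≤ pf a b c a1 b1 c1 r := by
  refine mono_ge_lim hr.1 (fun ρ hρ => h.hp (mem_of_Ioc hr hρ)) (fun ρ hρ => ?_) h.lim_p
  have := hc.nn_pos ρ (mem_of_Ioc hr hρ)
  positivity

theorem p_strictMono (h : Side L a b c a1 b1 c1 a2 b2 c2)
    {δ Y : ℝ} (hc : Curv L δ Y a b c a1 b1 c1 a2 b2 c2) :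
    StrictMonoOn (pf a b c a1 b1 c1) (Ioo 0 L) := by
  refine strictMonoOn_of_deriv_pos (convex_Ioo _ _)
    (fun r hr => (h.hp hr).continuousAt.continuousWithinAt) ?_
  intro r hr
  rw [interior_Ioo] at hr
  rw [(h.hp hr).deriv]
  have := hc.nn_pos r hr
  positivity

theorem p_pos (h : Side L a b c a1 b1 c1 a2 b2 c2)
    {δ Y : ℝ} (hc : Curv L δ Y a b c a1 b1 c1 a2 b2 c2) {r : ℝ} (hr : r ∈ Ioo 0 L) :
    0 < pf a b c a1 b1 c1 r := by
  have hr2 : r / 2 ∈ Ioo 0 L := ⟨by linarith [hr.1], by linarith [hr.1, hr.2]⟩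
  have h1 := p_nonneg h hc hr2
  have h2 := p_strictMono h hc hr2 hr (by linarith [hr.1])
  linarith

theorem p_le (h : Side L a b c a1 b1 c1 a2 b2 c2)
    {δ Y : ℝ} (hc : Curv L δ Y a b c a1 b1 c1 a2 b2 c2) {r : ℝ} (hr : r ∈ Ioo 0 L) :
    pf a b c a1 b1 c1 r * (L - r) ≤ 1 := by
  have hanti : AntitoneOn (fun ρ => (pf a b c a1 b1 c1 ρ)⁻¹ + ρ) (Ioo 0 L) := by
    have hd : ∀ ρ ∈ Ioo 0 L, HasDerivAt (fun ρ => (pf a b c a1 b1 c1 ρ)⁻¹ + ρ)
        (-(pf a b c a1 b1 c1 ρ ^ 2 + 3 * sf a b c a1 c1 ρ ^ 2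
      + nn (a ρ) (b ρ) (c ρ) (a1 ρ) (b1 ρ) (c1 ρ) (a2 ρ) (b2 ρ) (c2 ρ)) /
        (pf a b c a1 b1 c1 ρ) ^ 2 + 1) ρ := fun ρ hρ =>
      ((h.hp hρ).inv (p_pos h hc hρ).ne').add (hasDerivAt_id ρ)
    refine antitoneOn_of_deriv_nonpos (convex_Ioo _ _)
      (fun ρ hρ => (hd ρ hρ).continuousAt.continuousWithinAt) ?_ ?_
    · intro ρ hρ
      rw [interior_Ioo] at hρ
      exact (hd ρ hρ).differentiableAt.differentiableWithinAt
    · intro ρ hρ
      rw [interior_Ioo] at hρ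
      rw [(hd ρ hρ).deriv]
      have hp := p_pos h hc hρ
      have hn := hc.nn_pos ρ hρ
      have : 1 ≤ (pf a b c a1 b1 c1 ρ ^ 2 + 3 * sf a b c a1 c1 ρ ^ 2
      + nn (a ρ) (b ρ) (c ρ) (a1 ρ) (b1 ρ) (c1 ρ) (a2 ρ) (b2 ρ) (c2 ρ)) /
        (pf a b c a1 b1 c1 ρ) ^ 2 := by
        rw [le_div_iff₀ (by positivity)]
        nlinarith [sq_nonneg (sf a b c a1 c1 ρ)]
      rw [neg_div]
      linarith
  have hp := p_pos h hc hr
  have key : ∀ R ∈ Ioo r L, pf a b c a1 b1 c1 r * (R - r) ≤ 1 := by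
    intro R hR
    have hR' : R ∈ Ioo 0 L := ⟨hr.1.trans hR.1, hR.2⟩
    have h1 := hanti hr hR' hR.1.le
    simp only at h1
    have h2 : 0 < (pf a b c a1 b1 c1 R)⁻¹ := inv_pos.mpr (p_pos h hc hR')
    have h3 : R - r ≤ (pf a b c a1 b1 c1 r)⁻¹ := by linarith
    calc pf a b c a1 b1 c1 r * (R - r) ≤ pf a b c a1 b1 c1 r * (pf a b c a1 b1 c1 r)⁻¹ :=
          mul_le_mul_of_nonneg_left h3 hp.le
      _ = 1 := mul_inv_cancel₀ hp.ne'
  have ht : Tendsto (fun R => pf a b c a1 b1 c1 r * (R - r)) (𝓝[<] L)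
      (𝓝 (pf a b c a1 b1 c1 r * (L - r))) :=
    Tendsto.mono_left (Continuous.tendsto (by fun_prop) L) nhdsWithin_le_nhds
  refine le_of_tendsto ht ?_
  have : ∀ᶠ R in 𝓝[<] L, R ∈ Ioo r L := Ioo_mem_nhdsLT hr.2
  filter_upwards [this] with R hR using key R hR

theorem nu_ge (h : Side L a b c a1 b1 c1 a2 b2 c2)
    {δ Y : ℝ} (hc : Curv L δ Y a b c a1 b1 c1 a2 b2 c2) {r : ℝ} (hr : r ∈ Ioo 0 L) :
    √(b 0) * (L - r) / L ≤ nu a b c r := by
  have hd : ∀ ρ ∈ Ioc 0 r, HasDerivAt (fun ρ => nu a b c ρ / (L - ρ))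
      ((-(pf a b c a1 b1 c1 ρ) * nu a b c ρ * (L - ρ) - nu a b c ρ * (-1)) / (L - ρ) ^ 2) ρ := by
    intro ρ hρ
    have hρ' := mem_of_Ioc hr hρ
    have hne : L - ρ ≠ 0 := by linarith [hρ'.2]
    exact (h.hnu hρ').div ((hasDerivAt_id ρ).const_sub L) hne
  have hlim : Tendsto (fun ρ => nu a b c ρ / (L - ρ)) (𝓝[>] 0) (𝓝 (√(b 0) / (L - 0))) := by
    refine h.lim_nu.div ?_ (by linarith [h.L_pos])
    exact Tendsto.mono_left (Continuous.tendsto (by fun_prop) 0) nhdsWithin_le_nhds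
  have := mono_ge_lim hr.1 hd (fun ρ hρ => ?_) hlim
  · rw [sub_zero] at this
    have hL := h.L_pos
    rw [div_le_div_iff₀ hL (by linarith [hr.2])] at this
    rw [div_le_iff₀ hL]
    linarith
  · have hρ' := mem_of_Ioc hr hρ
    have h1 := p_le h hc hρ'
    have h2 := h.nu_pos hρ'
    apply div_nonneg _ (sq_nonneg _)
    nlinarith

theorem s_trap (h : Side L a b c a1 b1 c1 a2 b2 c2)
    {δ Y : ℝ} (hc : Curv L δ Y a b c a1 b1 c1 a2 b2 c2) {r : ℝ} (hr : r ∈ Ioo 0 L)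
    (hm : ∀ ρ ∈ Ioc 0 r, 0 ≤ mf a a1 ρ) :
    |sf a b c a1 c1 r| ≤ Y * pf a b c a1 b1 c1 r := by
  have hY := hc.Y_nonneg
  have h1 : sf a b c a1 c1 r - Y * pf a b c a1 b1 c1 r ≤ 0 := by
    refine trap (N := fun ρ => sf a b c a1 c1 ρ - Y * pf a b c a1 b1 c1 ρ) hr.1
      (fun ρ hρ => (h.hs (mem_of_Ioc hr hρ)).sub ((h.hp (mem_of_Ioc hr hρ)).const_mul Y)) ?_ ?_
    · intro ρ hρ hpos
      have hρ' := mem_of_Ioc hr hρ
      have e1 := p_nonneg h hc hρ'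
      have e2 := hm ρ hρ
      have e3 := (abs_le.mp (hc.un_le ρ hρ')).1
      have e4 : 0 ≤ Y * pf a b c a1 b1 c1 ρ := mul_nonneg hY e1
      have e5 : 0 ≤ mf a a1 ρ * sf a b c a1 c1 ρ := mul_nonneg e2 (by linarith)
      have e6 : 0 ≤ Y * (pf a b c a1 b1 c1 ρ ^ 2 + 3 * sf a b c a1 c1 ρ ^ 2) := by positivity
      nlinarith
    · have := h.lim_s.sub (h.lim_p.const_mul Y)
      simpa using this
  have h2 : -sf a b c a1 c1 r - Y * pf a b c a1 b1 c1 r ≤ 0 := by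
    refine trap (N := fun ρ => -sf a b c a1 c1 ρ - Y * pf a b c a1 b1 c1 ρ) hr.1
      (fun ρ hρ => (h.hs (mem_of_Ioc hr hρ)).neg.sub ((h.hp (mem_of_Ioc hr hρ)).const_mul Y)) ?_ ?_
    · intro ρ hρ hpos
      have hρ' := mem_of_Ioc hr hρ
      have e1 := p_nonneg h hc hρ'
      have e2 := hm ρ hρ
      have e3 := (abs_le.mp (hc.un_le ρ hρ')).2
      have e4 : 0 ≤ Y * pf a b c a1 b1 c1 ρ := mul_nonneg hY e1
      have e5 : 0 ≤ mf a a1 ρ * (-sf a b c a1 c1 ρ) := mul_nonneg e2 (by linarith)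
      have e6 : 0 ≤ Y * (pf a b c a1 b1 c1 ρ ^ 2 + 3 * sf a b c a1 c1 ρ ^ 2) := by positivity
      nlinarith
    · have := h.lim_s.neg.sub (h.lim_p.const_mul Y)
      simpa using this
  rw [abs_le]
  constructor <;> linarith

/-- lower bound for the derivative of the length of the first Killing field -/
theorem f1_ge (h : Side L a b c a1 b1 c1 a2 b2 c2)
    {δ Y : ℝ} (hc : Curv L δ Y a b c a1 b1 c1 a2 b2 c2) {r : ℝ} (hr : r ∈ Ioo 0 L)
    (hm : ∀ ρ ∈ Ioc 0 r, pf a b c a1 b1 c1 ρ ≤ mf a a1 ρ) {N : ℕ} (hN : (Y ^ 2 + 1) / δ ≤ N) :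
    ((L - r) / L) ^ N ≤ mf a a1 r * √(a r) := by
  have hδ := hc.δ_pos
  have hL := h.L_pos
  have hd : ∀ ρ ∈ Ioc 0 r, HasDerivAt (fun ρ => mf a a1 ρ * √(a ρ) / (nu a b c ρ) ^ N)
      ((((-(mf a a1 ρ) ^ 2 + sf a b c a1 c1 ρ ^ 2
      - r11 (a ρ) (b ρ) (c ρ) (a1 ρ) (c1 ρ) (a2 ρ) / a ρ) * √(a ρ) + mf a a1 ρ *
      (mf a a1 ρ * √(a ρ))) * (nu a b c ρ) ^ N - mf a a1 ρ * √(a ρ) *
      (N * (nu a b c ρ) ^ (N - 1) * (-(pf a b c a1 b1 c1 ρ) * nu a b c ρ))) /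
      ((nu a b c ρ) ^ N) ^ 2) ρ := by
    intro ρ hρ
    have hρ' := mem_of_Ioc hr hρ
    have hν := h.nu_pos hρ'
    exact ((h.hm hρ').mul (h.hf hρ')).div ((h.hnu hρ').pow N) (by positivity)
  have hlim : Tendsto (fun ρ => mf a a1 ρ * √(a ρ) / (nu a b c ρ) ^ N) (𝓝[>] 0)
      (𝓝 (1 / (√(b 0)) ^ N)) :=
    h.lim_f1.div (h.lim_nu.pow N) (by have := Real.sqrt_pos.mpr h.b0; positivity)
  have key := mono_ge_lim hr.1 hd (fun ρ hρ => ?_) hlim
  · have hν := h.nu_pos hr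
    have hb := Real.sqrt_pos.mpr h.b0
    have h1 := nu_ge h hc hr
    rw [div_le_div_iff₀ (by positivity) (by positivity), one_mul] at key
    have h2 : (√(b 0) * (L - r) / L) ^ N ≤ nu a b c r ^ N := by
      apply pow_le_pow_left₀ _ h1
      have : 0 ≤ L - r := by linarith [hr.2]
      positivity
    have h3 : √(b 0) ^ N * ((L - r) / L) ^ N ≤ mf a a1 r * √(a r) * √(b 0) ^ N := by
      rw [← mul_pow, ← mul_div_assoc]
      exact h2.trans key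
    have hbN : 0 < √(b 0) ^ N := by positivity
    rw [mul_comm] at h3
    exact le_of_mul_le_mul_right h3 hbN
  · have hρ' := mem_of_Ioc hr hρ
    have hν := h.nu_pos hρ'
    have ha := Real.sqrt_pos.mpr (h.apos ρ hρ')
    have hp := p_pos h hc hρ'
    have hmρ := hm ρ hρ
    have hmpos : 0 < mf a a1 ρ := hp.trans_le hmρ
    have hs := s_trap h hc hρ' (fun ρ' hρ'' => by
      have : ρ' ∈ Ioc 0 r := ⟨hρ''.1, hρ''.2.trans hρ.2⟩
      exact (p_nonneg h hc (mem_of_Ioc hr this)).trans (hm ρ' this))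
    have huu := hc.uu_le ρ hρ'
    rw [h.hk hρ'] at huu
    set m := mf a a1 ρ with hmdef
    set p := pf a b c a1 b1 c1 ρ with hpdef
    set s := sf a b c a1 c1 ρ with hsdef
    set U := r11 (a ρ) (b ρ) (c ρ) (a1 ρ) (c1 ρ) (a2 ρ) / a ρ with hUdef
    have hs2 : s ^ 2 ≤ Y ^ 2 * p ^ 2 := by
      have := pow_le_pow_left₀ (abs_nonneg s) hs 2
      rw [sq_abs, mul_pow] at this
      exact this
    have hs3 : s ^ 2 ≤ Y ^ 2 * (m * p) := by
      refine hs2.trans (mul_le_mul_of_nonneg_left ?_ (sq_nonneg _))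
      nlinarith
    have hmp : 0 ≤ m * p := by positivity
    have hU : U ≤ N * (m * p) := by
      calc U ≤ (s ^ 2 + m * p) / δ := huu
        _ ≤ ((Y ^ 2 + 1) * (m * p)) / δ := by
            apply div_le_div_of_nonneg_right _ hδ.le
            nlinarith
        _ = (Y ^ 2 + 1) / δ * (m * p) := by ring
        _ ≤ N * (m * p) := mul_le_mul_of_nonneg_right hN hmp
    apply div_nonneg _ (sq_nonneg _)
    have hcase : (N : ℝ) * (nu a b c ρ) ^ (N - 1) * (-p * nu a b c ρ)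
        = -(N * p * (nu a b c ρ) ^ N) := by
      rcases Nat.eq_zero_or_pos N with h0 | h0
      · simp [h0]
      · rw [← pow_sub_one_mul h0.ne' (nu a b c ρ)]
        ring
    rw [hcase]
    have e : ((-m ^ 2 + s ^ 2 - U) * √(a ρ) + m * (m * √(a ρ))) * nu a b c ρ ^ N
        - m * √(a ρ) * -(N * p * nu a b c ρ ^ N)
        = √(a ρ) * nu a b c ρ ^ N * (s ^ 2 + (N * (m * p) - U)) := by ring
    rw [e]
    have : 0 ≤ N * (m * p) - U := by linarith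
    positivity

/-- lower bound for the length of the first Killing field at a point where the area is critical -/
theorem f_ge (h : Side L a b c a1 b1 c1 a2 b2 c2)
    {δ Y : ℝ} (hc : Curv L δ Y a b c a1 b1 c1 a2 b2 c2) {r : ℝ} (hr : r ∈ Ioo 0 L)
    (hm : ∀ ρ ∈ Ioc 0 r, pf a b c a1 b1 c1 ρ ≤ mf a a1 ρ)
    (hmr : mf a a1 r = pf a b c a1 b1 c1 r) {N : ℕ} (hN : (Y ^ 2 + 1) / δ ≤ N) :
    (1 / 2) ^ N * (L / 2) ≤ √(a r) := by
  have hL := h.L_pos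
  rcases le_total r (L / 2) with hle | hle
  · have h1 := f1_ge h hc hr hm hN
    have h2 := p_le h hc hr
    have hp := p_pos h hc hr
    rw [hmr] at h1
    have h3 : (1 / 2 : ℝ) ^ N ≤ ((L - r) / L) ^ N := by
      apply pow_le_pow_left₀ (by norm_num)
      rw [le_div_iff₀ hL]
      linarith
    have h4 : (1 / 2 : ℝ) ^ N ≤ pf a b c a1 b1 c1 r * √(a r) := h3.trans h1
    have hs := Real.sqrt_nonneg (a r)
    have h5 : L / 2 ≤ L - r := by linarith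
    calc (1 / 2 : ℝ) ^ N * (L / 2) ≤ (1 / 2 : ℝ) ^ N * (L - r) :=
          mul_le_mul_of_nonneg_left h5 (by positivity)
      _ ≤ pf a b c a1 b1 c1 r * √(a r) * (L - r) :=
          mul_le_mul_of_nonneg_right h4 (by linarith)
      _ = pf a b c a1 b1 c1 r * (L - r) * √(a r) := by ring
      _ ≤ 1 * √(a r) := mul_le_mul_of_nonneg_right h2 hs
      _ = √(a r) := one_mul _
  · have hstep1 : ∀ ρ ∈ Ioc 0 (L / 2), HasDerivAt (fun ρ => √(a ρ) - (1 / 2) ^ N * ρ)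
        (mf a a1 ρ * √(a ρ) - (1 / 2) ^ N * 1) ρ := by
      intro ρ hρ
      have hρ' : ρ ∈ Ioo 0 L := ⟨hρ.1, by linarith [hρ.2]⟩
      exact (h.hf hρ').sub ((hasDerivAt_id ρ).const_mul _)
    have hlim : Tendsto (fun ρ => √(a ρ) - (1 / 2) ^ N * ρ) (𝓝[>] 0) (𝓝 0) := by
      have e : Tendsto (fun ρ : ℝ => (1 / 2 : ℝ) ^ N * ρ) (𝓝[>] 0) (𝓝 ((1 / 2) ^ N * 0)) :=
        Tendsto.mono_left (Continuous.tendsto (by fun_prop) 0) nhdsWithin_le_nhds
      have := h.lim_f0.sub e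
      simpa using this
    have k1 := mono_ge_lim (by linarith : (0:ℝ) < L / 2) hstep1 (fun ρ hρ => ?_) hlim
    · have hstep2 : MonotoneOn (fun ρ => √(a ρ)) (Icc (L / 2) r) := by
        refine monotoneOn_of_deriv_nonneg (convex_Icc _ _) ?_ ?_ ?_
        · intro ρ hρ
          have hρ' : ρ ∈ Ioo 0 L := ⟨by linarith [hρ.1], lt_of_le_of_lt hρ.2 hr.2⟩
          exact (h.hf hρ').continuousAt.continuousWithinAt
        · intro ρ hρ
          rw [interior_Icc] at hρ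
          have hρ' : ρ ∈ Ioo 0 L := ⟨by linarith [hρ.1], hρ.2.trans hr.2⟩
          exact (h.hf hρ').differentiableAt.differentiableWithinAt
        · intro ρ hρ
          rw [interior_Icc] at hρ
          have hρ' : ρ ∈ Ioo 0 L := ⟨by linarith [hρ.1], hρ.2.trans hr.2⟩
          rw [(h.hf hρ').deriv]
          have hρ'' : ρ ∈ Ioc 0 r := ⟨hρ'.1, hρ.2.le⟩
          exact mul_nonneg ((p_nonneg h hc hρ').trans (hm ρ hρ'')) (Real.sqrt_nonneg _)
      have k2 := hstep2 (left_mem_Icc.mpr hle) (right_mem_Icc.mpr hle) hle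
      simp only at k2
      linarith
    · have hρ' : ρ ∈ Ioo 0 L := ⟨hρ.1, by linarith [hρ.2]⟩
      have hρr : ρ ≤ r := hρ.2.trans hle
      have h1 := f1_ge h hc hρ' (fun ρ' hρ'' => hm ρ' ⟨hρ''.1, hρ''.2.trans hρr⟩) hN
      have h3 : (1 / 2 : ℝ) ^ N ≤ ((L - ρ) / L) ^ N := by
        apply pow_le_pow_left₀ (by norm_num)
        rw [le_div_iff₀ hL]
        linarith [hρ.2]
      linarith

/-- the trace of the shape operator is the logarithmic derivative of the area -/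
theorem Side.trace_eq (h : Side L a b c a1 b1 c1 a2 b2 c2) {r : ℝ} (hr : r ∈ Ioo 0 L) :
    mf a a1 r - pf a b c a1 b1 c1 r
      = (a1 r * b r + a r * b1 r - 2 * c r * c1 r) / (2 * (a r * b r - c r ^ 2)) := by
  have ha := (h.apos r hr).ne'
  have hD := (h.Dpos r hr).ne'
  unfold mf pf
  field_simp
  ring

theorem Side.b1_eq (h : Side L a b c a1 b1 c1 a2 b2 c2) {r : ℝ} (hr : r ∈ Ioo 0 L) :
    b1 r / 2 = mf a a1 r * (c r / √(a r)) ^ 2
      + 2 * sf a b c a1 c1 r * (c r / √(a r)) * nu a b c r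
      - pf a b c a1 b1 c1 r * nu a b c r ^ 2 := by
  have ha := h.apos r hr
  have hD := h.Dpos r hr
  have hq : √(a r) ^ 2 = a r := Real.sq_sqrt ha.le
  have hq2 : √(a r * b r - c r ^ 2) ^ 2 = a r * b r - c r ^ 2 := Real.sq_sqrt hD.le
  have hs := (Real.sqrt_pos.mpr ha).ne'
  have hv := (Real.sqrt_pos.mpr hD).ne'
  have e1 : (c r / √(a r)) ^ 2 = c r ^ 2 / a r := by rw [div_pow, hq]
  have e2 : nu a b c r ^ 2 = (a r * b r - c r ^ 2) / a r := by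
    unfold nu; rw [div_pow, hq, hq2]
  have e3 : 2 * sf a b c a1 c1 r * (c r / √(a r)) * nu a b c r
      = c r * (c1 r * a r - c r * a1 r) / a r ^ 2 := by
    unfold sf nu
    have : c r / √(a r) * (√(a r * b r - c r ^ 2) / √(a r)) = c r * √(a r * b r - c r ^ 2) / a r := by
      rw [div_mul_div_comm, ← sq, hq]
    calc _ = 2 * ((c1 r * a r - c r * a1 r) / (2 * a r * √(a r * b r - c r ^ 2)))
        * (c r / √(a r) * (√(a r * b r - c r ^ 2) / √(a r))) := by ring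
      _ = _ := by
        rw [this]
        have ha' := ha.ne'
        field_simp
  rw [e3, e1, e2]
  unfold mf pf
  have ha' := ha.ne'
  have hD' := hD.ne'
  field_simp
  ring

/-- comparison of the area with the product of the two lengths -/
theorem area_ge (h : Side L a b c a1 b1 c1 a2 b2 c2)
    {δ Y : ℝ} (hc : Curv L δ Y a b c a1 b1 c1 a2 b2 c2) {r : ℝ} (hr : r ∈ Ioo 0 L)
    (hm : ∀ ρ ∈ Ioc 0 r, pf a b c a1 b1 c1 ρ ≤ mf a a1 ρ)
    (hmr : mf a a1 r = pf a b c a1 b1 c1 r) (hb1 : b1 r ≤ 0) :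
    a r * b r ≤ (3 + 4 * Y ^ 2) * (a r * b r - c r ^ 2) := by
  have hY := hc.Y_nonneg
  have ha := h.apos r hr
  have hD := h.Dpos r hr
  have hp := p_pos h hc hr
  have hs := s_trap h hc hr (fun ρ hρ => (p_nonneg h hc (mem_of_Ioc hr hρ)).trans (hm ρ hρ))
  have e := h.b1_eq hr
  rw [hmr] at e
  have hq : √(a r) ^ 2 = a r := Real.sq_sqrt ha.le
  have hq2 : √(a r * b r - c r ^ 2) ^ 2 = a r * b r - c r ^ 2 := Real.sq_sqrt hD.le
  have hx2 : (c r / √(a r)) ^ 2 = c r ^ 2 / a r := by rw [div_pow, hq]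
  have hy2 : nu a b c r ^ 2 = (a r * b r - c r ^ 2) / a r := by
    unfold nu; rw [div_pow, hq, hq2]
  set x := c r / √(a r) with hx
  set y := nu a b c r with hy
  set p := pf a b c a1 b1 c1 r with hpd
  set s := sf a b c a1 c1 r with hsd
  have hxy : x ^ 2 ≤ (2 + 4 * Y ^ 2) * y ^ 2 := by
    have k1 : p * x ^ 2 + 2 * s * x * y - p * y ^ 2 ≤ 0 := by linarith
    have k2 : -(Y * p * |x * y|) ≤ s * (x * y) := by
      have : |s * (x * y)| ≤ Y * p * |x * y| := by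
        rw [abs_mul]; exact mul_le_mul_of_nonneg_right hs (abs_nonneg _)
      linarith [neg_abs_le (s * (x * y))]
    have k3 : p * (x ^ 2 - 2 * Y * |x * y| - y ^ 2) ≤ 0 := by nlinarith
    have k4 : x ^ 2 - 2 * Y * |x * y| - y ^ 2 ≤ 0 := by
      by_contra hcon
      push Not at hcon
      have := mul_pos hp hcon
      linarith
    have k5 : |x * y| = |x| * |y| := abs_mul x y
    have k6 : |x| ^ 2 = x ^ 2 := sq_abs x
    have k7 : |y| ^ 2 = y ^ 2 := sq_abs y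
    rw [k5] at k4
    nlinarith [sq_nonneg (|x| - 2 * Y * |y|)]
  rw [hx2, hy2] at hxy
  have hxy' : c r ^ 2 ≤ (2 + 4 * Y ^ 2) * (a r * b r - c r ^ 2) := by
    rw [← mul_div_assoc, div_le_div_iff_of_pos_right ha] at hxy
    exact hxy
  linarith

end

end Pool.Agent.QPinch
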