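import Mathlib

/-!
Analysis core for torus-invariant metrics on the 3-sphere.
A metric is written dr^2 + a dx^2 + 2 c dx dy + b dy^2 with a, b, c functions of r.
-/

open Set Filter Topology

namespace Pool.Agent.QPinch

/-- data near one end -/
structure Side (L : ℝ) (a b c a1 b1 c1 a2 b2 c2 : ℝ → ℝ) : Prop where
  L_pos : 0 < L
  ha : ∀ r, HasDerivAt a (a1 r) r
  hb : ∀ r, HasDerivAt b (b1 r) r
  hc : ∀ r, HasDerivAt c (c1 r) r
  ha1 : ∀ r, HasDerivAt a1 (a2 r) r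
  hb1 : ∀ r, HasDerivAt b1 (b2 r) r
  hc1 : ∀ r, HasDerivAt c1 (c2 r) r
  a0 : a 0 = 0
  a10 : a1 0 = 0
  a20 : a2 0 = 2
  c0 : c 0 = 0
  c10 : c1 0 = 0
  b10 : b1 0 = 0
  b0 : 0 < b 0
  apos : ∀ r ∈ Ioo 0 L, 0 < a r
  Dpos : ∀ r ∈ Ioo 0 L, 0 < a r * b r - c r ^ 2

noncomputable section

/-- radial curvature form, entry 11, as a function of the 1-jets and 2-jets -/
def r11 (a b c a1 c1 a2 : ℝ) : ℝ :=
  -(a2 / 2) + (b * a1 ^ 2 - 2 * c * a1 * c1 + a * c1 ^ 2) / (4 * (a * b - c ^ 2))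

def r12 (a b c a1 b1 c1 c2 : ℝ) : ℝ :=
  -(c2 / 2) + (b * a1 * c1 - c * (a1 * b1 + c1 ^ 2) + a * c1 * b1) / (4 * (a * b - c ^ 2))

def r22 (a b c b1 c1 b2 : ℝ) : ℝ :=
  -(b2 / 2) + (b * c1 ^ 2 - 2 * c * c1 * b1 + a * b1 ^ 2) / (4 * (a * b - c ^ 2))

/-- tangential sectional curvature -/
def kk (a b c a1 b1 c1 : ℝ) : ℝ := (c1 ^ 2 - a1 * b1) / (4 * (a * b - c ^ 2))

/-- value of the radial curvature form on (x, y) -/
def rq (a b c a1 b1 c1 a2 b2 c2 x y : ℝ) : ℝ :=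
  r11 a b c a1 c1 a2 * x ^ 2 + 2 * r12 a b c a1 b1 c1 c2 * x * y + r22 a b c b1 c1 b2 * y ^ 2

/-- logarithmic derivative of the length of the first Killing field -/
def mf (a a1 : ℝ → ℝ) (r : ℝ) : ℝ := a1 r / (2 * a r)

/-- minus the logarithmic derivative of the distance from the second Killing field to the line
spanned by the first -/
def pf (a b c a1 b1 c1 : ℝ → ℝ) (r : ℝ) : ℝ :=
  (2 * a r * c r * c1 r - a1 r * c r ^ 2 - a r ^ 2 * b1 r) / (2 * a r * (a r * b r - c r ^ 2))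

/-- off-diagonal entry of the shape operator -/
def sf (a b c a1 c1 : ℝ → ℝ) (r : ℝ) : ℝ :=
  (c1 r * a r - c r * a1 r) / (2 * a r * √(a r * b r - c r ^ 2))

def nn (a b c a1 b1 c1 a2 b2 c2 : ℝ) : ℝ :=
  rq a b c a1 b1 c1 a2 b2 c2 (-(c / a)) 1 * (a / (a * b - c ^ 2))

def un (a b c a1 b1 c1 a2 c2 : ℝ) : ℝ :=
  (r12 a b c a1 b1 c1 c2 - c / a * r11 a b c a1 c1 a2) / √(a * b - c ^ 2)

variable {L : ℝ} {a b c a1 b1 c1 a2 b2 c2 : ℝ → ℝ}

theorem Side.hD (h : Side L a b c a1 b1 c1 a2 b2 c2) (r : ℝ) :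
    HasDerivAt (fun r => a r * b r - c r ^ 2) (a1 r * b r + a r * b1 r - 2 * c r * c1 r) r := by
  have := ((h.ha r).mul (h.hb r)).sub ((h.hc r).pow 2)
  refine this.congr_deriv ?_
  simp

theorem Side.hsqrtD (h : Side L a b c a1 b1 c1 a2 b2 c2) {r : ℝ} (hr : r ∈ Ioo 0 L) :
    HasDerivAt (fun r => √(a r * b r - c r ^ 2))
      ((a1 r * b r + a r * b1 r - 2 * c r * c1 r) / (2 * √(a r * b r - c r ^ 2))) r :=
  (h.hD r).sqrt (h.Dpos r hr).ne'

theorem sf_sq {r : ℝ} (hD : 0 < a r * b r - c r ^ 2) :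
    sf a b c a1 c1 r ^ 2 = (c1 r * a r - c r * a1 r) ^ 2 / (4 * a r ^ 2 * (a r * b r - c r ^ 2)) := by
  unfold sf
  rw [div_pow, mul_pow, Real.sq_sqrt hD.le]
  ring_nf

theorem Side.hm (h : Side L a b c a1 b1 c1 a2 b2 c2) {r : ℝ} (hr : r ∈ Ioo 0 L) :
    HasDerivAt (mf a a1) (-(mf a a1 r) ^ 2 + sf a b c a1 c1 r ^ 2
      - r11 (a r) (b r) (c r) (a1 r) (c1 r) (a2 r) / a r) r := by
  have ha := h.apos r hr
  have hD := h.Dpos r hr
  have h1 := (h.ha1 r).div ((h.ha r).const_mul 2) (by positivity)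
  refine h1.congr_deriv ?_
  rw [sf_sq hD]
  unfold mf r11
  have ha' := ha.ne'
  have hD' := hD.ne'
  field_simp
  ring

theorem Side.hp (h : Side L a b c a1 b1 c1 a2 b2 c2) {r : ℝ} (hr : r ∈ Ioo 0 L) :
    HasDerivAt (pf a b c a1 b1 c1) (pf a b c a1 b1 c1 r ^ 2 + 3 * sf a b c a1 c1 r ^ 2
      + nn (a r) (b r) (c r) (a1 r) (b1 r) (c1 r) (a2 r) (b2 r) (c2 r)) r := by
  have ha := h.apos r hr
  have hD := h.Dpos r hr
  have hnum : HasDerivAt (fun r => 2 * a r * c r * c1 r - a1 r * c r ^ 2 - a r ^ 2 * b1 r)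
      (2 * a1 r * c r * c1 r + 2 * a r * c1 r * c1 r + 2 * a r * c r * c2 r
        - a2 r * c r ^ 2 - a1 r * (2 * c r * c1 r) - 2 * a r * a1 r * b1 r - a r ^ 2 * b2 r) r := by
    have e1 := (((h.ha r).const_mul 2).mul (h.hc r)).mul (h.hc1 r)
    have e2 := (h.ha1 r).mul ((h.hc r).pow 2)
    have e3 := ((h.ha r).pow 2).mul (h.hb1 r)
    refine ((e1.sub e2).sub e3).congr_deriv ?_
    simp
    ring
  have hden : HasDerivAt (fun r => 2 * a r * (a r * b r - c r ^ 2))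
      (2 * a1 r * (a r * b r - c r ^ 2) + 2 * a r * (a1 r * b r + a r * b1 r - 2 * c r * c1 r)) r := by
    have e1 := ((h.ha r).const_mul 2).mul (h.hD r)
    exact e1
  have h1 := hnum.div hden (by positivity)
  refine h1.congr_deriv ?_
  rw [sf_sq hD]
  unfold pf nn rq r11 r12 r22
  have ha' := ha.ne'
  have hD' := hD.ne'
  field_simp
  ring

theorem Side.hs (h : Side L a b c a1 b1 c1 a2 b2 c2) {r : ℝ} (hr : r ∈ Ioo 0 L) :
    HasDerivAt (sf a b c a1 c1) (-2 * mf a a1 r * sf a b c a1 c1 r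
      - un (a r) (b r) (c r) (a1 r) (b1 r) (c1 r) (a2 r) (c2 r)) r := by
  have ha := h.apos r hr
  have hD := h.Dpos r hr
  have hq := Real.sqrt_pos.mpr hD
  have hnum : HasDerivAt (fun r => c1 r * a r - c r * a1 r)
      (c2 r * a r - c r * a2 r) r := by
    have e1 := (h.hc1 r).mul (h.ha r)
    have e2 := (h.hc r).mul (h.ha1 r)
    refine (e1.sub e2).congr_deriv ?_
    ring
  have hden : HasDerivAt (fun r => 2 * a r * √(a r * b r - c r ^ 2))
      (2 * a1 r * √(a r * b r - c r ^ 2) + 2 * a r *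
        ((a1 r * b r + a r * b1 r - 2 * c r * c1 r) / (2 * √(a r * b r - c r ^ 2)))) r :=
    ((h.ha r).const_mul 2).mul (h.hsqrtD hr)
  have h1 : HasDerivAt (sf a b c a1 c1) _ r := hnum.div hden (by positivity)
  refine h1.congr_deriv ?_
  unfold mf sf un r11 r12
  clear hnum hden h1
  have hsq : √(a r * b r - c r ^ 2) ^ 2 = a r * b r - c r ^ 2 := Real.sq_sqrt hD.le
  generalize √(a r * b r - c r ^ 2) = q at *
  have ha' := ha.ne'
  have hq' := hq.ne'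
  have hD2 : a r * b r - c r ^ 2 = q ^ 2 := hsq.symm
  rw [hD2]
  have hb : b r = (q ^ 2 + c r ^ 2) / a r := by field_simp; linarith
  rw [hb]
  field_simp
  ring

/-- the Gauss relation -/
theorem Side.hk (h : Side L a b c a1 b1 c1 a2 b2 c2) {r : ℝ} (hr : r ∈ Ioo 0 L) :
    kk (a r) (b r) (c r) (a1 r) (b1 r) (c1 r)
      = sf a b c a1 c1 r ^ 2 + mf a a1 r * pf a b c a1 b1 c1 r := by
  have ha := h.apos r hr
  have hD := h.Dpos r hr
  rw [sf_sq hD]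
  unfold kk mf pf
  have ha' := ha.ne'
  have hD' := hD.ne'
  field_simp
  ring

end

end Pool.Agent.QPinch
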