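import Mathlib

/-!
A three-leg path and its length.
-/

open Set Filter Topology MeasureTheory

namespace Pool.Agent.QPinch

noncomputable section

def leg1 (t : ℝ) : ℝ := max 0 (1 - 3 * t)
def leg2 (t : ℝ) : ℝ := min 1 (max 0 (3 * t - 1))
def leg3 (t : ℝ) : ℝ := max 0 (3 * t - 2)

/-- radial leg to r = 0, then a leg along r = 0, then a radial leg -/
def path3 (r1 r2 x1 x2 d1 d2 : ℝ) (t : ℝ) : Fin 3 → ℝ :=
  ![r1 * leg1 t + r2 * leg3 t, x1 + d1 * leg2 t, x2 + d2 * leg2 t]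

theorem lip_leg1 : LipschitzWith 3 leg1 := by
  have h : LipschitzWith 3 (fun t : ℝ => 1 - 3 * t) := by
    apply LipschitzWith.of_dist_le_mul
    intro x y
    simp only [Real.dist_eq]
    rw [show 1 - 3 * x - (1 - 3 * y) = -(3 * (x - y)) by ring, abs_neg, abs_mul]
    norm_num
  exact h.const_max 0

theorem lip_leg3 : LipschitzWith 3 leg3 := by
  have h : LipschitzWith 3 (fun t : ℝ => 3 * t - 2) := by
    apply LipschitzWith.of_dist_le_mul
    intro x y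
    simp only [Real.dist_eq]
    rw [show 3 * x - 2 - (3 * y - 2) = 3 * (x - y) by ring, abs_mul]
    norm_num
  exact h.const_max 0

theorem lip_leg2 : LipschitzWith 3 leg2 := by
  have h : LipschitzWith 3 (fun t : ℝ => 3 * t - 1) := by
    apply LipschitzWith.of_dist_le_mul
    intro x y
    simp only [Real.dist_eq]
    rw [show 3 * x - 1 - (3 * y - 1) = 3 * (x - y) by ring, abs_mul]
    norm_num
  exact (h.const_max 0).const_min 1

theorem lip_path3 (r1 r2 x1 x2 d1 d2 : ℝ) : ∃ K, LipschitzWith K (path3 r1 r2 x1 x2 d1 d2) := by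
  refine ⟨Real.toNNReal (3 * (|r1| + |r2| + |d1| + |d2|)), ?_⟩
  apply LipschitzWith.of_dist_le_mul
  intro s t
  have e1 : |leg1 s - leg1 t| ≤ 3 * |s - t| := by
    have := lip_leg1.dist_le_mul s t
    simpa [Real.dist_eq] using this
  have e2 : |leg2 s - leg2 t| ≤ 3 * |s - t| := by
    have := lip_leg2.dist_le_mul s t
    simpa [Real.dist_eq] using this
  have e3 : |leg3 s - leg3 t| ≤ 3 * |s - t| := by
    have := lip_leg3.dist_le_mul s t
    simpa [Real.dist_eq] using this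
  have hK : ((Real.toNNReal (3 * (|r1| + |r2| + |d1| + |d2|)) : NNReal) : ℝ)
      = 3 * (|r1| + |r2| + |d1| + |d2|) := Real.coe_toNNReal _ (by positivity)
  rw [hK, Real.dist_eq]
  have hst := abs_nonneg (s - t)
  have hr1 := abs_nonneg r1
  have hr2 := abs_nonneg r2
  have hd1 := abs_nonneg d1
  have hd2 := abs_nonneg d2
  rw [dist_pi_le_iff (by positivity)]
  intro i
  fin_cases i
  · simp only [path3, Real.dist_eq, Fin.zero_eta, Matrix.cons_val_zero]
    rw [show r1 * leg1 s + r2 * leg3 s - (r1 * leg1 t + r2 * leg3 t)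
      = r1 * (leg1 s - leg1 t) + r2 * (leg3 s - leg3 t) by ring]
    refine (abs_add_le _ _).trans ?_
    rw [abs_mul, abs_mul]
    nlinarith [mul_le_mul_of_nonneg_left e1 hr1, mul_le_mul_of_nonneg_left e3 hr2,
      mul_nonneg hd1 hst, mul_nonneg hd2 hst]
  · simp only [path3, Real.dist_eq, Fin.mk_one, Matrix.cons_val_one, Matrix.cons_val_zero]
    rw [show x1 + d1 * leg2 s - (x1 + d1 * leg2 t) = d1 * (leg2 s - leg2 t) by ring, abs_mul]
    nlinarith [mul_le_mul_of_nonneg_left e2 hd1, mul_nonneg hr1 hst, mul_nonneg hr2 hst,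
      mul_nonneg hd2 hst]
  · simp only [path3, Real.dist_eq]
    have : |x2 + d2 * leg2 s - (x2 + d2 * leg2 t)| ≤ 3 * (|r1| + |r2| + |d1| + |d2|) * |s - t| := by
      rw [show x2 + d2 * leg2 s - (x2 + d2 * leg2 t) = d2 * (leg2 s - leg2 t) by ring, abs_mul]
      nlinarith [mul_le_mul_of_nonneg_left e2 hd2, mul_nonneg hr1 hst, mul_nonneg hr2 hst,
        mul_nonneg hd1 hst]
    simpa using this

theorem path3_zero (r1 r2 x1 x2 d1 d2 : ℝ) : path3 r1 r2 x1 x2 d1 d2 0 = ![r1, x1, x2] := by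
  simp [path3, leg1, leg2, leg3]

theorem path3_one (r1 r2 x1 x2 d1 d2 : ℝ) :
    path3 r1 r2 x1 x2 d1 d2 1 = ![r2, x1 + d1, x2 + d2] := by
  have h1 : leg1 1 = 0 := by unfold leg1; norm_num
  have h2 : leg2 1 = 1 := by unfold leg2; norm_num
  have h3 : leg3 1 = 1 := by unfold leg3; norm_num
  simp [path3, h1, h2, h3]

theorem path3_mem {r1 r2 L : ℝ} (h1 : r1 ∈ Icc 0 L) (h2 : r2 ∈ Icc 0 L) (x1 x2 d1 d2 : ℝ)
    {t : ℝ} (ht : t ∈ Icc 0 1) : path3 r1 r2 x1 x2 d1 d2 t 0 ∈ Icc 0 L := by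
  simp only [path3, Matrix.cons_val_zero]
  rcases le_total t (1 / 2) with h | h
  · have e3 : leg3 t = 0 := by unfold leg3; exact max_eq_left (by linarith)
    have e1 : 0 ≤ leg1 t := le_max_left _ _
    have e1' : leg1 t ≤ 1 := max_le (by norm_num) (by linarith [ht.1])
    rw [e3, mul_zero, add_zero]
    exact ⟨mul_nonneg h1.1 e1, by nlinarith [h1.1, h1.2]⟩
  · have e3 : leg1 t = 0 := by unfold leg1; exact max_eq_left (by linarith)
    have e1 : 0 ≤ leg3 t := le_max_left _ _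
    have e1' : leg3 t ≤ 1 := max_le (by norm_num) (by linarith [ht.2])
    rw [e3, mul_zero, zero_add]
    exact ⟨mul_nonneg h2.1 e1, by nlinarith [h2.1, h2.2]⟩

theorem leg1_A {t : ℝ} (ht : t ≤ 1 / 3) : leg1 t = 1 - 3 * t := max_eq_right (by linarith)
theorem leg1_B {t : ℝ} (ht : 1 / 3 ≤ t) : leg1 t = 0 := max_eq_left (by linarith)
theorem leg3_A {t : ℝ} (ht : t ≤ 2 / 3) : leg3 t = 0 := max_eq_left (by linarith)
theorem leg3_B {t : ℝ} (ht : 2 / 3 ≤ t) : leg3 t = 3 * t - 2 := max_eq_right (by linarith)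
theorem leg2_A {t : ℝ} (ht : t ≤ 1 / 3) : leg2 t = 0 := by
  unfold leg2; rw [max_eq_left (by linarith)]; norm_num
theorem leg2_B {t : ℝ} (ht : 1 / 3 ≤ t) (ht' : t ≤ 2 / 3) : leg2 t = 3 * t - 1 := by
  unfold leg2; rw [max_eq_right (by linarith), min_eq_right (by linarith)]
theorem leg2_C {t : ℝ} (ht : 2 / 3 ≤ t) : leg2 t = 1 := by
  unfold leg2; rw [max_eq_right (by linarith), min_eq_left (by linarith)]

theorem hasDerivAt_vec3 {f0 f1 f2 : ℝ → ℝ} {d0 d1 d2 t : ℝ} (h0 : HasDerivAt f0 d0 t)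
    (h1 : HasDerivAt f1 d1 t) (h2 : HasDerivAt f2 d2 t) :
    HasDerivAt (fun s => (![f0 s, f1 s, f2 s] : Fin 3 → ℝ)) ![d0, d1, d2] t := by
  rw [hasDerivAt_pi]
  intro i
  fin_cases i
  · exact h0
  · exact h1
  · exact h2

theorem deriv_path3_A (r1 r2 x1 x2 d1 d2 : ℝ) {t : ℝ} (ht : t ∈ Ioo 0 (1 / 3)) :
    deriv (path3 r1 r2 x1 x2 d1 d2) t = ![-3 * r1, 0, 0] ∧
    path3 r1 r2 x1 x2 d1 d2 t = ![r1 * (1 - 3 * t), x1, x2] := by
  have h : ∀ s ∈ Ioo 0 (1 / 3 : ℝ), path3 r1 r2 x1 x2 d1 d2 s = ![r1 * (1 - 3 * s), x1, x2] := by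
    intro s hs
    unfold path3
    rw [leg1_A hs.2.le, leg2_A hs.2.le, leg3_A (by linarith [hs.2])]
    simp
  refine ⟨?_, h t ht⟩
  have hev : path3 r1 r2 x1 x2 d1 d2 =ᶠ[𝓝 t] fun s => ![r1 * (1 - 3 * s), x1, x2] := by
    filter_upwards [Ioo_mem_nhds ht.1 ht.2] with s hs using h s hs
  rw [hev.deriv_eq]
  refine (hasDerivAt_vec3 (d0 := -3 * r1) ?_ (hasDerivAt_const _ _) (hasDerivAt_const _ _)).deriv
  have := (((hasDerivAt_id t).const_mul 3).const_sub 1).const_mul r1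
  exact this.congr_deriv (by ring)

theorem deriv_path3_B (r1 r2 x1 x2 d1 d2 : ℝ) {t : ℝ} (ht : t ∈ Ioo (1 / 3) (2 / 3)) :
    deriv (path3 r1 r2 x1 x2 d1 d2) t = ![0, 3 * d1, 3 * d2] ∧
    path3 r1 r2 x1 x2 d1 d2 t = ![0, x1 + d1 * (3 * t - 1), x2 + d2 * (3 * t - 1)] := by
  have h : ∀ s ∈ Ioo (1 / 3 : ℝ) (2 / 3), path3 r1 r2 x1 x2 d1 d2 s
      = ![0, x1 + d1 * (3 * s - 1), x2 + d2 * (3 * s - 1)] := by
    intro s hs
    unfold path3
    rw [leg1_B hs.1.le, leg2_B hs.1.le hs.2.le, leg3_A hs.2.le]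
    simp
  refine ⟨?_, h t ht⟩
  have hev : path3 r1 r2 x1 x2 d1 d2 =ᶠ[𝓝 t]
      fun s => ![0, x1 + d1 * (3 * s - 1), x2 + d2 * (3 * s - 1)] := by
    filter_upwards [Ioo_mem_nhds ht.1 ht.2] with s hs using h s hs
  rw [hev.deriv_eq]
  refine (hasDerivAt_vec3 (hasDerivAt_const _ _) (d1 := 3 * d1) (d2 := 3 * d2) ?_ ?_).deriv
  · have := ((((hasDerivAt_id t).const_mul 3).sub_const 1).const_mul d1).const_add x1
    exact this.congr_deriv (by ring)
  · have := ((((hasDerivAt_id t).const_mul 3).sub_const 1).const_mul d2).const_add x2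
    exact this.congr_deriv (by ring)

theorem deriv_path3_C (r1 r2 x1 x2 d1 d2 : ℝ) {t : ℝ} (ht : t ∈ Ioo (2 / 3) 1) :
    deriv (path3 r1 r2 x1 x2 d1 d2) t = ![3 * r2, 0, 0] ∧
    path3 r1 r2 x1 x2 d1 d2 t = ![r2 * (3 * t - 2), x1 + d1, x2 + d2] := by
  have h : ∀ s ∈ Ioo (2 / 3 : ℝ) 1, path3 r1 r2 x1 x2 d1 d2 s
      = ![r2 * (3 * s - 2), x1 + d1, x2 + d2] := by
    intro s hs
    unfold path3
    rw [leg1_B (by linarith [hs.1]), leg2_C hs.1.le, leg3_B hs.1.le]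
    simp
  refine ⟨?_, h t ht⟩
  have hev : path3 r1 r2 x1 x2 d1 d2 =ᶠ[𝓝 t] fun s => ![r2 * (3 * s - 2), x1 + d1, x2 + d2] := by
    filter_upwards [Ioo_mem_nhds ht.1 ht.2] with s hs using h s hs
  rw [hev.deriv_eq]
  refine (hasDerivAt_vec3 (d0 := 3 * r2) ?_ (hasDerivAt_const _ _) (hasDerivAt_const _ _)).deriv
  have := (((hasDerivAt_id t).const_mul 3).sub_const 2).const_mul r2
  exact this.congr_deriv (by ring)

theorem integral_const_Ioo {f : ℝ → ℝ} {p q C : ℝ} (hpq : p ≤ q) (h : ∀ t ∈ Ioo p q, f t = C) :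
    IntervalIntegrable f volume p q ∧ ∫ t in p..q, f t = (q - p) * C := by
  have hae : ∀ᵐ t ∂(volume.restrict (uIoc p q)), (fun _ : ℝ => C) t = f t := by
    rw [uIoc_of_le hpq, ← restrict_Ioo_eq_restrict_Ioc]
    rw [ae_restrict_iff' measurableSet_Ioo]
    exact Eventually.of_forall fun t ht => (h t ht).symm
  refine ⟨?_, ?_⟩
  · exact (intervalIntegrable_const (c := C)).congr_ae hae
  · rw [← intervalIntegral.integral_congr_ae_restrict hae, intervalIntegral.integral_const,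
      smul_eq_mul]

end

end Pool.Agent.QPinch
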