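import Mathlib

/-!
Coordinate definitions of Riemannian geometry on open sets of n-dimensional coordinate space.
-/

namespace Pool.Agent.QPinch

noncomputable section

/-- partial derivative in the coordinate with index i -/
def pd {n : ℕ} (i : Fin n) (φ : (Fin n → ℝ) → ℝ) (x : Fin n → ℝ) : ℝ :=
  deriv (fun t : ℝ => φ (Function.update x i t)) (x i)

/-- Christoffel symbol with upper index k and lower indices i, j of the metric g -/
def christoffel {n : ℕ} (g : (Fin n → ℝ) → Matrix (Fin n) (Fin n) ℝ) (k i j : Fin n)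
    (x : Fin n → ℝ) : ℝ :=
  (1 / 2) * ∑ l, (g x)⁻¹ k l * (pd i (fun y => g y j l) x + pd j (fun y => g y i l) x
    - pd l (fun y => g y i j) x)

/-- the component with upper index l of R(e_i, e_j) e_k, for the curvature tensor R of g -/
def riemann {n : ℕ} (g : (Fin n → ℝ) → Matrix (Fin n) (Fin n) ℝ) (l i j k : Fin n)
    (x : Fin n → ℝ) : ℝ :=
  pd i (christoffel g l j k) x - pd j (christoffel g l i k) x
    + ∑ m, (christoffel g l i m x * christoffel g m j k x
      - christoffel g l j m x * christoffel g m i k x)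

/-- the inner product of u and v at x -/
def ip {n : ℕ} (g : (Fin n → ℝ) → Matrix (Fin n) (Fin n) ℝ) (x u v : Fin n → ℝ) : ℝ :=
  ∑ i, ∑ j, g x i j * u i * v j

/-- the inner product of R(u, v) v with u at x -/
def curv {n : ℕ} (g : (Fin n → ℝ) → Matrix (Fin n) (Fin n) ℝ) (x u v : Fin n → ℝ) : ℝ :=
  ∑ i, ∑ j, ∑ k, ∑ l, ∑ m, g x m l * riemann g l i j k x * u i * v j * v k * u m

/-- sectional curvature at x of the plane spanned by u and v -/
def sec {n : ℕ} (g : (Fin n → ℝ) → Matrix (Fin n) (Fin n) ℝ) (x u v : Fin n → ℝ) : ℝ :=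
  curv g x u v / (ip g x u u * ip g x v v - ip g x u v ^ 2)

/-- all sectional curvatures at x are positive, and each is larger than δ times any other -/
def PinchedAt {n : ℕ} (δ : ℝ) (g : (Fin n → ℝ) → Matrix (Fin n) (Fin n) ℝ) (x : Fin n → ℝ) :
    Prop :=
  ∀ u v u' v' : Fin n → ℝ, LinearIndependent ℝ ![u, v] → LinearIndependent ℝ ![u', v'] →
    0 < sec g x u v ∧ δ * sec g x u' v' < sec g x u v

end

end Pool.Agent.QPinch
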