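import Pool.Agent.QPinch.Defs

/-!
Curvature of diagonal metrics.
-/

open Set Filter Topology

namespace Pool.Agent.QPinch

noncomputable section

variable {n : ℕ} {e : (Fin n → ℝ) → Fin n → ℝ}

/-- diagonal metric -/
def dg (e : (Fin n → ℝ) → Fin n → ℝ) (y : Fin n → ℝ) : Matrix (Fin n) (Fin n) ℝ :=
  Matrix.diagonal (e y)

theorem dg_ne {y : Fin n → ℝ} {i j : Fin n} (h : i ≠ j) : dg e y i j = 0 :=
  Matrix.diagonal_apply_ne _ h

theorem dg_eq {y : Fin n → ℝ} {i : Fin n} : dg e y i i = e y i :=
  Matrix.diagonal_apply_eq _ _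

theorem pd_diag (e : (Fin n → ℝ) → Fin n → ℝ) (i j l : Fin n) (x : Fin n → ℝ) :
    pd i (fun y => dg e y j l) x
      = if j = l then pd i (fun y => e y j) x else 0 := by
  by_cases h : j = l
  · subst h
    simp [dg_eq]
  · rw [if_neg h]
    simp only [dg_ne h]
    unfold pd
    exact deriv_const _ _

theorem diag_inv {v : Fin n → ℝ} (hv : ∀ i, v i ≠ 0) :
    (Matrix.diagonal v)⁻¹ = Matrix.diagonal (fun i => (v i)⁻¹) := by
  apply Matrix.inv_eq_right_inv
  rw [Matrix.diagonal_mul_diagonal]
  have : (fun i => v i * (v i)⁻¹) = fun _ => 1 := by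
    ext i; exact mul_inv_cancel₀ (hv i)
  rw [this, Matrix.diagonal_one]

theorem christoffel_diag {x : Fin n → ℝ} (hv : ∀ i, e x i ≠ 0) (k i j : Fin n) :
    christoffel (dg e) k i j x
      = (1 / 2) * ((e x k)⁻¹ * ((if j = k then pd i (fun y => e y j) x else 0)
        + (if i = k then pd j (fun y => e y i) x else 0)
        - (if i = j then pd k (fun y => e y i) x else 0))) := by
  unfold christoffel
  have hinv : (dg e x)⁻¹ = Matrix.diagonal (fun i => (e x i)⁻¹) := diag_inv hv
  rw [hinv]
  simp only [pd_diag]
  congr 1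
  rw [Finset.sum_eq_single k]
  · simp
  · intro l _ hl
    rw [Matrix.diagonal_apply_ne _ (Ne.symm hl), zero_mul]
  · intro h
    exact absurd (Finset.mem_univ k) h

theorem curv_diag (x : Fin n → ℝ) (i j : Fin n) :
    curv (dg e) x (Pi.single i 1) (Pi.single j 1)
      = e x i * riemann (dg e) i i j j x := by
  unfold curv
  rw [Finset.sum_eq_single i]
  · rw [Finset.sum_eq_single j]
    · rw [Finset.sum_eq_single j]
      · rw [Finset.sum_eq_single i]
        · rw [Finset.sum_eq_single i]
          · simp [dg_eq]
          · intro m _ hm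
            rw [dg_ne hm]; ring
          · intro h; exact absurd (Finset.mem_univ _) h
        · intro l _ hl
          apply Finset.sum_eq_zero
          intro m _
          by_cases hm : m = i
          · subst hm
            rw [dg_ne (Ne.symm hl)]; ring
          · rw [Pi.single_eq_of_ne hm]; ring
        · intro h; exact absurd (Finset.mem_univ _) h
      · intro k _ hk
        apply Finset.sum_eq_zero; intro l _
        apply Finset.sum_eq_zero; intro m _
        rw [Pi.single_eq_of_ne hk]; ring
      · intro h; exact absurd (Finset.mem_univ _) h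
    · intro k _ hk
      apply Finset.sum_eq_zero; intro l _
      apply Finset.sum_eq_zero; intro m _
      apply Finset.sum_eq_zero; intro m' _
      rw [Pi.single_eq_of_ne hk]; ring
    · intro h; exact absurd (Finset.mem_univ _) h
  · intro k _ hk
    apply Finset.sum_eq_zero; intro l _
    apply Finset.sum_eq_zero; intro m _
    apply Finset.sum_eq_zero; intro m' _
    apply Finset.sum_eq_zero; intro m'' _
    rw [Pi.single_eq_of_ne hk]; ring
  · intro h; exact absurd (Finset.mem_univ _) h

theorem ip_diag (x : Fin n → ℝ) (i j : Fin n) :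
    ip (dg e) x (Pi.single i 1) (Pi.single j 1)
      = if i = j then e x i else 0 := by
  unfold ip
  rw [Finset.sum_eq_single i]
  · rw [Finset.sum_eq_single j]
    · by_cases h : i = j
      · subst h; simp [dg_eq]
      · rw [dg_ne h, if_neg h]; ring
    · intro k _ hk
      rw [Pi.single_eq_of_ne hk]; ring
    · intro h; exact absurd (Finset.mem_univ _) h
  · intro k _ hk
    apply Finset.sum_eq_zero; intro l _
    rw [Pi.single_eq_of_ne hk]; ring
  · intro h; exact absurd (Finset.mem_univ _) h

theorem sec_diag {x : Fin n → ℝ} (hv : ∀ i, e x i ≠ 0) {i j : Fin n} (hij : i ≠ j) :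
    sec (dg e) x (Pi.single i 1) (Pi.single j 1)
      = riemann (dg e) i i j j x / e x j := by
  unfold sec
  rw [curv_diag, ip_diag, ip_diag, ip_diag, if_pos rfl, if_pos rfl, if_neg hij]
  have h1 := hv i
  have h2 := hv j
  field_simp
  ring

theorem indep_single {i j : Fin n} (hij : i ≠ j) :
    LinearIndependent ℝ ![(Pi.single i 1 : Fin n → ℝ), Pi.single j 1] := by
  rw [LinearIndependent.pair_iff]
  intro p q hpq
  have h1 := congrFun hpq i
  have h2 := congrFun hpq j
  simp [Pi.single_eq_of_ne hij, Pi.single_eq_of_ne (Ne.symm hij)] at h1 h2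
  exact ⟨h1, h2⟩

/-- curvature component containing the unit coordinate 0 -/
theorem riemann_zero [NeZero n] {i : Fin n} (hi : i ≠ 0) {x : Fin n → ℝ}
    (hev : ∀ j : Fin n, ∀ᶠ t in 𝓝 (x j), ∀ k, e (Function.update x j t) k ≠ 0)
    (h0 : ∀ y, e y 0 = 1) :
    riemann (dg e) 0 0 i i x
      = -(1 / 2) * pd 0 (pd 0 (fun y => e y i)) x
        + (1 / 4) * (pd 0 (fun y => e y i) x) ^ 2 / e x i := by
  have hx : ∀ k, e x k ≠ 0 := by
    have := (hev 0).self_of_nhds
    simpa using this
  have hpd0 : ∀ (j : Fin n) y, pd j (fun z => e z 0) y = 0 := by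
    intro j y
    simp only [h0]
    unfold pd
    exact deriv_const _ _
  unfold riemann
  have e1 : pd 0 (christoffel (dg e) 0 i i) x
      = -(1 / 2) * pd 0 (pd 0 (fun y => e y i)) x := by
    unfold pd
    have hq : (fun t => christoffel (dg e) 0 i i (Function.update x 0 t))
        =ᶠ[𝓝 (x 0)] fun t => -(1 / 2) * pd 0 (fun y => e y i) (Function.update x 0 t) := by
      filter_upwards [hev 0] with t ht
      rw [christoffel_diag ht, if_neg hi, if_pos rfl, h0]
      ring
    rw [hq.deriv_eq, deriv_const_mul_field]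
    rfl
  have e2 : pd i (christoffel (dg e) 0 0 i) x = 0 := by
    unfold pd
    have hq : (fun t => christoffel (dg e) 0 0 i (Function.update x i t))
        =ᶠ[𝓝 (x i)] fun _ => 0 := by
      filter_upwards [hev i] with t ht
      rw [christoffel_diag ht, if_neg hi, if_pos rfl, if_neg (Ne.symm hi), hpd0]
      ring
    rw [hq.deriv_eq]
    exact deriv_const _ _
  rw [e1, e2]
  have e3 : ∀ m, christoffel (dg e) 0 0 m x = 0 := by
    intro m
    rw [christoffel_diag hx]
    by_cases hm : m = 0
    · subst hm
      simp [hpd0]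
    · rw [if_neg hm, if_pos rfl, if_neg (Ne.symm hm), hpd0]
      ring
  rw [Finset.sum_eq_single i]
  · have k1 : christoffel (dg e) 0 i i x = -(1 / 2) * pd 0 (fun y => e y i) x := by
      rw [christoffel_diag hx 0 i i, h0]
      simp [hi]
    have k2 : christoffel (dg e) i 0 i x = (1 / 2) * ((e x i)⁻¹ * pd 0 (fun y => e y i) x) := by
      rw [christoffel_diag hx i 0 i]
      simp [Ne.symm hi]
    rw [e3, k1, k2]
    have := hx i
    field_simp
    ring
  · intro m _ hm
    have k1 : christoffel (dg e) 0 i m x = 0 := by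
      rw [christoffel_diag hx 0 i m]
      by_cases hm0 : m = 0
      · subst hm0
        simp [hi, hpd0]
      · simp [hm0, hi, Ne.symm hm]
    rw [e3, k1]
    ring
  · intro h; exact absurd (Finset.mem_univ _) h

/-- curvature component of two blocks -/
theorem riemann_block [NeZero n] {i j : Fin n} (hi : i ≠ 0) (hj : j ≠ 0) (hij : i ≠ j)
    {x : Fin n → ℝ}
    (hev : ∀ j : Fin n, ∀ᶠ t in 𝓝 (x j), ∀ k, e (Function.update x j t) k ≠ 0)
    (h0 : ∀ y, e y 0 = 1) (hA : ∀ y, pd j (fun z => e z i) y = 0)
    (hB : ∀ y, pd i (fun z => e z j) y = 0)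
    (hC : ∀ m y, m ≠ 0 → pd m (fun z => e z i) y = 0 ∨ pd m (fun z => e z j) y = 0) :
    riemann (dg e) i i j j x
      = -(1 / 4) * pd 0 (fun y => e y i) x * pd 0 (fun y => e y j) x / e x i := by
  have hx : ∀ k, e x k ≠ 0 := by
    have := (hev 0).self_of_nhds
    simpa using this
  unfold riemann
  have e1 : pd i (christoffel (dg e) i j j) x = 0 := by
    unfold pd
    have hq : (fun t => christoffel (dg e) i j j (Function.update x i t))
        =ᶠ[𝓝 (x i)] fun _ => 0 := by
      filter_upwards [hev i] with t ht
      rw [christoffel_diag ht, if_neg (Ne.symm hij), if_pos rfl, hB]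
      ring
    rw [hq.deriv_eq]
    exact deriv_const _ _
  have e2 : pd j (christoffel (dg e) i i j) x = 0 := by
    unfold pd
    have hq : (fun t => christoffel (dg e) i i j (Function.update x j t))
        =ᶠ[𝓝 (x j)] fun _ => 0 := by
      filter_upwards [hev j] with t ht
      rw [christoffel_diag ht, if_neg (Ne.symm hij), if_pos rfl, if_neg hij, hA]
      ring
    rw [hq.deriv_eq]
    exact deriv_const _ _
  rw [e1, e2]
  have e3 : ∀ m, christoffel (dg e) i j m x = 0 := by
    intro m
    rw [christoffel_diag hx]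
    by_cases hm : m = i
    · subst hm
      simp [Ne.symm hij, hA]
    · by_cases hmj : j = m
      · simp [hm, Ne.symm hij, hmj]
        subst hmj
        simp [hB]
      · simp [hm, Ne.symm hij, hmj]
  rw [Finset.sum_eq_single 0]
  · have k1 : christoffel (dg e) i i 0 x = (1 / 2) * ((e x i)⁻¹ * pd 0 (fun y => e y i) x) := by
      rw [christoffel_diag hx i i 0]
      simp [Ne.symm hi, hi]
    have k2 : christoffel (dg e) 0 j j x = -(1 / 2) * pd 0 (fun y => e y j) x := by
      rw [christoffel_diag hx 0 j j, h0]
      simp [hj]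
    rw [e3, k1, k2]
    have := hx i
    field_simp
    ring
  · intro m _ hm
    rcases hC m x hm with h | h
    · have k1 : christoffel (dg e) i i m x = 0 := by
        rw [christoffel_diag hx i i m]
        by_cases hmi : m = i
        · subst hmi; simp [h]
        · simp [hmi, Ne.symm hmi, h]
      rw [e3, k1]; ring
    · have k1 : christoffel (dg e) m j j x = 0 := by
        rw [christoffel_diag hx m j j]
        by_cases hmj : j = m
        · subst hmj; simp [h]
        · simp [hmj, h]
      rw [e3, k1]; ring
  · intro h; exact absurd (Finset.mem_univ _) h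

end

end Pool.Agent.QPinch
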