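import Pool.Agent.QPinch.Core

open Set Filter Topology

namespace Pool.Agent.QPinch

noncomputable section

variable {L : ℝ} {a b c a1 b1 c1 a2 b2 c2 : ℝ → ℝ}

/-- difference quotient at zero -/
theorem slope_lim {φ : ℝ → ℝ} {φ' : ℝ} (h : HasDerivAt φ φ' 0) (h0 : φ 0 = 0) :
    Tendsto (fun r => φ r / r) (𝓝[>] 0) (𝓝 φ') := by
  have h1 := h.tendsto_slope_zero_right
  refine h1.congr (fun r => ?_)
  simp [h0, smul_eq_mul]
  ring

theorem sq_lim {φ φ1 : ℝ → ℝ} {m : ℝ} (h : ∀ r, HasDerivAt φ (φ1 r) r) (h0 : φ 0 = 0)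
    (h1 : HasDerivAt φ1 m 0) (h10 : φ1 0 = 0) :
    Tendsto (fun r => φ r / r ^ 2) (𝓝[>] 0) (𝓝 (m / 2)) := by
  have e1 := slope_lim h1 h10
  refine HasDerivAt.lhopital_zero_nhdsGT (f' := φ1) (g' := fun r => 2 * r)
    (Eventually.of_forall fun r => h r) ?_ ?_ ?_ ?_ ?_
  · refine Eventually.of_forall fun r => ?_
    have := hasDerivAt_pow 2 r
    refine this.congr_deriv ?_
    simp
  · filter_upwards [self_mem_nhdsWithin] with r hr
    have : (0:ℝ) < r := hr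
    positivity
  · have := (h 0).continuousAt.tendsto
    rw [h0] at this
    exact this.mono_left nhdsWithin_le_nhds
  · have : Tendsto (fun r : ℝ => r ^ 2) (𝓝 0) (𝓝 (0 ^ 2)) := (continuous_pow 2).tendsto 0
    simp only [ne_eq, OfNat.ofNat_ne_zero, not_false_eq_true, zero_pow] at this
    exact this.mono_left nhdsWithin_le_nhds
  · have e2 := e1.div_const 2
    refine e2.congr (fun r => ?_)
    rw [div_div, mul_comm r 2]

theorem Side.lim_a1 (h : Side L a b c a1 b1 c1 a2 b2 c2) :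
    Tendsto (fun r => a1 r / r) (𝓝[>] 0) (𝓝 2) := by
  have := slope_lim (h.ha1 0) h.a10
  rwa [h.a20] at this

theorem Side.lim_a (h : Side L a b c a1 b1 c1 a2 b2 c2) :
    Tendsto (fun r => a r / r ^ 2) (𝓝[>] 0) (𝓝 1) := by
  have := sq_lim h.ha h.a0 (h.ha1 0) h.a10
  rw [h.a20] at this
  simpa using this

theorem Side.lim_c1 (h : Side L a b c a1 b1 c1 a2 b2 c2) :
    Tendsto (fun r => c1 r / r) (𝓝[>] 0) (𝓝 (c2 0)) := slope_lim (h.hc1 0) h.c10

theorem Side.lim_c (h : Side L a b c a1 b1 c1 a2 b2 c2) :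
    Tendsto (fun r => c r / r ^ 2) (𝓝[>] 0) (𝓝 (c2 0 / 2)) := sq_lim h.hc h.c0 (h.hc1 0) h.c10

theorem lim_cont {φ : ℝ → ℝ} {φ' : ℝ} (h : HasDerivAt φ φ' 0) :
    Tendsto φ (𝓝[>] 0) (𝓝 (φ 0)) := h.continuousAt.tendsto.mono_left nhdsWithin_le_nhds

theorem Side.lim_D (h : Side L a b c a1 b1 c1 a2 b2 c2) :
    Tendsto (fun r => (a r * b r - c r ^ 2) / r ^ 2) (𝓝[>] 0) (𝓝 (b 0)) := by
  have e1 := h.lim_a.mul (lim_cont (h.hb 0))
  have e2 := h.lim_c.mul (lim_cont (h.hc 0))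
  have e3 := e1.sub e2
  rw [h.c0] at e3
  simp only [one_mul, mul_zero, sub_zero] at e3
  refine e3.congr (fun r => ?_)
  ring

theorem Side.lim_p (h : Side L a b c a1 b1 c1 a2 b2 c2) :
    Tendsto (pf a b c a1 b1 c1) (𝓝[>] 0) (𝓝 0) := by
  have hnum := (((h.lim_a.mul h.lim_c).mul (lim_cont (h.hc1 0))).const_mul 2).sub
    ((lim_cont (h.ha1 0)).mul (h.lim_c.pow 2))
  have hnum2 := hnum.sub ((h.lim_a.pow 2).mul (lim_cont (h.hb1 0)))
  rw [h.a10, h.b10, h.c10] at hnum2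
  have hden := (h.lim_a.mul h.lim_D).const_mul 2
  have h0 := h.b0
  have := hnum2.div hden (by positivity)
  have h2 : Tendsto (fun r => (2 * (a r / r ^ 2 * (c r / r ^ 2) * c1 r) - a1 r * (c r / r ^ 2) ^ 2
      - (a r / r ^ 2) ^ 2 * b1 r) / (2 * (a r / r ^ 2 * ((a r * b r - c r ^ 2) / r ^ 2))))
      (𝓝[>] 0) (𝓝 0) := by
    have e : (2 * (1 * (c2 0 / 2) * 0) - 0 * (c2 0 / 2) ^ 2 - 1 ^ 2 * 0) / (2 * (1 * b 0)) = 0 := by
      simp
    rw [e] at this
    exact this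
  refine h2.congr' ?_
  filter_upwards [self_mem_nhdsWithin] with r hr
  have hr0 : (0:ℝ) < r := hr
  unfold pf
  have hr' := hr0.ne'
  field_simp

theorem Side.lim_sqrtD (h : Side L a b c a1 b1 c1 a2 b2 c2) :
    Tendsto (fun r => √(a r * b r - c r ^ 2) / r) (𝓝[>] 0) (𝓝 (√(b 0))) := by
  have h1 := (Real.continuous_sqrt.tendsto _).comp h.lim_D
  refine h1.congr' ?_
  filter_upwards [self_mem_nhdsWithin] with r hr
  have hr0 : (0:ℝ) < r := hr
  simp only [Function.comp]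
  rw [Real.sqrt_div' _ (by positivity), Real.sqrt_sq hr0.le]

theorem Side.lim_s (h : Side L a b c a1 b1 c1 a2 b2 c2) :
    Tendsto (sf a b c a1 c1) (𝓝[>] 0) (𝓝 0) := by
  have hnum := (h.lim_c1.mul h.lim_a).sub (h.lim_c.mul h.lim_a1)
  have hden := (h.lim_a.mul h.lim_sqrtD).const_mul 2
  have h0 := Real.sqrt_pos.mpr h.b0
  have := hnum.div hden (by positivity)
  have e : (c2 0 * 1 - c2 0 / 2 * 2) / (2 * (1 * √(b 0))) = 0 := by
    simp
  rw [e] at this
  refine this.congr' ?_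
  filter_upwards [self_mem_nhdsWithin] with r hr
  have hr0 : (0:ℝ) < r := hr
  unfold sf
  have hr' := hr0.ne'
  simp only [Pi.div_apply]
  by_cases hs : √(a r * b r - c r ^ 2) = 0
  · simp [hs]
  · field_simp

theorem Side.lim_sqrta (h : Side L a b c a1 b1 c1 a2 b2 c2) :
    Tendsto (fun r => √(a r) / r) (𝓝[>] 0) (𝓝 1) := by
  have h1 := (Real.continuous_sqrt.tendsto _).comp h.lim_a
  rw [Real.sqrt_one] at h1
  refine h1.congr' ?_
  filter_upwards [self_mem_nhdsWithin] with r hr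
  have hr0 : (0:ℝ) < r := hr
  simp only [Function.comp]
  rw [Real.sqrt_div' _ (by positivity), Real.sqrt_sq hr0.le]

theorem Side.lim_f0 (h : Side L a b c a1 b1 c1 a2 b2 c2) :
    Tendsto (fun r => √(a r)) (𝓝[>] 0) (𝓝 0) := by
  have h1 := (Real.continuous_sqrt.tendsto _).comp (lim_cont (h.ha 0))
  rw [h.a0, Real.sqrt_zero] at h1
  exact h1

/-- the speed of the first Killing field at the end is one -/
theorem Side.lim_f1 (h : Side L a b c a1 b1 c1 a2 b2 c2) :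
    Tendsto (fun r => mf a a1 r * √(a r)) (𝓝[>] 0) (𝓝 1) := by
  have h1 := h.lim_a1.div ((h.lim_sqrta).const_mul 2) (by norm_num)
  have e : (2 : ℝ) / (2 * 1) = 1 := by norm_num
  rw [e] at h1
  refine h1.congr' ?_
  have hev : ∀ᶠ r in 𝓝[>] (0:ℝ), r ∈ Ioo 0 L := Ioo_mem_nhdsGT h.L_pos
  filter_upwards [hev] with r hr
  have hr0 : (0:ℝ) < r := hr.1
  have ha := h.apos r hr
  have hs := Real.sqrt_pos.mpr ha
  unfold mf
  have hr' := hr0.ne'
  have hq : √(a r) ^ 2 = a r := Real.sq_sqrt ha.le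
  simp only [Pi.div_apply]
  rw [show a1 r / (2 * a r) * √(a r) = a1 r / (2 * √(a r) ^ 2) * √(a r) by rw [hq]]
  have hs' := hs.ne'
  field_simp

/-- the transverse length -/
def nu (a b c : ℝ → ℝ) (r : ℝ) : ℝ := √(a r * b r - c r ^ 2) / √(a r)

theorem Side.lim_nu (h : Side L a b c a1 b1 c1 a2 b2 c2) :
    Tendsto (nu a b c) (𝓝[>] 0) (𝓝 (√(b 0))) := by
  have h1 := h.lim_sqrtD.div h.lim_sqrta (by norm_num)
  rw [div_one] at h1
  refine h1.congr' ?_
  filter_upwards [self_mem_nhdsWithin] with r hr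
  have hr0 : (0:ℝ) < r := hr
  unfold nu
  simp only [Pi.div_apply]
  rw [div_div_div_cancel_right₀ hr0.ne']

theorem Side.nu_pos (h : Side L a b c a1 b1 c1 a2 b2 c2) {r : ℝ} (hr : r ∈ Ioo 0 L) :
    0 < nu a b c r := div_pos (Real.sqrt_pos.mpr (h.Dpos r hr)) (Real.sqrt_pos.mpr (h.apos r hr))

theorem Side.hf (h : Side L a b c a1 b1 c1 a2 b2 c2) {r : ℝ} (hr : r ∈ Ioo 0 L) :
    HasDerivAt (fun r => √(a r)) (mf a a1 r * √(a r)) r := by
  have ha := h.apos r hr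
  refine ((h.ha r).sqrt ha.ne').congr_deriv ?_
  have hs := Real.sqrt_pos.mpr ha
  have hq : √(a r) ^ 2 = a r := Real.sq_sqrt ha.le
  unfold mf
  rw [show a1 r / (2 * a r) * √(a r) = a1 r / (2 * √(a r) ^ 2) * √(a r) by rw [hq]]
  have hs' := hs.ne'
  field_simp

theorem Side.hnu (h : Side L a b c a1 b1 c1 a2 b2 c2) {r : ℝ} (hr : r ∈ Ioo 0 L) :
    HasDerivAt (nu a b c) (-(pf a b c a1 b1 c1 r) * nu a b c r) r := by
  have ha := h.apos r hr
  have hD := h.Dpos r hr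
  have hs := Real.sqrt_pos.mpr ha
  have hv := Real.sqrt_pos.mpr hD
  have h1 : HasDerivAt (nu a b c) _ r := (h.hsqrtD hr).div (h.hf hr) hs.ne'
  refine h1.congr_deriv ?_
  have hq : √(a r) ^ 2 = a r := Real.sq_sqrt ha.le
  have hq2 : √(a r * b r - c r ^ 2) ^ 2 = a r * b r - c r ^ 2 := Real.sq_sqrt hD.le
  unfold mf pf nu
  clear h1
  generalize √(a r * b r - c r ^ 2) = v at *
  rw [← hq2]
  have hb : b r = (v ^ 2 + c r ^ 2) / a r := by
    have := ha.ne'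
    field_simp
    linarith
  rw [hb]
  have hv' := hv.ne'
  have ha' := ha.ne'
  have hs' := hs.ne'
  field_simp
  ring

end

end Pool.Agent.QPinch
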