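import Pool.Agent.QPinch.Main
import Pool.Agent.QPinch.Defs

open Set Filter Topology

namespace Pool.Agent.QPinch

noncomputable section

/-- the metric dr^2 + a dx^2 + 2 c dx dy + b dy^2 in coordinates (r, x, y) -/
def torusMetric (a b c : ℝ → ℝ) (x : Fin 3 → ℝ) : Matrix (Fin 3) (Fin 3) ℝ :=
  !![1, 0, 0; 0, a (x 0), c (x 0); 0, c (x 0), b (x 0)]

/-- first derivative matrix -/
def M1 (a1 b1 c1 : ℝ) : Matrix (Fin 3) (Fin 3) ℝ := !![0, 0, 0; 0, a1, c1; 0, c1, b1]

variable {a b c a1 b1 c1 a2 b2 c2 : ℝ → ℝ}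

theorem pd_entry (ha : ∀ r, HasDerivAt a (a1 r) r) (hb : ∀ r, HasDerivAt b (b1 r) r)
    (hc : ∀ r, HasDerivAt c (c1 r) r) (i j l : Fin 3) (x : Fin 3 → ℝ) :
    pd i (fun y => torusMetric a b c y j l) x
      = if i = 0 then M1 (a1 (x 0)) (b1 (x 0)) (c1 (x 0)) j l else 0 := by
  unfold pd
  by_cases hi : i = 0
  · subst hi
    rw [if_pos rfl]
    fin_cases j <;> fin_cases l <;>
      simp [torusMetric, M1, (ha _).deriv, (hb _).deriv, (hc _).deriv]
  · rw [if_neg hi]
    have : ∀ t, (Function.update x i t) 0 = x 0 := fun t => by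
      rw [Function.update_of_ne (Ne.symm hi)]
    simp only [torusMetric, this]
    exact deriv_const _ _

theorem torusMetric_inv {x : Fin 3 → ℝ} (hD : a (x 0) * b (x 0) - c (x 0) ^ 2 ≠ 0) :
    (torusMetric a b c x)⁻¹ = !![1, 0, 0;
      0, b (x 0) / (a (x 0) * b (x 0) - c (x 0) ^ 2), -c (x 0) / (a (x 0) * b (x 0) - c (x 0) ^ 2);
      0, -c (x 0) / (a (x 0) * b (x 0) - c (x 0) ^ 2),
      a (x 0) / (a (x 0) * b (x 0) - c (x 0) ^ 2)] := by
  apply Matrix.inv_eq_right_inv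
  ext i j
  fin_cases i <;> fin_cases j <;>
    simp [torusMetric, Matrix.mul_apply, Fin.sum_univ_three] <;> field_simp <;> ring

theorem christoffel_eq (ha : ∀ r, HasDerivAt a (a1 r) r) (hb : ∀ r, HasDerivAt b (b1 r) r)
    (hc : ∀ r, HasDerivAt c (c1 r) r) (k i j : Fin 3) (x : Fin 3 → ℝ) :
    christoffel (torusMetric a b c) k i j x
      = (1 / 2) * ∑ l, (torusMetric a b c x)⁻¹ k l *
        ((if i = 0 then M1 (a1 (x 0)) (b1 (x 0)) (c1 (x 0)) j l else 0)
        + (if j = 0 then M1 (a1 (x 0)) (b1 (x 0)) (c1 (x 0)) i l else 0)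
        - (if l = 0 then M1 (a1 (x 0)) (b1 (x 0)) (c1 (x 0)) i j else 0)) := by
  unfold christoffel
  simp only [pd_entry ha hb hc]

theorem pd_christoffel_ne (ha : ∀ r, HasDerivAt a (a1 r) r) (hb : ∀ r, HasDerivAt b (b1 r) r)
    (hc : ∀ r, HasDerivAt c (c1 r) r) (k i j m : Fin 3) (hm : m ≠ 0) (x : Fin 3 → ℝ) :
    pd m (christoffel (torusMetric a b c) k i j) x = 0 := by
  unfold pd
  have h0 : ∀ t, (Function.update x m t) 0 = x 0 := fun t => by
    rw [Function.update_of_ne (Ne.symm hm)]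
  simp only [christoffel_eq ha hb hc, torusMetric, h0]
  exact deriv_const _ _

theorem pd_christoffel_zero (ha : ∀ r, HasDerivAt a (a1 r) r) (hb : ∀ r, HasDerivAt b (b1 r) r)
    (hc : ∀ r, HasDerivAt c (c1 r) r) (ha1 : ∀ r, HasDerivAt a1 (a2 r) r)
    (hb1 : ∀ r, HasDerivAt b1 (b2 r) r) (hc1 : ∀ r, HasDerivAt c1 (c2 r) r)
    (i j : Fin 3) (hi : i ≠ 0) (hj : j ≠ 0) (x : Fin 3 → ℝ)
    (hD : a (x 0) * b (x 0) - c (x 0) ^ 2 ≠ 0) :
    pd 0 (christoffel (torusMetric a b c) 0 i j) x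
      = -(1 / 2) * M1 (a2 (x 0)) (b2 (x 0)) (c2 (x 0)) i j := by
  unfold pd
  have hcont : ContinuousAt (fun r => a r * b r - c r ^ 2) (x 0) :=
    (((ha _).mul (hb _)).sub ((hc _).pow 2)).continuousAt
  have hev : ∀ᶠ t in 𝓝 (x 0), a t * b t - c t ^ 2 ≠ 0 := hcont.eventually_ne hD
  have heq : (fun t => christoffel (torusMetric a b c) 0 i j (Function.update x 0 t))
      =ᶠ[𝓝 (x 0)] fun t => -(1 / 2) * M1 (a1 t) (b1 t) (c1 t) i j := by
    filter_upwards [hev] with t ht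
    have ht' : a ((Function.update x 0 t) 0) * b ((Function.update x 0 t) 0)
        - c ((Function.update x 0 t) 0) ^ 2 ≠ 0 := by simpa using ht
    rw [christoffel_eq ha hb hc, torusMetric_inv ht']
    simp [hi, hj]
  rw [heq.deriv_eq]
  have hd : HasDerivAt (fun t => -(1 / 2) * M1 (a1 t) (b1 t) (c1 t) i j)
      (-(1 / 2) * M1 (a2 (x 0)) (b2 (x 0)) (c2 (x 0)) i j) (x 0) := by
    apply HasDerivAt.const_mul
    fin_cases i <;> fin_cases j <;> simp_all [M1]
  exact hd.deriv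

/-- radial curvature of the torus metric -/
theorem curv_radial (ha : ∀ r, HasDerivAt a (a1 r) r) (hb : ∀ r, HasDerivAt b (b1 r) r)
    (hc : ∀ r, HasDerivAt c (c1 r) r) (ha1 : ∀ r, HasDerivAt a1 (a2 r) r)
    (hb1 : ∀ r, HasDerivAt b1 (b2 r) r) (hc1 : ∀ r, HasDerivAt c1 (c2 r) r)
    (x : Fin 3 → ℝ) (hD : a (x 0) * b (x 0) - c (x 0) ^ 2 ≠ 0) (s t : ℝ) :
    curv (torusMetric a b c) x ![1, 0, 0] ![0, s, t]
      = rq (a (x 0)) (b (x 0)) (c (x 0)) (a1 (x 0)) (b1 (x 0)) (c1 (x 0)) (a2 (x 0)) (b2 (x 0))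
        (c2 (x 0)) s t := by
  unfold curv
  have e : ∀ i j : Fin 3, i ≠ 0 → j ≠ 0 → riemann (torusMetric a b c) 0 0 i j x
      = -(1 / 2) * M1 (a2 (x 0)) (b2 (x 0)) (c2 (x 0)) i j
        + (christoffel (torusMetric a b c) 0 0 0 x * christoffel (torusMetric a b c) 0 i j x
        - christoffel (torusMetric a b c) 0 i 0 x * christoffel (torusMetric a b c) 0 0 j x
        + (christoffel (torusMetric a b c) 0 0 1 x * christoffel (torusMetric a b c) 1 i j x
        - christoffel (torusMetric a b c) 0 i 1 x * christoffel (torusMetric a b c) 1 0 j x)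
        + (christoffel (torusMetric a b c) 0 0 2 x * christoffel (torusMetric a b c) 2 i j x
        - christoffel (torusMetric a b c) 0 i 2 x * christoffel (torusMetric a b c) 2 0 j x)) := by
    intro i j hi hj
    unfold riemann
    rw [pd_christoffel_zero ha hb hc ha1 hb1 hc1 i j hi hj x hD,
      pd_christoffel_ne ha hb hc 0 0 j i hi x, Fin.sum_univ_three]
    ring
  simp only [Fin.sum_univ_three]
  simp [torusMetric]
  rw [e 1 1 (by decide) (by decide), e 1 2 (by decide) (by decide), e 2 1 (by decide) (by decide),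
    e 2 2 (by decide) (by decide)]
  simp only [christoffel_eq ha hb hc, torusMetric_inv hD]
  simp [Fin.sum_univ_three, M1, rq, r11, r12, r22]
  field_simp
  ring

/-- tangential curvature of the torus metric -/
theorem curv_tangential (ha : ∀ r, HasDerivAt a (a1 r) r) (hb : ∀ r, HasDerivAt b (b1 r) r)
    (hc : ∀ r, HasDerivAt c (c1 r) r)
    (x : Fin 3 → ℝ) (hD : a (x 0) * b (x 0) - c (x 0) ^ 2 ≠ 0) :
    curv (torusMetric a b c) x ![0, 1, 0] ![0, 0, 1]
      = (c1 (x 0) ^ 2 - a1 (x 0) * b1 (x 0)) / 4 := by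
  unfold curv
  have e : ∀ l : Fin 3, riemann (torusMetric a b c) l 1 2 2 x
      = christoffel (torusMetric a b c) l 1 0 x * christoffel (torusMetric a b c) 0 2 2 x
        - christoffel (torusMetric a b c) l 2 0 x * christoffel (torusMetric a b c) 0 1 2 x
        + (christoffel (torusMetric a b c) l 1 1 x * christoffel (torusMetric a b c) 1 2 2 x
        - christoffel (torusMetric a b c) l 2 1 x * christoffel (torusMetric a b c) 1 1 2 x)
        + (christoffel (torusMetric a b c) l 1 2 x * christoffel (torusMetric a b c) 2 2 2 x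
        - christoffel (torusMetric a b c) l 2 2 x * christoffel (torusMetric a b c) 2 1 2 x) := by
    intro l
    unfold riemann
    rw [pd_christoffel_ne ha hb hc l 2 2 1 (by decide) x,
      pd_christoffel_ne ha hb hc l 1 2 2 (by decide) x, Fin.sum_univ_three]
    ring
  simp only [Fin.sum_univ_three]
  simp [torusMetric]
  rw [e 1, e 2]
  simp only [christoffel_eq ha hb hc, torusMetric_inv hD]
  simp [Fin.sum_univ_three, M1]
  field_simp
  ring

theorem sec_radial (ha : ∀ r, HasDerivAt a (a1 r) r) (hb : ∀ r, HasDerivAt b (b1 r) r)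
    (hc : ∀ r, HasDerivAt c (c1 r) r) (ha1 : ∀ r, HasDerivAt a1 (a2 r) r)
    (hb1 : ∀ r, HasDerivAt b1 (b2 r) r) (hc1 : ∀ r, HasDerivAt c1 (c2 r) r)
    (x : Fin 3 → ℝ) (hD : a (x 0) * b (x 0) - c (x 0) ^ 2 ≠ 0) (s t : ℝ) :
    sec (torusMetric a b c) x ![1, 0, 0] ![0, s, t]
      = rq (a (x 0)) (b (x 0)) (c (x 0)) (a1 (x 0)) (b1 (x 0)) (c1 (x 0)) (a2 (x 0)) (b2 (x 0))
        (c2 (x 0)) s t / gq (a (x 0)) (b (x 0)) (c (x 0)) s t := by
  unfold sec
  rw [curv_radial ha hb hc ha1 hb1 hc1 x hD]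
  congr 1
  simp [ip, Fin.sum_univ_three, torusMetric, gq]
  ring_nf

theorem sec_tangential (ha : ∀ r, HasDerivAt a (a1 r) r) (hb : ∀ r, HasDerivAt b (b1 r) r)
    (hc : ∀ r, HasDerivAt c (c1 r) r)
    (x : Fin 3 → ℝ) (hD : a (x 0) * b (x 0) - c (x 0) ^ 2 ≠ 0) :
    sec (torusMetric a b c) x ![0, 1, 0] ![0, 0, 1]
      = kk (a (x 0)) (b (x 0)) (c (x 0)) (a1 (x 0)) (b1 (x 0)) (c1 (x 0)) := by
  unfold sec
  rw [curv_tangential ha hb hc x hD]
  unfold kk
  rw [div_div]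
  congr 1
  simp [ip, Fin.sum_univ_three, torusMetric]

theorem indep_radial {s t : ℝ} (h : s ≠ 0 ∨ t ≠ 0) :
    LinearIndependent ℝ ![(![1, 0, 0] : Fin 3 → ℝ), ![0, s, t]] := by
  rw [LinearIndependent.pair_iff]
  intro p q hpq
  have h0 := congrFun hpq 0
  have h1 := congrFun hpq 1
  have h2 := congrFun hpq 2
  simp at h0 h1 h2
  refine ⟨h0, ?_⟩
  rcases h with h | h
  · rcases h1 with h1 | h1
    · exact h1
    · exact absurd h1 h
  · rcases h2 with h2 | h2
    · exact h2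
    · exact absurd h2 h

theorem indep_tangential :
    LinearIndependent ℝ ![(![0, 1, 0] : Fin 3 → ℝ), ![0, 0, 1]] := by
  rw [LinearIndependent.pair_iff]
  intro p q hpq
  have h1 := congrFun hpq 1
  have h2 := congrFun hpq 2
  simp at h1 h2
  exact ⟨h1, h2⟩

/-- pinching of the metric gives the pinching used in the analysis -/
theorem pinchAt_of (ha : ∀ r, HasDerivAt a (a1 r) r) (hb : ∀ r, HasDerivAt b (b1 r) r)
    (hc : ∀ r, HasDerivAt c (c1 r) r) (ha1 : ∀ r, HasDerivAt a1 (a2 r) r)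
    (hb1 : ∀ r, HasDerivAt b1 (b2 r) r) (hc1 : ∀ r, HasDerivAt c1 (c2 r) r)
    {δ : ℝ} {r : ℝ} (har : 0 < a r) (hD : 0 < a r * b r - c r ^ 2)
    (hp : PinchedAt δ (torusMetric a b c) ![r, 0, 0]) :
    PinchAt δ (a r) (b r) (c r) (a1 r) (b1 r) (c1 r) (a2 r) (b2 r) (c2 r) := by
  have hx : (![r, 0, 0] : Fin 3 → ℝ) 0 = r := rfl
  have hD' : a ((![r, 0, 0] : Fin 3 → ℝ) 0) * b ((![r, 0, 0] : Fin 3 → ℝ) 0)
      - c ((![r, 0, 0] : Fin 3 → ℝ) 0) ^ 2 ≠ 0 := by rw [hx]; exact hD.ne'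
  have hsr := sec_radial ha hb hc ha1 hb1 hc1 ![r, 0, 0] hD'
  have hst := sec_tangential ha hb hc ![r, 0, 0] hD'
  rw [hx] at hst
  simp only [hx] at hsr
  have hgq : ∀ x y : ℝ, (x ≠ 0 ∨ y ≠ 0) → 0 < gq (a r) (b r) (c r) x y := by
    intro x y hxy
    have e : a r * gq (a r) (b r) (c r) x y
        = (a r * x + c r * y) ^ 2 + (a r * b r - c r ^ 2) * y ^ 2 := by unfold gq; ring
    have : 0 < a r * gq (a r) (b r) (c r) x y := by
      rw [e]
      by_cases hy : y = 0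
      · have hx : x ≠ 0 := by
          rcases hxy with h | h
          · exact h
          · exact absurd hy h
        subst hy
        have : 0 < (a r * x) ^ 2 := by positivity
        simpa using this
      · have : 0 < (a r * b r - c r ^ 2) * y ^ 2 := by positivity
        have h2 := sq_nonneg (a r * x + c r * y)
        linarith
    exact (pos_iff_pos_of_mul_pos this).mp har
  refine ⟨?_, ?_, ?_, ?_⟩
  · intro x y hxy
    have h1 := (hp _ _ _ _ (indep_radial hxy) (indep_radial hxy)).1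
    rw [hsr] at h1
    have h2 := hgq x y hxy
    exact (div_pos_iff_of_pos_right h2).mp h1
  · have h1 := (hp _ _ _ _ indep_tangential indep_tangential).1
    rw [hst] at h1
    exact h1
  · intro x y hxy
    have h1 := (hp _ _ _ _ indep_tangential (indep_radial hxy)).2
    rw [hst, hsr] at h1
    exact h1.le
  · intro x y x' y' hxy hxy'
    have h1 := (hp _ _ _ _ (indep_radial hxy) (indep_radial hxy')).2
    rw [hsr, hsr] at h1
    exact h1.le

end

end Pool.Agent.QPinch
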