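import Pool.Agent.QPinch.Chain

open Set Filter Topology MeasureTheory

namespace Pool.Agent.QPinch

noncomputable section

variable {L : ℝ} {a b c a1 b1 c1 a2 b2 c2 : ℝ → ℝ}

/-- squared length of (x, y) -/
def gq (a b c x y : ℝ) : ℝ := a * x ^ 2 + 2 * c * x * y + b * y ^ 2

/-- pinching at one point of the interval -/
structure PinchAt (δ a b c a1 b1 c1 a2 b2 c2 : ℝ) : Prop where
  pos : ∀ x y : ℝ, (x ≠ 0 ∨ y ≠ 0) → 0 < rq a b c a1 b1 c1 a2 b2 c2 x y
  kpos : 0 < kk a b c a1 b1 c1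
  qk : ∀ x y : ℝ, (x ≠ 0 ∨ y ≠ 0) →
    δ * (rq a b c a1 b1 c1 a2 b2 c2 x y / gq a b c x y) ≤ kk a b c a1 b1 c1
  qq : ∀ x y x' y' : ℝ, (x ≠ 0 ∨ y ≠ 0) → (x' ≠ 0 ∨ y' ≠ 0) →
    δ * (rq a b c a1 b1 c1 a2 b2 c2 x' y' / gq a b c x' y')
      ≤ rq a b c a1 b1 c1 a2 b2 c2 x y / gq a b c x y

theorem rq_swap (a b c a1 b1 c1 a2 b2 c2 x y : ℝ) :
    rq b a c (-b1) (-a1) (-c1) b2 a2 c2 x y = rq a b c a1 b1 c1 a2 b2 c2 y x := by
  unfold rq r11 r12 r22
  have : b * a - c ^ 2 = a * b - c ^ 2 := by ring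
  rw [this]
  ring

theorem kk_swap (a b c a1 b1 c1 : ℝ) :
    kk b a c (-b1) (-a1) (-c1) = kk a b c a1 b1 c1 := by
  unfold kk
  have : b * a - c ^ 2 = a * b - c ^ 2 := by ring
  rw [this]
  ring

theorem gq_swap (a b c x y : ℝ) : gq b a c x y = gq a b c y x := by
  unfold gq; ring

theorem PinchAt.swap {δ a b c a1 b1 c1 a2 b2 c2 : ℝ} (h : PinchAt δ a b c a1 b1 c1 a2 b2 c2) :
    PinchAt δ b a c (-b1) (-a1) (-c1) b2 a2 c2 where
  pos x y hxy := by rw [rq_swap]; exact h.pos y x hxy.symm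
  kpos := by rw [kk_swap]; exact h.kpos
  qk x y hxy := by rw [rq_swap, kk_swap, gq_swap]; exact h.qk y x hxy.symm
  qq x y x' y' hxy hxy' := by
    rw [rq_swap, rq_swap, gq_swap a b c x y, gq_swap a b c x' y']
    exact h.qq y x y' x' hxy.symm hxy'.symm

theorem PinchAt.curv {δ : ℝ} (hδ : 0 < δ) (h : Side L a b c a1 b1 c1 a2 b2 c2)
    (hp : ∀ r ∈ Ioo 0 L, PinchAt δ (a r) (b r) (c r) (a1 r) (b1 r) (c1 r) (a2 r) (b2 r) (c2 r)) :
    Curv L δ (1 / (2 * δ)) a b c a1 b1 c1 a2 b2 c2 where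
  δ_pos := hδ
  Y_nonneg := by positivity
  uu_pos r hr := by
    have h1 := (hp r hr).pos 1 0 (Or.inl one_ne_zero)
    have ha := h.apos r hr
    have e : rq (a r) (b r) (c r) (a1 r) (b1 r) (c1 r) (a2 r) (b2 r) (c2 r) 1 0
        = r11 (a r) (b r) (c r) (a1 r) (c1 r) (a2 r) := by unfold rq; ring
    rw [e] at h1
    positivity
  nn_pos r hr := by
    have h1 := (hp r hr).pos (-(c r / a r)) 1 (Or.inr one_ne_zero)
    have ha := h.apos r hr
    have hD := h.Dpos r hr
    unfold nn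
    positivity
  kk_pos r hr := (hp r hr).kpos
  uu_le r hr := by
    have h1 := (hp r hr).qk 1 0 (Or.inl one_ne_zero)
    have e : rq (a r) (b r) (c r) (a1 r) (b1 r) (c1 r) (a2 r) (b2 r) (c2 r) 1 0
        = r11 (a r) (b r) (c r) (a1 r) (c1 r) (a2 r) := by unfold rq; ring
    have e2 : gq (a r) (b r) (c r) 1 0 = a r := by unfold gq; ring
    rw [e, e2] at h1
    rw [le_div_iff₀ hδ]
    linarith
  un_le r hr := by
    have ha := h.apos r hr
    have hD := h.Dpos r hr
    set A := r11 (a r) (b r) (c r) (a1 r) (c1 r) (a2 r) with hA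
    set B := r12 (a r) (b r) (c r) (a1 r) (b1 r) (c1 r) (c2 r) with hB
    set D := a r * b r - c r ^ 2 with hDd
    set q := √D with hq
    have hqpos : 0 < q := Real.sqrt_pos.mpr hD
    have hq2 : q ^ 2 = D := Real.sq_sqrt hD.le
    have key : ∀ ε : ℝ, (ε = 1 ∨ ε = -1) →
        0 < rq (a r) (b r) (c r) (a1 r) (b1 r) (c1 r) (a2 r) (b2 r) (c2 r) (q - ε * c r) (ε * a r)
          / (2 * a r * D) ∧
        rq (a r) (b r) (c r) (a1 r) (b1 r) (c1 r) (a2 r) (b2 r) (c2 r) (q - ε * c r) (ε * a r)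
          / (2 * a r * D) ≤
        nn (a r) (b r) (c r) (a1 r) (b1 r) (c1 r) (a2 r) (b2 r) (c2 r) / δ := by
      intro ε hε
      have hε2 : ε ^ 2 = 1 := by rcases hε with h | h <;> rw [h] <;> norm_num
      have hne : ε * a r ≠ 0 := by
        rcases hε with h | h <;> rw [h] <;> simpa using ha.ne'
      have h1 := (hp r hr).pos (q - ε * c r) (ε * a r) (Or.inr hne)
      have h2 := (hp r hr).qq (-(c r / a r)) 1 (q - ε * c r) (ε * a r) (Or.inr one_ne_zero)
        (Or.inr hne)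
      have e1 : gq (a r) (b r) (c r) (q - ε * c r) (ε * a r) = 2 * a r * D := by
        unfold gq
        have : a r * (q - ε * c r) ^ 2 + 2 * c r * (q - ε * c r) * (ε * a r) + b r * (ε * a r) ^ 2
            = a r * q ^ 2 + ε ^ 2 * (a r * (a r * b r - c r ^ 2)) := by ring
        rw [this, hε2, hq2, ← hDd]
        ring
      have e2 : gq (a r) (b r) (c r) (-(c r / a r)) 1 = D / a r := by
        unfold gq
        rw [hDd]
        field_simp
        ring
      rw [e1, e2] at h2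
      refine ⟨by positivity, ?_⟩
      rw [le_div_iff₀ hδ]
      have e3 : nn (a r) (b r) (c r) (a1 r) (b1 r) (c1 r) (a2 r) (b2 r) (c2 r)
          = rq (a r) (b r) (c r) (a1 r) (b1 r) (c1 r) (a2 r) (b2 r) (c2 r) (-(c r / a r)) 1
            / (D / a r) := by
        unfold nn
        rw [← hDd]
        field_simp
      rw [e3]
      linarith
    obtain ⟨k1, k2⟩ := key 1 (Or.inl rfl)
    obtain ⟨k3, k4⟩ := key (-1) (Or.inr rfl)
    have hdiff : rq (a r) (b r) (c r) (a1 r) (b1 r) (c1 r) (a2 r) (b2 r) (c2 r)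
          (q - 1 * c r) (1 * a r) / (2 * a r * D)
        - rq (a r) (b r) (c r) (a1 r) (b1 r) (c1 r) (a2 r) (b2 r) (c2 r)
          (q - (-1) * c r) ((-1) * a r) / (2 * a r * D)
        = 2 * un (a r) (b r) (c r) (a1 r) (b1 r) (c1 r) (a2 r) (c2 r) := by
      unfold un rq
      rw [← hA, ← hB, ← hDd, ← hq, ← hq2]
      have hq' := hqpos.ne'
      have ha' := ha.ne'
      field_simp
      ring
    have hfin : nn (a r) (b r) (c r) (a1 r) (b1 r) (c1 r) (a2 r) (b2 r) (c2 r) / δ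
        = 2 * (1 / (2 * δ) * nn (a r) (b r) (c r) (a1 r) (b1 r) (c1 r) (a2 r) (b2 r) (c2 r)) := by
      field_simp
    rw [abs_le]
    constructor <;> linarith

theorem refl_mem {L r : ℝ} (hr : r ∈ Ioo 0 L) : L - r ∈ Ioo 0 L :=
  ⟨by linarith [hr.2], by linarith [hr.1]⟩

/-- existence of a point where the area is critical -/
theorem exists_crit (h : Side L a b c a1 b1 c1 a2 b2 c2) (hbL : b L = 0) (hcL : c L = 0) :
    ∃ r ∈ Ioo 0 L, a1 r * b r + a r * b1 r - 2 * c r * c1 r = 0 := by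
  obtain ⟨r, hr, he⟩ := exists_hasDerivAt_eq_zero (f := fun r => a r * b r - c r ^ 2)
    (f' := fun r => a1 r * b r + a r * b1 r - 2 * c r * c1 r) h.L_pos
    (fun r _ => (h.hD r).continuousAt.continuousWithinAt)
    (by simp [h.a0, h.c0, hbL, hcL]) (fun r _ => h.hD r)
  exact ⟨r, hr, he⟩

/-- the trace is positive before its zero -/
theorem trace_nonneg (h : Side L a b c a1 b1 c1 a2 b2 c2)
    {δ Y : ℝ} (hc : Curv L δ Y a b c a1 b1 c1 a2 b2 c2) {r : ℝ} (hr : r ∈ Ioo 0 L)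
    (he : mf a a1 r = pf a b c a1 b1 c1 r) :
    ∀ ρ ∈ Ioc 0 r, pf a b c a1 b1 c1 ρ ≤ mf a a1 ρ := by
  have hanti : AntitoneOn (fun ρ => mf a a1 ρ - pf a b c a1 b1 c1 ρ) (Ioo 0 L) := by
    refine antitoneOn_of_deriv_nonpos (convex_Ioo _ _)
      (fun ρ hρ => ((h.hm hρ).sub (h.hp hρ)).continuousAt.continuousWithinAt) ?_ ?_
    · intro ρ hρ
      rw [interior_Ioo] at hρ
      exact ((h.hm hρ).sub (h.hp hρ)).differentiableAt.differentiableWithinAt
    · intro ρ hρ
      rw [interior_Ioo] at hρ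
      have e : deriv (fun ρ => mf a a1 ρ - pf a b c a1 b1 c1 ρ) ρ = _ :=
        ((h.hm hρ).sub (h.hp hρ)).deriv
      rw [e]
      have h1 := hc.uu_pos ρ hρ
      have h2 := hc.nn_pos ρ hρ
      nlinarith [sq_nonneg (mf a a1 ρ), sq_nonneg (pf a b c a1 b1 c1 ρ), sq_nonneg (sf a b c a1 c1 ρ)]
  intro ρ hρ
  have := hanti (mem_of_Ioc hr hρ) hr hρ.2
  simp only at this
  linarith

/-- area is concave -/
theorem area_concave (h : Side L a b c a1 b1 c1 a2 b2 c2)
    {δ Y : ℝ} (hc : Curv L δ Y a b c a1 b1 c1 a2 b2 c2) :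
    ConcaveOn ℝ (Icc 0 L) (fun r => √(a r * b r - c r ^ 2)) := by
  have hd : ∀ r ∈ Ioo 0 L, HasDerivAt (fun r => √(a r * b r - c r ^ 2))
      ((mf a a1 r - pf a b c a1 b1 c1 r) * √(a r * b r - c r ^ 2)) r := by
    intro r hr
    refine (h.hsqrtD hr).congr_deriv ?_
    rw [h.trace_eq hr]
    have hD := h.Dpos r hr
    have hq := Real.sqrt_pos.mpr hD
    have hq2 : √(a r * b r - c r ^ 2) ^ 2 = a r * b r - c r ^ 2 := Real.sq_sqrt hD.le
    rw [show (a1 r * b r + a r * b1 r - 2 * c r * c1 r) / (2 * (a r * b r - c r ^ 2))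
      * √(a r * b r - c r ^ 2) = (a1 r * b r + a r * b1 r - 2 * c r * c1 r) /
      (2 * √(a r * b r - c r ^ 2) ^ 2) * √(a r * b r - c r ^ 2) by rw [hq2]]
    have hq' := hq.ne'
    field_simp
  have hcont : ContinuousOn (fun r => √(a r * b r - c r ^ 2)) (Icc 0 L) := by
    intro r _
    exact ((h.hD r).continuousAt.sqrt).continuousWithinAt
  refine AntitoneOn.concaveOn_of_deriv (convex_Icc _ _) hcont ?_ ?_
  · rw [interior_Icc]
    intro r hr
    exact (hd r hr).differentiableAt.differentiableWithinAt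
  · rw [interior_Icc]
    have hd2 : ∀ r ∈ Ioo 0 L, HasDerivAt
        (fun r => (mf a a1 r - pf a b c a1 b1 c1 r) * √(a r * b r - c r ^ 2))
        (((-(mf a a1 r) ^ 2 + sf a b c a1 c1 r ^ 2
      - r11 (a r) (b r) (c r) (a1 r) (c1 r) (a2 r) / a r) - (pf a b c a1 b1 c1 r ^ 2
        + 3 * sf a b c a1 c1 r ^ 2
      + nn (a r) (b r) (c r) (a1 r) (b1 r) (c1 r) (a2 r) (b2 r) (c2 r)))
        * √(a r * b r - c r ^ 2) + (mf a a1 r - pf a b c a1 b1 c1 r) *
        ((mf a a1 r - pf a b c a1 b1 c1 r) * √(a r * b r - c r ^ 2))) r :=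
      fun r hr => ((h.hm hr).sub (h.hp hr)).mul (hd r hr)
    have hA : AntitoneOn (fun r => (mf a a1 r - pf a b c a1 b1 c1 r) * √(a r * b r - c r ^ 2))
        (Ioo 0 L) := by
      refine antitoneOn_of_deriv_nonpos (convex_Ioo _ _)
        (fun r hr => (hd2 r hr).continuousAt.continuousWithinAt) ?_ ?_
      · intro r hr
        rw [interior_Ioo] at hr
        exact (hd2 r hr).differentiableAt.differentiableWithinAt
      · intro r hr
        rw [interior_Ioo] at hr
        rw [(hd2 r hr).deriv]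
        have h1 := hc.uu_pos r hr
        have h2 := hc.nn_pos r hr
        have h3 := hc.kk_pos r hr
        rw [h.hk hr] at h3
        have hq := Real.sqrt_nonneg (a r * b r - c r ^ 2)
        have e : ((-(mf a a1 r) ^ 2 + sf a b c a1 c1 r ^ 2
      - r11 (a r) (b r) (c r) (a1 r) (c1 r) (a2 r) / a r) - (pf a b c a1 b1 c1 r ^ 2
        + 3 * sf a b c a1 c1 r ^ 2
      + nn (a r) (b r) (c r) (a1 r) (b1 r) (c1 r) (a2 r) (b2 r) (c2 r)))
        * √(a r * b r - c r ^ 2) + (mf a a1 r - pf a b c a1 b1 c1 r) *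
        ((mf a a1 r - pf a b c a1 b1 c1 r) * √(a r * b r - c r ^ 2))
          = -((2 * (sf a b c a1 c1 r ^ 2 + mf a a1 r * pf a b c a1 b1 c1 r)
            + r11 (a r) (b r) (c r) (a1 r) (c1 r) (a2 r) / a r
            + nn (a r) (b r) (c r) (a1 r) (b1 r) (c1 r) (a2 r) (b2 r) (c2 r))
            * √(a r * b r - c r ^ 2)) := by ring
        rw [e]
        have : 0 ≤ (2 * (sf a b c a1 c1 r ^ 2 + mf a a1 r * pf a b c a1 b1 c1 r)
            + r11 (a r) (b r) (c r) (a1 r) (c1 r) (a2 r) / a r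
            + nn (a r) (b r) (c r) (a1 r) (b1 r) (c1 r) (a2 r) (b2 r) (c2 r))
            * √(a r * b r - c r ^ 2) := by positivity
        linarith
    refine hA.congr ?_
    intro r hr
    exact ((hd r hr).deriv).symm

/-- integral bound for concave functions -/
theorem concave_integral {φ : ℝ → ℝ} {L r : ℝ} (hφ : ConcaveOn ℝ (Icc 0 L) φ)
    (hcont : ContinuousOn φ (Icc 0 L)) (hr : r ∈ Ioo 0 L) (hnn : ∀ x ∈ Icc 0 L, 0 ≤ φ x) :
    φ r * (L / 4) ≤ ∫ x in (0:ℝ)..L, φ x := by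
  have hL : 0 < L := hr.1.trans hr.2
  have hint : IntervalIntegrable φ volume 0 L := by
    apply ContinuousOn.intervalIntegrable
    rwa [uIcc_of_le hL.le]
  have hhalf : ∀ x ∈ Icc (r / 2) ((r + L) / 2), φ r / 2 ≤ φ x := by
    intro x hx
    have h0 : (0:ℝ) ∈ Icc 0 L := ⟨le_rfl, hL.le⟩
    have hLm : L ∈ Icc 0 L := ⟨hL.le, le_rfl⟩
    have hrm : r ∈ Icc 0 L := ⟨hr.1.le, hr.2.le⟩
    have hφr := hnn r hrm
    rcases le_total x r with hxr | hxr
    · have hr0 := hr.1
      have hb : x / r ≤ 1 := by rw [div_le_one hr0]; exact hxr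
      have hb2 : 1 / 2 ≤ x / r := by rw [le_div_iff₀ hr0]; linarith [hx.1]
      have hw1 : 0 ≤ 1 - x / r := by linarith
      have hw2 : 0 ≤ x / r := by linarith
      have hw3 : 1 - x / r + x / r = 1 := by ring
      have hcv := hφ.2 h0 hrm hw1 hw2 hw3
      simp only [smul_eq_mul, mul_zero, zero_add] at hcv
      rw [div_mul_cancel₀ _ hr0.ne'] at hcv
      have := hnn 0 h0
      nlinarith
    · have hLr : 0 < L - r := by linarith [hr.2]
      have hb : (L - x) / (L - r) ≤ 1 := by rw [div_le_one hLr]; linarith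
      have hb2 : 1 / 2 ≤ (L - x) / (L - r) := by rw [le_div_iff₀ hLr]; linarith [hx.2]
      have hw1 : 0 ≤ 1 - (L - x) / (L - r) := by linarith
      have hw2 : 0 ≤ (L - x) / (L - r) := by linarith
      have hw3 : 1 - (L - x) / (L - r) + (L - x) / (L - r) = 1 := by ring
      have hcv := hφ.2 hLm hrm hw1 hw2 hw3
      have ex : (1 - (L - x) / (L - r)) • L + ((L - x) / (L - r)) • r = x := by
        simp only [smul_eq_mul]
        field_simp
        ring
      rw [ex] at hcv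
      simp only [smul_eq_mul] at hcv
      have := hnn L hLm
      nlinarith
  have h1 : IntervalIntegrable φ volume 0 (r / 2) := hint.mono_set (by
    rw [uIcc_of_le (by linarith [hr.1]), uIcc_of_le hL.le]
    exact Icc_subset_Icc_right (by linarith [hr.2]))
  have h2 : IntervalIntegrable φ volume (r / 2) ((r + L) / 2) := hint.mono_set (by
    rw [uIcc_of_le (by linarith [hr.1]), uIcc_of_le hL.le]
    exact Icc_subset_Icc (by linarith [hr.1]) (by linarith [hr.2]))
  have h3 : IntervalIntegrable φ volume ((r + L) / 2) L := hint.mono_set (by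
    rw [uIcc_of_le (by linarith [hr.2]), uIcc_of_le hL.le]
    exact Icc_subset_Icc_left (by linarith [hr.1]))
  rw [← intervalIntegral.integral_add_adjacent_intervals (h1.trans h2) h3,
    ← intervalIntegral.integral_add_adjacent_intervals h1 h2]
  have i1 : 0 ≤ ∫ x in (0:ℝ)..(r / 2), φ x :=
    intervalIntegral.integral_nonneg (by linarith [hr.1])
      (fun x hx => hnn x ⟨hx.1, by linarith [hx.2, hr.1, hr.2]⟩)
  have i3 : 0 ≤ ∫ x in ((r + L) / 2)..L, φ x :=
    intervalIntegral.integral_nonneg (by linarith [hr.2])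
      (fun x hx => hnn x ⟨by linarith [hx.1, hr.1], hx.2⟩)
  have i2 : ∫ x in (r / 2)..((r + L) / 2), φ r / 2 ≤ ∫ x in (r / 2)..((r + L) / 2), φ x :=
    intervalIntegral.integral_mono_on (by linarith [hr.1]) (by simp) h2 hhalf
  rw [intervalIntegral.integral_const, smul_eq_mul] at i2
  have : ((r + L) / 2 - r / 2) * (φ r / 2) = φ r * (L / 4) := by ring
  linarith

/-- the length of the second Killing field at the left end is at most the width -/
theorem b0_le (h : Side L a b c a1 b1 c1 a2 b2 c2)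
    {δ Y : ℝ} (hc : Curv L δ Y a b c a1 b1 c1 a2 b2 c2)
    (h' : Side L (fun r => b (L - r)) (fun r => a (L - r)) (fun r => c (L - r))
      (fun r => -b1 (L - r)) (fun r => -a1 (L - r)) (fun r => -c1 (L - r))
      (fun r => b2 (L - r)) (fun r => a2 (L - r)) (fun r => c2 (L - r))) :
    √(b 0) ≤ L := by
  have hL := h.L_pos
  have haL : 0 < a L := by simpa using h'.b0
  have h1 := h'.lim_sqrtD
  simp only [sub_zero] at h1
  have h2 : Tendsto (fun r => √(a (L - r))) (𝓝[>] 0) (𝓝 (√(a L))) := by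
    have := (Real.continuous_sqrt.tendsto _).comp (lim_cont (h'.hb 0))
    simp only [sub_zero] at this
    exact this
  have h3 := h1.div h2 (Real.sqrt_pos.mpr haL).ne'
  rw [div_self (Real.sqrt_pos.mpr haL).ne'] at h3
  have h4 : √(b 0) / L ≤ 1 := by
    refine ge_of_tendsto h3 ?_
    have hev : ∀ᶠ r in 𝓝[>] (0:ℝ), r ∈ Ioo 0 L := Ioo_mem_nhdsGT hL
    filter_upwards [hev] with r hr
    have hk := nu_ge h hc (refl_mem hr)
    have hr0 := hr.1
    rw [sub_sub_cancel] at hk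
    simp only [Pi.div_apply]
    have e : √(b (L - r) * a (L - r) - c (L - r) ^ 2) / r / √(a (L - r))
        = nu a b c (L - r) / r := by
      unfold nu
      rw [mul_comm (b (L - r))]
      rw [div_right_comm]
    rw [e, le_div_iff₀ hr0]
    have : √(b 0) / L * r = √(b 0) * r / L := by ring
    rw [this]
    exact hk
  rw [div_le_one hL] at h4
  exact h4

/-- the analytic heart: area integral and end length are controlled by the width -/
theorem analytic {δ : ℝ} (hδ : 0 < δ) (h : Side L a b c a1 b1 c1 a2 b2 c2)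
    (h' : Side L (fun r => b (L - r)) (fun r => a (L - r)) (fun r => c (L - r))
      (fun r => -b1 (L - r)) (fun r => -a1 (L - r)) (fun r => -c1 (L - r))
      (fun r => b2 (L - r)) (fun r => a2 (L - r)) (fun r => c2 (L - r)))
    (hp : ∀ r ∈ Ioo 0 L, PinchAt δ (a r) (b r) (c r) (a1 r) (b1 r) (c1 r) (a2 r) (b2 r) (c2 r))
    {N : ℕ} (hN : ((1 / (2 * δ)) ^ 2 + 1) / δ ≤ N) :
    √(b 0) ≤ L ∧ ((1 / 2) ^ N * (L / 2)) ^ 2 / (3 + 4 * (1 / (2 * δ)) ^ 2) * (L / 4)
      ≤ ∫ r in (0:ℝ)..L, √(a r * b r - c r ^ 2) := by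
  have hc := PinchAt.curv hδ h hp
  have hc' := PinchAt.curv hδ h' (fun r hr => (hp (L - r) (refl_mem hr)).swap)
  have hL := h.L_pos
  have hbL : b L = 0 := by simpa using h'.a0
  have hcL : c L = 0 := by simpa using h'.c0
  refine ⟨b0_le h hc h', ?_⟩
  obtain ⟨r, hr, he⟩ := exists_crit h hbL hcL
  have hr' := refl_mem hr
  have hcrit : mf a a1 r = pf a b c a1 b1 c1 r := by
    have := h.trace_eq hr
    rw [he, zero_div] at this
    linarith
  have hcrit' : mf (fun r => b (L - r)) (fun r => -b1 (L - r)) (L - r)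
      = pf (fun r => b (L - r)) (fun r => a (L - r)) (fun r => c (L - r))
      (fun r => -b1 (L - r)) (fun r => -a1 (L - r)) (fun r => -c1 (L - r)) (L - r) := by
    have := h'.trace_eq hr'
    simp only [sub_sub_cancel] at this
    have e : -b1 r * a r + b r * -a1 r - 2 * c r * -c1 r
        = -(a1 r * b r + a r * b1 r - 2 * c r * c1 r) := by ring
    rw [e, he, neg_zero, zero_div] at this
    linarith
  have hm := trace_nonneg h hc hr hcrit
  have hm' := trace_nonneg h' hc' hr' hcrit'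
  have k1 := f_ge h hc hr hm hcrit hN
  have k2 := f_ge h' hc' hr' hm' hcrit' hN
  simp only [sub_sub_cancel] at k2
  have hb1 : b1 r ≤ 0 := by
    have q1 := p_nonneg h' hc' hr'
    rw [← hcrit'] at q1
    unfold mf at q1
    simp only [sub_sub_cancel] at q1
    have q2 : 0 < b r := by
      have := h'.apos (L - r) hr'
      simpa using this
    by_contra hcon
    push Not at hcon
    have : -b1 r / (2 * b r) < 0 := div_neg_of_neg_of_pos (by linarith) (by linarith)
    linarith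
  have k3 := area_ge h hc hr hm hcrit hb1
  have ha := h.apos r hr
  have hb : 0 < b r := by
    have := h'.apos (L - r) hr'
    simpa using this
  have hD := h.Dpos r hr
  set κ := (1 / 2 : ℝ) ^ N * (L / 2) with hκ
  have hκpos : 0 < κ := by positivity
  set Z := 3 + 4 * (1 / (2 * δ)) ^ 2 with hZ
  have hZ1 : 1 ≤ Z := by
    have : 0 ≤ 4 * (1 / (2 * δ)) ^ 2 := by positivity
    linarith
  have a2' : κ ^ 2 ≤ a r := by
    calc κ ^ 2 ≤ √(a r) ^ 2 := pow_le_pow_left₀ hκpos.le k1 2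
      _ = a r := Real.sq_sqrt ha.le
  have b2' : κ ^ 2 ≤ b r := by
    calc κ ^ 2 ≤ √(b r) ^ 2 := pow_le_pow_left₀ hκpos.le k2 2
      _ = b r := Real.sq_sqrt hb.le
  have hab : κ ^ 2 * κ ^ 2 ≤ a r * b r := mul_le_mul a2' b2' (by positivity) ha.le
  have hv : κ ^ 2 / Z ≤ √(a r * b r - c r ^ 2) := by
    apply Real.le_sqrt_of_sq_le
    rw [div_pow, div_le_iff₀ (by positivity)]
    calc (κ ^ 2) ^ 2 = κ ^ 2 * κ ^ 2 := by ring
      _ ≤ a r * b r := hab
      _ ≤ Z * (a r * b r - c r ^ 2) := k3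
      _ ≤ (a r * b r - c r ^ 2) * Z ^ 2 := by nlinarith
  have hcv := area_concave h hc
  have hcont : ContinuousOn (fun r => √(a r * b r - c r ^ 2)) (Icc 0 L) := by
    intro r _
    exact ((h.hD r).continuousAt.sqrt).continuousWithinAt
  have hI := concave_integral hcv hcont hr (fun x _ => Real.sqrt_nonneg _)
  refine le_trans ?_ hI
  exact mul_le_mul_of_nonneg_right hv (by linarith)

end

end Pool.Agent.QPinch
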