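import Mathlib

open Set Filter Topology

namespace Pool.Agent.QPinch

noncomputable section

/-- One-sided bound. The function f starts at 0 with slope 1, h is positive, both are concave and
the mixed curvature dominates -/
theorem warp_side {L δ : ℝ} {f h f1 h1 f2 h2 : ℝ → ℝ} (hL : 0 < L) (hδ : 0 < δ)
    (hf : ∀ r, HasDerivAt f (f1 r) r) (hf1 : ∀ r, HasDerivAt f1 (f2 r) r)
    (hh : ∀ r, HasDerivAt h (h1 r) r) (hh1 : ∀ r, HasDerivAt h1 (h2 r) r)
    (f0 : f 0 = 0) (f10 : f1 0 = 1) (f1L : f1 L = 0) (h10 : h1 0 = 0) (hhL : h L = 0)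
    (hpos : ∀ r ∈ Ico 0 L, 0 < h r)
    (hfpos : ∀ r ∈ Ioc 0 L, 0 < f r)
    (c1 : ∀ r ∈ Ioo 0 L, 0 < -f2 r / f r) (c2 : ∀ r ∈ Ioo 0 L, 0 < -h2 r / h r)
    (c3 : ∀ r ∈ Ioo 0 L, δ * (-f2 r / f r) ≤ -(f1 r * h1 r) / (f r * h r))
    {N : ℕ} (hN : 1 / δ ≤ N) {r : ℝ} (hr : r ∈ Icc (L / 4) L) :
    (3 / 4) ^ N * (L / 4) ≤ f r := by
  have f2neg : ∀ r ∈ Ioo 0 L, f2 r < 0 := by
    intro r hr
    have h := c1 r hr
    have hfp := hfpos r ⟨hr.1, hr.2.le⟩
    have := (div_pos_iff_of_pos_right hfp).mp h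
    linarith
  have h2neg : ∀ r ∈ Ioo 0 L, h2 r < 0 := by
    intro r hr
    have h := c2 r hr
    have hfp := hpos r ⟨hr.1.le, hr.2⟩
    have := (div_pos_iff_of_pos_right hfp).mp h
    linarith
  have f1anti : StrictAntiOn f1 (Icc 0 L) := by
    apply strictAntiOn_of_deriv_neg (convex_Icc _ _)
      (fun r _ => (hf1 r).continuousAt.continuousWithinAt)
    intro r hr
    rw [interior_Icc] at hr
    rw [(hf1 r).deriv]
    exact f2neg r hr
  have h1anti : StrictAntiOn h1 (Icc 0 L) := by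
    apply strictAntiOn_of_deriv_neg (convex_Icc _ _)
      (fun r _ => (hh1 r).continuousAt.continuousWithinAt)
    intro r hr
    rw [interior_Icc] at hr
    rw [(hh1 r).deriv]
    exact h2neg r hr
  have f1pos : ∀ r ∈ Ico 0 L, 0 < f1 r := by
    intro r hr
    have := f1anti ⟨hr.1, hr.2.le⟩ (right_mem_Icc.mpr hL.le) hr.2
    linarith
  have h1neg : ∀ r ∈ Ioc 0 L, h1 r < 0 := by
    intro r hr
    have := h1anti (left_mem_Icc.mpr hL.le) ⟨hr.1.le, hr.2⟩ hr.1
    linarith
  have hconc : ConcaveOn ℝ (Icc 0 L) h := by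
    refine AntitoneOn.concaveOn_of_deriv (convex_Icc _ _)
      (fun r _ => (hh r).continuousAt.continuousWithinAt)
      (fun r _ => (hh r).differentiableAt.differentiableWithinAt) ?_
    rw [interior_Icc]
    intro x hx y hy hxy
    rw [(hh x).deriv, (hh y).deriv]
    exact h1anti.antitoneOn (Ioo_subset_Icc_self hx) (Ioo_subset_Icc_self hy) hxy
  have hge : ∀ r ∈ Icc 0 L, h 0 * ((L - r) / L) ≤ h r := by
    intro r hr
    have hw1 : 0 ≤ (L - r) / L := div_nonneg (by linarith [hr.2]) hL.le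
    have hw2 : 0 ≤ r / L := div_nonneg hr.1 hL.le
    have hw3 : (L - r) / L + r / L = 1 := by field_simp; ring
    have := hconc.2 (left_mem_Icc.mpr hL.le) (right_mem_Icc.mpr hL.le) hw1 hw2 hw3
    simp only [smul_eq_mul, mul_zero, zero_add] at this
    rw [div_mul_cancel₀ _ hL.ne', hhL] at this
    linarith
  have h0pos := hpos 0 ⟨le_rfl, hL⟩
  -- the quotient f1 / h ^ N is monotone
  have hmono : MonotoneOn (fun r => f1 r / h r ^ N) (Ico 0 L) := by
    have hd : ∀ r ∈ Ico 0 L, HasDerivAt (fun r => f1 r / h r ^ N)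
        ((f2 r * h r ^ N - f1 r * (N * h r ^ (N - 1) * h1 r)) / (h r ^ N) ^ 2) r := by
      intro r hr
      have := hpos r hr
      exact (hf1 r).div ((hh r).pow N) (by positivity)
    refine monotoneOn_of_deriv_nonneg (convex_Ico _ _)
      (fun r hr => (hd r hr).continuousAt.continuousWithinAt) ?_ ?_
    · intro r hr
      rw [interior_Ico] at hr
      exact (hd r ⟨hr.1.le, hr.2⟩).differentiableAt.differentiableWithinAt
    · intro r hr
      rw [interior_Ico] at hr
      rw [(hd r ⟨hr.1.le, hr.2⟩).deriv]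
      have hhr := hpos r ⟨hr.1.le, hr.2⟩
      have hfr := hfpos r ⟨hr.1, hr.2.le⟩
      have k1 := c3 r hr
      have k2 := f1pos r ⟨hr.1.le, hr.2⟩
      have k3 := h1neg r ⟨hr.1, hr.2.le⟩
      apply div_nonneg _ (sq_nonneg _)
      have k4 : δ * (-f2 r) * h r ≤ -(f1 r * h1 r) := by
        rw [← mul_div_assoc, div_le_div_iff₀ hfr (by positivity)] at k1
        have : δ * (-f2 r) * h r * f r ≤ -(f1 r * h1 r) * f r := by linarith
        exact le_of_mul_le_mul_right this hfr
      have k5 : (-f2 r) * h r ≤ (N : ℝ) * (-(f1 r * h1 r)) := by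
        have e : 0 ≤ -(f1 r * h1 r) := by nlinarith
        calc (-f2 r) * h r = (1 / δ) * (δ * (-f2 r) * h r) := by field_simp
          _ ≤ (1 / δ) * (-(f1 r * h1 r)) := mul_le_mul_of_nonneg_left k4 (by positivity)
          _ ≤ N * (-(f1 r * h1 r)) := mul_le_mul_of_nonneg_right hN e
      rcases Nat.eq_zero_or_pos N with h0 | h0
      · exfalso
        rw [h0] at hN
        have : 0 < 1 / δ := by positivity
        simp at hN
        linarith
      · have e : h r ^ N = h r ^ (N - 1) * h r := (pow_sub_one_mul h0.ne' _).symm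
        rw [e]
        have : f2 r * (h r ^ (N - 1) * h r) - f1 r * (N * h r ^ (N - 1) * h1 r)
            = h r ^ (N - 1) * (N * (-(f1 r * h1 r)) - (-f2 r) * h r) := by ring
        rw [this]
        have : 0 < h r ^ (N - 1) := by positivity
        nlinarith
  have f1ge : ∀ r ∈ Ico 0 L, ((L - r) / L) ^ N ≤ f1 r := by
    intro r hr
    have k := hmono ⟨le_rfl, hL⟩ hr hr.1
    simp only [f10] at k
    have hhr := hpos r hr
    rw [div_le_div_iff₀ (by positivity) (by positivity), one_mul] at k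
    have k2 := hge r ⟨hr.1, hr.2.le⟩
    have k3 : (h 0 * ((L - r) / L)) ^ N ≤ h r ^ N := by
      apply pow_le_pow_left₀ _ k2
      have : 0 ≤ L - r := by linarith [hr.2]
      positivity
    rw [mul_pow] at k3
    have k4 : h 0 ^ N * ((L - r) / L) ^ N ≤ h 0 ^ N * f1 r := by linarith
    exact le_of_mul_le_mul_left k4 (by positivity)
  -- first on [0, L/4]
  have hstep : MonotoneOn (fun r => f r - (3 / 4) ^ N * r) (Icc 0 (L / 4)) := by
    have hd : ∀ r, HasDerivAt (fun r => f r - (3 / 4) ^ N * r) (f1 r - (3 / 4) ^ N * 1) r :=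
      fun r => (hf r).sub ((hasDerivAt_id r).const_mul _)
    refine monotoneOn_of_deriv_nonneg (convex_Icc _ _)
      (fun r hr => (hd r).continuousAt.continuousWithinAt)
      (fun r hr => (hd r).differentiableAt.differentiableWithinAt) ?_
    intro r hr
    rw [interior_Icc] at hr
    rw [(hd r).deriv]
    have k := f1ge r ⟨hr.1.le, by linarith [hr.2]⟩
    have k2 : (3 / 4 : ℝ) ^ N ≤ ((L - r) / L) ^ N := by
      apply pow_le_pow_left₀ (by norm_num)
      rw [le_div_iff₀ hL]
      linarith [hr.2]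
    linarith
  have hq := hstep (left_mem_Icc.mpr (by linarith)) (right_mem_Icc.mpr (by linarith))
    (by linarith : (0:ℝ) ≤ L / 4)
  simp only [f0, mul_zero, sub_zero] at hq
  have fmono : MonotoneOn f (Icc 0 L) := by
    refine monotoneOn_of_deriv_nonneg (convex_Icc _ _)
      (fun r _ => (hf r).continuousAt.continuousWithinAt)
      (fun r _ => (hf r).differentiableAt.differentiableWithinAt) ?_
    intro r hr
    rw [interior_Icc] at hr
    rw [(hf r).deriv]
    exact (f1pos r ⟨hr.1.le, hr.2⟩).le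
  have := fmono ⟨by linarith, by linarith⟩ ⟨by linarith [hr.1], hr.2⟩ hr.1
  linarith

/-- five-leg path functions -/
def lg (k : ℝ) (t : ℝ) : ℝ := min 1 (max 0 (5 * t - k))

theorem lip_lg (k : ℝ) : LipschitzWith 5 (lg k) := by
  have h : LipschitzWith 5 (fun t : ℝ => 5 * t - k) := by
    apply LipschitzWith.of_dist_le_mul
    intro x y
    simp only [Real.dist_eq]
    rw [show 5 * x - k - (5 * y - k) = 5 * (x - y) by ring, abs_mul]
    norm_num
  exact (h.const_max 0).const_min 1

theorem lg_nonneg (k t : ℝ) : 0 ≤ lg k t := le_min zero_le_one (le_max_left _ _)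
theorem lg_le (k t : ℝ) : lg k t ≤ 1 := min_le_left _ _

theorem lg_left {k t : ℝ} (h : 5 * t ≤ k) : lg k t = 0 := by
  unfold lg; rw [max_eq_left (by linarith)]; norm_num
theorem lg_mid {k t : ℝ} (h : k ≤ 5 * t) (h' : 5 * t ≤ k + 1) : lg k t = 5 * t - k := by
  unfold lg; rw [max_eq_right (by linarith), min_eq_right (by linarith)]
theorem lg_right {k t : ℝ} (h : k + 1 ≤ 5 * t) : lg k t = 1 := by
  unfold lg; rw [max_eq_right (by linarith), min_eq_left (by linarith)]

end

end Pool.Agent.QPinch
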