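import Pool.Agent.QPinch.WarpCurv
import Pool.Agent.QPinch.WarpAnalysis
import Pool.Agent.QPinch.Curve

open Set Filter Topology MeasureTheory

namespace Pool.Agent.QPinch

noncomputable section

theorem ip_dg {n : ℕ} (e : (Fin n → ℝ) → Fin n → ℝ) (x u : Fin n → ℝ) :
    ip (dg e) x u u = ∑ i, e x i * u i ^ 2 := by
  unfold ip
  apply Finset.sum_congr rfl
  intro i _
  rw [Finset.sum_eq_single i]
  · rw [dg_eq]; ring
  · intro j _ hj
    rw [dg_ne (Ne.symm hj)]; ring
  · intro h; exact absurd (Finset.mem_univ _) h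

/-- five-leg path -/
def path5 {n : ℕ} (x : Fin n → ℝ) (D : Fin 5 → Fin n → ℝ) (t : ℝ) : Fin n → ℝ :=
  x + ∑ k : Fin 5, lg k t • D k

theorem path5_lip {n : ℕ} (x : Fin n → ℝ) (D : Fin 5 → Fin n → ℝ) :
    ∃ K, LipschitzWith K (path5 x D) := by
  refine ⟨Real.toNNReal (∑ k, 5 * ‖D k‖), ?_⟩
  apply LipschitzWith.of_dist_le_mul
  intro s t
  rw [Real.coe_toNNReal _ (Finset.sum_nonneg fun k _ => by positivity), dist_eq_norm,
    dist_eq_norm]
  have e : path5 x D s - path5 x D t = ∑ k : Fin 5, (lg k s - lg k t) • D k := by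
    unfold path5
    simp only [sub_smul, Finset.sum_sub_distrib]
    abel
  rw [e, Finset.sum_mul]
  refine (norm_sum_le _ _).trans (Finset.sum_le_sum fun k _ => ?_)
  rw [norm_smul]
  have h : ‖lg k s - lg k t‖ ≤ 5 * ‖s - t‖ := by
    have := (lip_lg k).dist_le_mul s t
    simpa [dist_eq_norm] using this
  calc ‖lg k s - lg k t‖ * ‖D k‖ ≤ (5 * ‖s - t‖) * ‖D k‖ :=
        mul_le_mul_of_nonneg_right h (norm_nonneg _)
    _ = 5 * ‖D k‖ * ‖s - t‖ := by ring

theorem path5_zero {n : ℕ} (x : Fin n → ℝ) (D : Fin 5 → Fin n → ℝ) : path5 x D 0 = x := by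
  unfold path5
  have : ∀ k : Fin 5, lg k 0 = 0 := fun k => lg_left (by simp)
  simp [this]

theorem path5_one {n : ℕ} (x : Fin n → ℝ) (D : Fin 5 → Fin n → ℝ) :
    path5 x D 1 = x + ∑ k, D k := by
  unfold path5
  have : ∀ k : Fin 5, lg k 1 = 1 := fun k => lg_right (by
    have : ((k : ℕ) : ℝ) ≤ 4 := by exact_mod_cast (by omega : (k : ℕ) ≤ 4)
    linarith)
  simp [this]

/-- position and derivative on the open leg with index m -/
theorem path5_leg {n : ℕ} (x : Fin n → ℝ) (D : Fin 5 → Fin n → ℝ) (m : Fin 5) {t : ℝ}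
    (ht : t ∈ Ioo ((m : ℝ) / 5) (((m : ℝ) + 1) / 5)) :
    deriv (path5 x D) t = (5 : ℝ) • D m ∧
    path5 x D t = x + ∑ k : Fin 5, (if k < m then (1:ℝ) else if k = m then 5 * t - m else 0) • D k := by
  have h : ∀ s ∈ Ioo ((m : ℝ) / 5) (((m : ℝ) + 1) / 5), path5 x D s
      = x + ∑ k : Fin 5, (if k < m then (1:ℝ) else if k = m then 5 * s - m else 0) • D k := by
    intro s hs
    have hs1 : (m : ℝ) < 5 * s := by have := hs.1; linarith
    have hs2 : 5 * s < (m : ℝ) + 1 := by have := hs.2; linarith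
    unfold path5
    congr 1
    apply Finset.sum_congr rfl
    intro k _
    congr 1
    rcases lt_trichotomy k m with hk | hk | hk
    · rw [if_pos hk]
      apply lg_right
      have : ((k : ℕ) : ℝ) + 1 ≤ ((m : ℕ) : ℝ) := by exact_mod_cast hk
      linarith
    · subst hk
      rw [if_neg (lt_irrefl _), if_pos rfl]
      exact lg_mid hs1.le hs2.le
    · rw [if_neg (not_lt.mpr hk.le), if_neg hk.ne']
      apply lg_left
      have : ((m : ℕ) : ℝ) + 1 ≤ ((k : ℕ) : ℝ) := by exact_mod_cast hk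
      linarith
  refine ⟨?_, h t ht⟩
  have hev : path5 x D =ᶠ[𝓝 t] fun s => x + ∑ k : Fin 5,
      (if k < m then (1:ℝ) else if k = m then 5 * s - m else 0) • D k := by
    filter_upwards [Ioo_mem_nhds ht.1 ht.2] with s hs using h s hs
  rw [hev.deriv_eq]
  have hd : HasDerivAt (fun s : ℝ => x + ∑ k : Fin 5,
      (if k < m then (1:ℝ) else if k = m then 5 * s - m else 0) • D k)
      (∑ k : Fin 5, (if k < m then (0:ℝ) else if k = m then 5 else 0) • D k) t := by
    apply HasDerivAt.const_add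
    apply HasDerivAt.fun_sum
    intro k _
    apply HasDerivAt.smul_const
    by_cases h1 : k < m
    · simp only [if_pos h1]
      exact hasDerivAt_const _ _
    · simp only [if_neg h1]
      by_cases h2 : k = m
      · simp only [if_pos h2]
        have := ((hasDerivAt_id t).const_mul (5:ℝ)).sub_const (m : ℝ)
        exact this.congr_deriv (by ring)
      · simp only [if_neg h2]
        exact hasDerivAt_const _ _
  rw [hd.deriv, Finset.sum_eq_single m]
  · simp
  · intro k _ hk
    by_cases h1 : k < m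
    · simp [h1]
    · simp [h1, hk]
  · intro h; exact absurd (Finset.mem_univ _) h

variable (M : WarpMetric) (p q : ℕ)

/-- displacement vectors of the five legs -/
def disp (L : ℝ) (x y : Fin (p + q + 1) → ℝ) (k : Fin 5) (i : Fin (p + q + 1)) : ℝ :=
  if i.val = 0 then (if k = 0 then -x 0 else if k = 2 then L else if k = 4 then -(L - y 0) else 0)
  else if i.val ≤ p then (if k = 1 then y i - x i else 0)
  else (if k = 3 then y i - x i else 0)

theorem disp_sum (L : ℝ) (x y : Fin (p + q + 1) → ℝ) : x + ∑ k, disp p q L x y k = y := by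
  funext i
  rw [Pi.add_apply, Finset.sum_apply, Fin.sum_univ_five]
  unfold disp
  by_cases h0 : i.val = 0
  · have hi : i = 0 := Fin.ext h0
    subst hi
    simp
  · by_cases h1 : i.val ≤ p
    · simp [h0, h1]
    · simp [h0, h1]

theorem WarpMetric.dist_le {x y : Fin (p + q + 1) → ℝ} (hx : x 0 ∈ Icc 0 M.L)
    (hy : y 0 ∈ Icc 0 M.L) : M.dist p q x y ≤ 3 * M.L := by
  have hL := M.L_pos
  have f0 : M.f 0 = 0 := by
    have := M.odd_f 0
    rw [neg_zero] at this
    linarith
  have hL0 : M.h M.L = 0 := by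
    have := M.odd_h 0
    rw [add_zero, sub_zero] at this
    linarith
  set D := disp p q M.L x y with hD
  set γ := path5 x D with hγ
  have hmet : M.metric p q = dg (M.entry p q) := rfl
  have hD0 : ∀ k : Fin 5, D k 0 = (if k = 0 then -x 0 else if k = 2 then M.L else
      if k = 4 then -(M.L - y 0) else 0) := by
    intro k; rw [hD]; unfold disp; simp
  have hDr : ∀ k : Fin 5, (k = 0 ∨ k = 2 ∨ k = 4) → ∀ i : Fin (p + q + 1), i ≠ 0 → D k i = 0 := by
    intro k hk i hi
    have hi' : i.val ≠ 0 := fun h => hi (Fin.ext h)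
    rw [hD]; unfold disp
    rw [if_neg hi']
    rcases hk with h | h | h <;> subst h <;> by_cases h1 : i.val ≤ p <;> simp [h1]
  have hpos0 : ∀ (m : Fin 5) (t : ℝ), (x + ∑ k : Fin 5,
      (if k < m then (1:ℝ) else if k = m then 5 * t - m else 0) • D k) 0
      = x 0 + ∑ k : Fin 5, (if k < m then (1:ℝ) else if k = m then 5 * t - m else 0) *
        (if k = 0 then -x 0 else if k = 2 then M.L else if k = 4 then -(M.L - y 0) else 0) := by
    intro m t
    rw [Pi.add_apply, Finset.sum_apply]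
    congr 1
  -- radial legs
  have hrad : ∀ (m : Fin 5), (m = 0 ∨ m = 2 ∨ m = 4) →
      ∀ t ∈ Ioo ((m : ℝ) / 5) (((m : ℝ) + 1) / 5),
      √(ip (M.metric p q) (γ t) (deriv γ t) (deriv γ t)) = 5 * |D m 0| := by
    intro m hm t ht
    obtain ⟨e1, _⟩ := path5_leg x D m ht
    rw [← hγ] at e1
    rw [e1, hmet, ip_dg, Finset.sum_eq_single 0]
    · rw [entry_zero, one_mul, Pi.smul_apply, smul_eq_mul, Real.sqrt_sq_eq_abs, abs_mul]
      norm_num
    · intro i _ hi
      rw [Pi.smul_apply, hDr m hm i hi]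
      simp
    · intro h; exact absurd (Finset.mem_univ _) h
  have hfree : ∀ (m : Fin 5), (m = 1 ∨ m = 3) →
      ∀ t ∈ Ioo ((m : ℝ) / 5) (((m : ℝ) + 1) / 5),
      √(ip (M.metric p q) (γ t) (deriv γ t) (deriv γ t)) = 0 := by
    intro m hm t ht
    obtain ⟨e1, e2⟩ := path5_leg x D m ht
    rw [← hγ] at e1 e2
    have e3 := hpos0 m t
    rw [← e2] at e3
    rw [Fin.sum_univ_five] at e3
    rw [e1, hmet, ip_dg, Finset.sum_eq_zero, Real.sqrt_zero]
    intro i _
    rw [Pi.smul_apply, smul_eq_mul]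
    by_cases h0 : i.val = 0
    · have hi : i = 0 := Fin.ext h0
      subst hi
      rw [hD0]
      rcases hm with h | h <;> subst h <;> simp
    · rcases hm with h | h
      · subst h
        have hr : γ t 0 = 0 := by
          rw [e3]; simp
        by_cases h1 : i.val ≤ p
        · rw [entry_P M p q h0 h1, hr, f0]; ring
        · have : D 1 i = 0 := by rw [hD]; unfold disp; simp [h0, h1]
          rw [this]; ring
      · subst h
        have hr : γ t 0 = M.L := by
          rw [e3]; simp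
        by_cases h1 : i.val ≤ p
        · have : D 3 i = 0 := by rw [hD]; unfold disp; simp [h0, h1]
          rw [this]; ring
        · rw [entry_Q M p q (by omega), hr, hL0]; ring
  have hr0 : ∀ t ∈ Ioo (0:ℝ) (1 / 5), √(ip (M.metric p q) (γ t) (deriv γ t) (deriv γ t))
      = 5 * |D 0 0| := fun t ht => hrad 0 (by simp) t (by
    have a1 := ht.1
    have a2 := ht.2
    constructor <;> norm_num <;> linarith)
  have hf1 : ∀ t ∈ Ioo (1 / 5 : ℝ) (2 / 5), √(ip (M.metric p q) (γ t) (deriv γ t) (deriv γ t))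
      = 0 := fun t ht => hfree 1 (by simp) t (by
    have a1 := ht.1
    have a2 := ht.2
    constructor <;> norm_num <;> linarith)
  have hr2 : ∀ t ∈ Ioo (2 / 5 : ℝ) (3 / 5), √(ip (M.metric p q) (γ t) (deriv γ t) (deriv γ t))
      = 5 * |D 2 0| := fun t ht => hrad 2 (by simp) t (by
    have a1 := ht.1
    have a2 := ht.2
    constructor <;> norm_num <;> linarith)
  have hf3 : ∀ t ∈ Ioo (3 / 5 : ℝ) (4 / 5), √(ip (M.metric p q) (γ t) (deriv γ t) (deriv γ t))
      = 0 := fun t ht => hfree 3 (by simp) t (by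
    have a1 := ht.1
    have a2 := ht.2
    constructor <;> norm_num <;> linarith)
  have hr4 : ∀ t ∈ Ioo (4 / 5 : ℝ) 1, √(ip (M.metric p q) (γ t) (deriv γ t) (deriv γ t))
      = 5 * |D 4 0| := fun t ht => hrad 4 (by simp) t (by
    have a1 := ht.1
    have a2 := ht.2
    constructor <;> norm_num <;> linarith)
  obtain ⟨i0, j0⟩ := integral_const_Ioo (by norm_num) hr0
  obtain ⟨i1, j1⟩ := integral_const_Ioo (by norm_num) hf1
  obtain ⟨i2, j2⟩ := integral_const_Ioo (by norm_num) hr2
  obtain ⟨i3, j3⟩ := integral_const_Ioo (by norm_num) hf3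
  obtain ⟨i4, j4⟩ := integral_const_Ioo (by norm_num) hr4
  have hlen : curveLen (M.metric p q) γ = |D 0 0| + |D 2 0| + |D 4 0| := by
    unfold curveLen
    rw [← intervalIntegral.integral_add_adjacent_intervals (((i0.trans i1).trans i2).trans i3) i4,
      ← intervalIntegral.integral_add_adjacent_intervals ((i0.trans i1).trans i2) i3,
      ← intervalIntegral.integral_add_adjacent_intervals (i0.trans i1) i2,
      ← intervalIntegral.integral_add_adjacent_intervals i0 i1, j0, j1, j2, j3, j4]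
    ring
  have d0 : |D 0 0| = x 0 := by
    rw [hD0]; simp [abs_of_nonneg hx.1]
  have d2 : |D 2 0| = M.L := by
    rw [hD0]; simp [abs_of_pos hL]
  have d4 : |D 4 0| = M.L - y 0 := by
    rw [hD0]
    have : 0 ≤ M.L - y 0 := by linarith [hy.2]
    simp
    rw [abs_sub_comm, abs_of_nonneg this]
  have hmem : ∀ t ∈ Icc (0:ℝ) 1, γ t 0 ∈ Icc 0 M.L := by
    intro t _
    have e : γ t 0 = x 0 * (1 - lg 0 t) + M.L * lg 2 t - (M.L - y 0) * lg 4 t := by
      rw [hγ]
      unfold path5
      rw [Pi.add_apply, Finset.sum_apply, Fin.sum_univ_five]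
      simp only [Pi.smul_apply, hD0, smul_eq_mul]
      simp
      ring
    rw [e]
    have a0 := lg_nonneg 0 t
    have b0 := lg_le 0 t
    have a2 := lg_nonneg 2 t
    have b2 := lg_le 2 t
    have a4 := lg_nonneg 4 t
    have b4 := lg_le 4 t
    have hx1 := hx.1
    have hx2 := hx.2
    have hy1 := hy.1
    have hy2 := hy.2
    rcases le_total (5 * t) 2 with h | h
    · rw [lg_left (k := 2) h, lg_left (k := 4) (by linarith)]
      constructor
      · have := mul_nonneg hx1 (sub_nonneg.mpr b0)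
        linarith
      · have := mul_le_mul hx2 (by linarith : 1 - lg 0 t ≤ 1) (by linarith) hL.le
        linarith
    · rw [lg_right (k := 0) (by linarith)]
      rcases le_total (5 * t) 4 with h' | h'
      · rw [lg_left (k := 4) h']
        constructor
        · have := mul_nonneg hL.le a2
          linarith
        · have := mul_le_mul_of_nonneg_left b2 hL.le
          linarith
      · rw [lg_right (k := 2) (by linarith)]
        constructor
        · nlinarith
        · nlinarith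
  have hbdd : BddBelow {l | ∃ γ : ℝ → Fin (p + q + 1) → ℝ, (∃ K, LipschitzWith K γ) ∧
      (∀ t ∈ Icc (0:ℝ) 1, γ t 0 ∈ Icc 0 M.L) ∧ γ 0 = x ∧ γ 1 = y ∧
      l = curveLen (M.metric p q) γ} := by
    refine ⟨0, ?_⟩
    rintro l ⟨γ, _, _, _, _, rfl⟩
    exact intervalIntegral.integral_nonneg (by norm_num) (fun t _ => Real.sqrt_nonneg _)
  have h1 : M.dist p q x y ≤ curveLen (M.metric p q) γ := by
    refine csInf_le hbdd ⟨γ, path5_lip x D, hmem, path5_zero x D, ?_, rfl⟩
    rw [hγ, path5_one, hD]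
    exact disp_sum p q M.L x y
  rw [hlen, d0, d2, d4] at h1
  linarith [hx.2, hy.1]

theorem WarpMetric.dist_nonneg (x y : Fin (p + q + 1) → ℝ) : 0 ≤ M.dist p q x y := by
  apply Real.sInf_nonneg
  rintro l ⟨γ, _, _, _, _, rfl⟩
  exact intervalIntegral.integral_nonneg (by norm_num) (fun t _ => Real.sqrt_nonneg _)

theorem WarpMetric.diam_le : M.diam p q ≤ 3 * M.L := by
  apply csSup_le
  · exact ⟨_, 0, 0, ⟨le_rfl, M.L_pos.le⟩, ⟨le_rfl, M.L_pos.le⟩, rfl⟩
  · rintro d ⟨x, y, hx, hy, rfl⟩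
    exact M.dist_le p q hx hy

theorem WarpMetric.diam_nonneg : 0 ≤ M.diam p q := by
  apply Real.sSup_nonneg
  rintro d ⟨x, y, _, _, rfl⟩
  exact M.dist_nonneg p q x y

theorem reflect_hasDeriv {F F1 : ℝ → ℝ} (hF : ∀ r, HasDerivAt F (F1 r) r) (L r : ℝ) :
    HasDerivAt (fun r => F (L - r)) (-F1 (L - r)) r := (hF (L - r)).comp_const_sub L r

theorem reflect_hasDeriv_neg {F F1 : ℝ → ℝ} (hF : ∀ r, HasDerivAt F (F1 r) r) (L r : ℝ) :
    HasDerivAt (fun r => -F (L - r)) (F1 (L - r)) r := by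
  have := (reflect_hasDeriv hF L r).neg
  rwa [neg_neg] at this

theorem cd2_hasDeriv {f : ℝ → ℝ} (hf : ContDiff ℝ 2 f) (r : ℝ) : HasDerivAt f (deriv f r) r :=
  (hf.differentiable (by norm_num) r).hasDerivAt

theorem cd2_hasDeriv2 {f : ℝ → ℝ} (hf : ContDiff ℝ 2 f) (r : ℝ) :
    HasDerivAt (deriv f) (deriv (deriv f) r) r := by
  have h1 : ContDiff ℝ 1 (deriv f) := by
    have : ContDiff ℝ (1 + 1) f := by norm_num; exact hf
    exact (contDiff_succ_iff_deriv.mp this).2.2
  exact (h1.differentiable (by norm_num) r).hasDerivAt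

theorem even_deriv_zero {f : ℝ → ℝ} (hf : ∀ r, f (-r) = f r) : deriv f 0 = 0 := by
  have h : deriv (fun r => f (-r)) 0 = -deriv f (-0) := deriv_comp_neg f 0
  have h2 : (fun r => f (-r)) = f := funext hf
  rw [h2, neg_zero] at h
  linarith

/-- lower bounds for f and h -/
theorem WarpMetric.bounds {δ : ℝ} (hδ : 0 < δ)
    (hp : 1 ≤ p) (hq : 1 ≤ q)
    (hpin : ∀ x : Fin (p + q + 1) → ℝ, x 0 ∈ Ioo 0 M.L → PinchedAt δ (M.metric p q) x)
    {N : ℕ} (hN : 1 / δ ≤ N) :
    (∀ r ∈ Icc (M.L / 4) M.L, (3 / 4) ^ N * (M.L / 4) ≤ M.f r) ∧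
    (∀ r ∈ Icc 0 (3 * M.L / 4), (3 / 4) ^ N * (M.L / 4) ≤ M.h r) := by
  have hL := M.L_pos
  have hf1 := cd2_hasDeriv M.smooth_f
  have hf2 := cd2_hasDeriv2 M.smooth_f
  have hh1 := cd2_hasDeriv M.smooth_h
  have hh2 := cd2_hasDeriv2 M.smooth_h
  have hcf := M.smooth_f.continuous
  have hch := M.smooth_h.continuous
  have f0 : M.f 0 = 0 := by
    have := M.odd_f 0
    rw [neg_zero] at this
    linarith
  have hL0 : M.h M.L = 0 := by
    have := M.odd_h 0
    rw [add_zero, sub_zero] at this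
    linarith
  have h10 : deriv M.h 0 = 0 := even_deriv_zero M.even_h
  have f1L : deriv M.f M.L = 0 := by
    have e : deriv (fun r => M.f (M.L - r)) 0 = 0 := even_deriv_zero (f := fun r => M.f (M.L - r))
      (fun r => by
        simp only [sub_neg_eq_add]
        exact M.even_f r)
    have e2 := (reflect_hasDeriv hf1 M.L 0).deriv
    rw [e, sub_zero] at e2
    linarith
  -- curvatures
  set i : Fin (p + q + 1) := ⟨1, by omega⟩ with hi
  set j : Fin (p + q + 1) := ⟨p + 1, by omega⟩ with hj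
  have hiv : i.val = 1 := rfl
  have hjv : j.val = p + 1 := rfl
  have i0 : (0 : Fin (p + q + 1)) ≠ i := by
    intro h
    have := congrArg Fin.val h
    rw [hiv] at this
    simp at this
  have j0 : (0 : Fin (p + q + 1)) ≠ j := by
    intro h
    have := congrArg Fin.val h
    rw [hjv] at this
    simp at this
  have hij : i ≠ j := by
    intro h
    have := congrArg Fin.val h
    rw [hiv, hjv] at this
    omega
  have key : ∀ r ∈ Ioo 0 M.L, 0 < -deriv (deriv M.f) r / M.f r ∧
      0 < -deriv (deriv M.h) r / M.h r ∧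
      δ * (-deriv (deriv M.f) r / M.f r) ≤ -(deriv M.f r * deriv M.h r) / (M.f r * M.h r) ∧
      δ * (-deriv (deriv M.h) r / M.h r) ≤ -(deriv M.f r * deriv M.h r) / (M.f r * M.h r) := by
    intro r hr
    set x : Fin (p + q + 1) → ℝ := fun _ => r with hx
    have hx0 : x 0 = r := rfl
    have hfx : 0 < M.f (x 0) := M.f_pos r ⟨hr.1, hr.2.le⟩
    have hhx : 0 < M.h (x 0) := M.h_pos r ⟨hr.1.le, hr.2⟩
    have P := hpin x hr
    have s1 := sec_radial_P M p q hf1 hf2 hcf hch hfx hhx (i := i) (by omega) (by omega)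
    have s2 := sec_radial_Q M p q hh1 hh2 hcf hch hfx hhx (i := j) (by omega)
    have s3 := sec_mixed M p q hf1 hh1 hcf hch hfx hhx (i := i) (j := j) (by omega) (by omega)
      (by omega)
    rw [hx0] at s1 s2 s3
    have a1 := (P _ _ _ _ (indep_single i0) (indep_single i0)).1
    have a2 := (P _ _ _ _ (indep_single j0) (indep_single j0)).1
    have a3 := (P _ _ _ _ (indep_single hij) (indep_single i0)).2
    have a4 := (P _ _ _ _ (indep_single hij) (indep_single j0)).2
    rw [s1] at a1 a3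
    rw [s2] at a2 a4
    rw [s3] at a3 a4
    exact ⟨a1, a2, a3.le, a4.le⟩
  refine ⟨fun r hr => ?_, fun r hr => ?_⟩
  · exact warp_side hL hδ hf1 hf2 hh1 hh2 f0 M.f_unit f1L h10 hL0 M.h_pos M.f_pos
      (fun r hr => (key r hr).1) (fun r hr => (key r hr).2.1) (fun r hr => (key r hr).2.2.1) hN hr
  · have hrefl : ∀ r ∈ Ioo 0 M.L, M.L - r ∈ Ioo 0 M.L := fun r hr =>
      ⟨by linarith [hr.2], by linarith [hr.1]⟩
    have := warp_side (f := fun r => M.h (M.L - r)) (h := fun r => M.f (M.L - r))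
      (f1 := fun r => -deriv M.h (M.L - r)) (h1 := fun r => -deriv M.f (M.L - r))
      (f2 := fun r => deriv (deriv M.h) (M.L - r)) (h2 := fun r => deriv (deriv M.f) (M.L - r))
      hL hδ (reflect_hasDeriv hh1 M.L) (reflect_hasDeriv_neg hh2 M.L)
      (reflect_hasDeriv hf1 M.L) (reflect_hasDeriv_neg hf2 M.L)
      (by simp [hL0]) (by simp [M.h_unit]) (by simp [h10]) (by simp [f1L]) (by simp [f0])
      (fun r hr => M.f_pos _ ⟨by linarith [hr.2], by linarith [hr.1]⟩)
      (fun r hr => M.h_pos _ ⟨by linarith [hr.2], by linarith [hr.1]⟩)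
      (fun r hr => (key _ (hrefl r hr)).2.1) (fun r hr => (key _ (hrefl r hr)).1)
      (fun r hr => by
        have k := (key _ (hrefl r hr)).2.2.2
        have e : -(-deriv M.h (M.L - r) * -deriv M.f (M.L - r)) / (M.h (M.L - r) * M.f (M.L - r))
            = -(deriv M.f (M.L - r) * deriv M.h (M.L - r)) / (M.f (M.L - r) * M.h (M.L - r)) := by
          rw [mul_comm (M.h (M.L - r))]
          ring
        rw [e]
        exact k) hN (r := M.L - r) ⟨by linarith [hr.2], by linarith [hr.1]⟩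
    simpa using this

theorem phi_lower {n : ℕ} (P : Fin n → Prop) [DecidablePred P] {x : Fin n → ℝ}
    (hx : ∀ j, P j → x j ∈ Icc (0:ℝ) 1) :
    (2 / (1 + (n : ℝ))) ^ 2 ≤ (2 / (1 + ∑ j, if P j then x j ^ 2 else 0)) ^ 2 := by
  have h0 : 0 ≤ ∑ j, (if P j then x j ^ 2 else 0) := by
    apply Finset.sum_nonneg
    intro j _
    split_ifs
    · positivity
    · exact le_rfl
  have h1 : ∑ j, (if P j then x j ^ 2 else 0) ≤ n := by
    calc ∑ j, (if P j then x j ^ 2 else 0) ≤ ∑ _j : Fin n, (1:ℝ) := by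
          apply Finset.sum_le_sum
          intro j _
          split_ifs with h
          · have := hx j h
            have h3 := pow_le_one₀ this.1 this.2 (n := 2)
            exact h3
          · norm_num
      _ = n := by simp
  apply pow_le_pow_left₀ (by positivity)
  apply div_le_div_of_nonneg_left (by norm_num) (by positivity)
  linarith

theorem WarpMetric.volume_ge {κ : ℝ} (hκ : 0 < κ)
    (hf : ∀ r ∈ Icc (M.L / 4) M.L, κ ≤ M.f r) (hh : ∀ r ∈ Icc 0 (3 * M.L / 4), κ ≤ M.h r) :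
    ENNReal.ofReal ((κ * (2 / (1 + ((p + q + 1 : ℕ) : ℝ)))) ^ (p + q) * (M.L / 2))
      ≤ M.volume p q := by
  have hL := M.L_pos
  set n : ℕ := p + q + 1 with hn
  set lo : Fin (p + q + 1) → ℝ := fun i => if i = 0 then M.L / 4 else 0 with hlo
  set hi : Fin (p + q + 1) → ℝ := fun i => if i = 0 then 3 * M.L / 4 else 1 with hhi
  set cst : ℝ := κ * (2 / (1 + (n : ℝ))) with hcst
  have hcpos : 0 < cst := by positivity
  have hsub : Icc lo hi ⊆ {x : Fin (p + q + 1) → ℝ | x 0 ∈ Ioo 0 M.L} := by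
    intro x hx
    have h1 := hx.1 0
    have h2 := hx.2 0
    simp only [hlo, hhi, if_true] at h1 h2
    exact ⟨by linarith, by linarith⟩
  have hdet : ∀ x ∈ Icc lo hi, cst ^ (p + q) ≤ √((M.metric p q x).det) := by
    intro x hx
    have hx0 : x 0 ∈ Icc (M.L / 4) (3 * M.L / 4) := by
      have h1 := hx.1 0
      have h2 := hx.2 0
      simp only [hlo, hhi, if_true] at h1 h2
      exact ⟨h1, h2⟩
    have hxj : ∀ j : Fin (p + q + 1), j.val ≠ 0 → x j ∈ Icc (0:ℝ) 1 := by
      intro j hj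
      have hj0 : j ≠ 0 := fun h => hj (congrArg Fin.val h)
      have h1 := hx.1 j
      have h2 := hx.2 j
      simp only [hlo, hhi, if_neg hj0] at h1 h2
      exact ⟨h1, h2⟩
    have hfx := hf (x 0) ⟨hx0.1, by linarith [hx0.2]⟩
    have hhx := hh (x 0) ⟨by linarith [hx0.1], hx0.2⟩
    have hent : ∀ i : Fin (p + q), cst ^ 2 ≤ M.entry p q x i.succ := by
      intro i
      have hs : (i.succ : Fin (p + q + 1)).val ≠ 0 := by simp
      by_cases h1 : (i.succ : Fin (p + q + 1)).val ≤ p
      · rw [entry_P M p q hs h1, hcst, mul_pow]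
        apply mul_le_mul (pow_le_pow_left₀ hκ.le hfx 2) _ (by positivity) (by positivity)
        unfold phiP
        exact phi_lower (fun j : Fin (p + q + 1) => 1 ≤ j.val ∧ j.val ≤ p)
          (fun j hj => hxj j (by omega))
      · rw [entry_Q M p q (by omega), hcst, mul_pow]
        apply mul_le_mul (pow_le_pow_left₀ hκ.le hhx 2) _ (by positivity) (by positivity)
        unfold phiQ
        exact phi_lower (fun j : Fin (p + q + 1) => p < j.val)
          (fun j hj => hxj j (by omega))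
    apply Real.le_sqrt_of_sq_le
    have e : (M.metric p q x).det = ∏ i, M.entry p q x i := Matrix.det_diagonal
    rw [e, Fin.prod_univ_succ]
    have e0 : M.entry p q x 0 = 1 := entry_zero M p q x
    rw [e0, one_mul]
    calc (cst ^ (p + q)) ^ 2 = ∏ _i : Fin (p + q), cst ^ 2 := by
          rw [Finset.prod_const, Finset.card_univ, Fintype.card_fin]; ring
      _ ≤ ∏ i : Fin (p + q), M.entry p q x i.succ :=
          Finset.prod_le_prod (fun i _ => by positivity) (fun i _ => hent i)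
  have hvol : MeasureTheory.volume (Icc lo hi) = ENNReal.ofReal (M.L / 2) := by
    rw [Real.volume_Icc_pi, Fin.prod_univ_succ]
    have e1 : ∀ i : Fin (p + q), ENNReal.ofReal (hi i.succ - lo i.succ) = 1 := by
      intro i
      simp [hlo, hhi]
    simp only [e1, Finset.prod_const_one, mul_one]
    congr 1
    simp only [hlo, hhi, if_true]
    ring
  unfold WarpMetric.volume
  calc ENNReal.ofReal (cst ^ (p + q) * (M.L / 2))
      = ENNReal.ofReal (cst ^ (p + q)) * MeasureTheory.volume (Icc lo hi) := by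
        rw [hvol, ENNReal.ofReal_mul (by positivity)]
    _ = ∫⁻ _x in Icc lo hi, ENNReal.ofReal (cst ^ (p + q)) := by
        rw [setLIntegral_const]
    _ ≤ ∫⁻ x in Icc lo hi, ENNReal.ofReal (√((M.metric p q x).det)) := by
        apply setLIntegral_mono' measurableSet_Icc
        intro x hx
        exact ENNReal.ofReal_le_ofReal (hdet x hx)
    _ ≤ _ := lintegral_mono_set hsub

/-- noncollapsing in all dimensions -/
theorem warp_noncollapse (p q : ℕ) (hp : 1 ≤ p) (hq : 1 ≤ q) (δ : ℝ) (hδ : 0 < δ) :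
    ∃ ε : ℝ, 0 < ε ∧ ∀ M : WarpMetric,
      (∀ x : Fin (p + q + 1) → ℝ, x 0 ∈ Ioo 0 M.L → PinchedAt δ (M.metric p q) x) →
      ENNReal.ofReal (ε * M.diam p q ^ (p + q + 1)) ≤ M.volume p q := by
  obtain ⟨N, hN⟩ := exists_nat_ge (1 / δ)
  set A : ℝ := ((3 / 4) ^ N / 4 * (2 / (1 + ((p + q + 1 : ℕ) : ℝ)))) ^ (p + q) / 2 with hA
  have hApos : 0 < A := by positivity
  refine ⟨A / 3 ^ (p + q + 1), by positivity, fun M hM => ?_⟩
  have hL := M.L_pos
  obtain ⟨h1, h2⟩ := M.bounds p q hδ hp hq hM hN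
  have hκ : 0 < (3 / 4 : ℝ) ^ N * (M.L / 4) := by positivity
  have h3 := M.volume_ge p q hκ h1 h2
  refine le_trans (ENNReal.ofReal_le_ofReal ?_) h3
  have h4 := M.diam_le p q
  have h5 := M.diam_nonneg p q
  have h6 : M.diam p q ^ (p + q + 1) ≤ (3 * M.L) ^ (p + q + 1) := pow_le_pow_left₀ h5 h4 _
  calc A / 3 ^ (p + q + 1) * M.diam p q ^ (p + q + 1)
      ≤ A / 3 ^ (p + q + 1) * (3 * M.L) ^ (p + q + 1) :=
        mul_le_mul_of_nonneg_left h6 (by positivity)
    _ = A * M.L ^ (p + q + 1) := by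
        rw [mul_pow]
        field_simp
    _ = ((3 / 4) ^ N * (M.L / 4) * (2 / (1 + ((p + q + 1 : ℕ) : ℝ)))) ^ (p + q) * (M.L / 2) := by
        rw [hA, pow_succ]
        have : (3 / 4 : ℝ) ^ N * (M.L / 4) * (2 / (1 + ((p + q + 1 : ℕ) : ℝ)))
            = M.L * ((3 / 4) ^ N / 4 * (2 / (1 + ((p + q + 1 : ℕ) : ℝ)))) := by ring
        rw [this, mul_pow M.L]
        generalize ((3 / 4 : ℝ) ^ N / 4 * (2 / (1 + ((p + q + 1 : ℕ) : ℝ)))) ^ (p + q) = B
        generalize M.L ^ (p + q) = C
        ring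

end

end Pool.Agent.QPinch
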