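import Pool.Agent.QPinch.RotDefs
import Pool.Agent.QPinch.Warp

open Set Filter Topology MeasureTheory

namespace Pool.Agent.QPinch

noncomputable section

/-- analysis for rotationally symmetric metrics -/
theorem rot_bound {L δ m : ℝ} {f f1 f2 : ℝ → ℝ} (hL : 0 < L) (hδ : 0 < δ) (hm : 0 < m)
    (hf : ∀ r, HasDerivAt f (f1 r) r) (hf1 : ∀ r, HasDerivAt f1 (f2 r) r)
    (f0 : f 0 = 0) (fL : f L = 0) (f10 : f1 0 = 1) (f1L : f1 L = -1)
    (hpos : ∀ r ∈ Ioo 0 L, 0 < f r) (hle : ∀ r ∈ Icc 0 L, f r ≤ m)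
    (c1 : ∀ r ∈ Ioo 0 L, 0 < -f2 r / f r)
    (c2 : ∀ r ∈ Ioo 0 L, δ * ((1 - f1 r ^ 2) / f r ^ 2) ≤ -f2 r / f r) :
    L ≤ (4 + 4 / (3 * δ)) * m := by
  have f2neg : ∀ r ∈ Ioo 0 L, f2 r < 0 := by
    intro r hr
    have := (div_pos_iff_of_pos_right (hpos r hr)).mp (c1 r hr)
    linarith
  have f1anti : StrictAntiOn f1 (Icc 0 L) := by
    apply strictAntiOn_of_deriv_neg (convex_Icc _ _)
      (fun r _ => (hf1 r).continuousAt.continuousWithinAt)
    intro r hr
    rw [interior_Icc] at hr
    rw [(hf1 r).deriv]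
    exact f2neg r hr
  have hc1 : ContinuousOn f1 (Icc 0 L) := fun r _ => (hf1 r).continuousAt.continuousWithinAt
  have hivt := intermediate_value_Icc' hL.le hc1
  rw [f10, f1L] at hivt
  obtain ⟨ra, hra, ea⟩ := hivt (show (1 / 2 : ℝ) ∈ Icc (-1) 1 by constructor <;> norm_num)
  obtain ⟨rb, hrb, eb⟩ := hivt (show (-(1 / 2) : ℝ) ∈ Icc (-1) 1 by constructor <;> norm_num)
  have hab : ra < rb := by
    by_contra hcon
    push Not at hcon
    have := f1anti.antitoneOn hrb hra hcon
    linarith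
  -- left part
  have k1 : ra ≤ 2 * m := by
    have hmono : MonotoneOn (fun r => f r - (1 / 2) * r) (Icc 0 ra) := by
      have hd : ∀ r, HasDerivAt (fun r => f r - (1 / 2) * r) (f1 r - (1 / 2) * 1) r :=
        fun r => (hf r).sub ((hasDerivAt_id r).const_mul _)
      refine monotoneOn_of_deriv_nonneg (convex_Icc _ _)
        (fun r hr => (hd r).continuousAt.continuousWithinAt)
        (fun r hr => (hd r).differentiableAt.differentiableWithinAt) ?_
      intro r hr
      rw [interior_Icc] at hr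
      rw [(hd r).deriv]
      have := f1anti.antitoneOn ⟨hr.1.le, hr.2.le.trans hra.2⟩ hra hr.2.le
      linarith
    have := hmono (left_mem_Icc.mpr hra.1) (right_mem_Icc.mpr hra.1) hra.1
    simp only [f0] at this
    have h2 := hle ra hra
    linarith
  have k2 : L - rb ≤ 2 * m := by
    have hmono : AntitoneOn (fun r => f r + (1 / 2) * r) (Icc rb L) := by
      have hd : ∀ r, HasDerivAt (fun r => f r + (1 / 2) * r) (f1 r + (1 / 2) * 1) r :=
        fun r => (hf r).add ((hasDerivAt_id r).const_mul _)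
      refine antitoneOn_of_deriv_nonpos (convex_Icc _ _)
        (fun r hr => (hd r).continuousAt.continuousWithinAt)
        (fun r hr => (hd r).differentiableAt.differentiableWithinAt) ?_
      intro r hr
      rw [interior_Icc] at hr
      rw [(hd r).deriv]
      have := f1anti.antitoneOn hrb ⟨hrb.1.trans hr.1.le, hr.2.le⟩ hr.1.le
      linarith
    have := hmono (left_mem_Icc.mpr hrb.2) (right_mem_Icc.mpr hrb.2) hrb.2
    simp only [fL] at this
    have h2 := hle rb hrb
    linarith
  have k3 : rb - ra ≤ 4 / (3 * δ) * m := by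
    have hmono : AntitoneOn (fun r => f1 r + 3 * δ / (4 * m) * r) (Icc ra rb) := by
      have hd : ∀ r, HasDerivAt (fun r => f1 r + 3 * δ / (4 * m) * r)
          (f2 r + 3 * δ / (4 * m) * 1) r :=
        fun r => (hf1 r).add ((hasDerivAt_id r).const_mul _)
      refine antitoneOn_of_deriv_nonpos (convex_Icc _ _)
        (fun r hr => (hd r).continuousAt.continuousWithinAt)
        (fun r hr => (hd r).differentiableAt.differentiableWithinAt) ?_
      intro r hr
      rw [interior_Icc] at hr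
      rw [(hd r).deriv]
      have hr' : r ∈ Ioo 0 L := ⟨lt_of_le_of_lt hra.1 hr.1, lt_of_lt_of_le hr.2 hrb.2⟩
      have hrI : r ∈ Icc 0 L := ⟨hr'.1.le, hr'.2.le⟩
      have a1 := f1anti.antitoneOn hra hrI hr.1.le
      have a2 := f1anti.antitoneOn hrI hrb hr.2.le
      have a3 : f1 r ^ 2 ≤ 1 / 4 := by nlinarith
      have a4 := c2 r hr'
      have a5 := hpos r hr'
      have a6 := hle r hrI
      have a7 : δ * (1 - f1 r ^ 2) ≤ -f2 r * f r := by
        rw [← mul_div_assoc, div_le_div_iff₀ (by positivity) a5] at a4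
        have : δ * (1 - f1 r ^ 2) * f r ≤ (-f2 r * f r) * f r := by nlinarith
        exact le_of_mul_le_mul_right this a5
      have a8 : δ * (3 / 4) ≤ -f2 r * m := by
        have b1 : δ * (3 / 4) ≤ δ * (1 - f1 r ^ 2) := by nlinarith
        have b2 : -f2 r * f r ≤ -f2 r * m :=
          mul_le_mul_of_nonneg_left a6 (by linarith [f2neg r hr'])
        linarith
      have a9 : 3 * δ / (4 * m) ≤ -f2 r := by
        rw [div_le_iff₀ (by positivity)]
        linarith
      linarith
    have := hmono (left_mem_Icc.mpr hab.le) (right_mem_Icc.mpr hab.le) hab.le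
    simp only [ea, eb] at this
    have h3 : 3 * δ / (4 * m) * (rb - ra) ≤ 1 := by linarith
    have h4 : 3 * δ / (4 * m) * (rb - ra) * (4 / (3 * δ) * m) = rb - ra := by
      field_simp
    have h5 : 0 < 4 / (3 * δ) * m := by positivity
    nlinarith
  linarith

variable (M : RotMetric) (k : ℕ)

def phiR (x : Fin (k + 1) → ℝ) : ℝ :=
  (2 / (1 + ∑ j : Fin (k + 1), if 1 ≤ j.val then x j ^ 2 else 0)) ^ 2

theorem sumR_nonneg (x : Fin (k + 1) → ℝ) :
    0 ≤ ∑ j : Fin (k + 1), if 1 ≤ j.val then x j ^ 2 else 0 := by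
  apply Finset.sum_nonneg
  intro j _
  split_ifs
  · positivity
  · exact le_rfl

theorem phiR_pos (x : Fin (k + 1) → ℝ) : 0 < phiR k x := by
  unfold phiR
  have := sumR_nonneg k x
  positivity

theorem rentry_zero (x : Fin (k + 1) → ℝ) : M.entry k x 0 = 1 := by
  unfold RotMetric.entry; simp

theorem rentry_ne {x : Fin (k + 1) → ℝ} {i : Fin (k + 1)} (h : i ≠ 0) :
    M.entry k x i = M.f (x 0) ^ 2 * phiR k x := by
  unfold RotMetric.entry phiR
  have : i.val ≠ 0 := fun h' => h (Fin.ext h')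
  rw [if_neg this]

theorem rentry_pos {x : Fin (k + 1) → ℝ} (hf : 0 < M.f (x 0)) (i : Fin (k + 1)) :
    0 < M.entry k x i := by
  by_cases h : i = 0
  · rw [h, rentry_zero]; norm_num
  · rw [rentry_ne M k h]
    have := phiR_pos k x
    positivity

theorem phiR_update_zero (x : Fin (k + 1) → ℝ) (t : ℝ) :
    phiR k (Function.update x 0 t) = phiR k x := by
  unfold phiR
  congr 3
  apply Finset.sum_congr rfl
  intro j _
  by_cases hj : 1 ≤ j.val
  · rw [if_pos hj, if_pos hj]
    have : j ≠ 0 := by rintro rfl; simp at hj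
    rw [Function.update_of_ne this]
  · rw [if_neg hj, if_neg hj]

/-- along a coordinate line through the centre of the chart -/
theorem phiR_update (x : Fin (k + 1) → ℝ) (hx : ∀ j : Fin (k + 1), j ≠ 0 → x j = 0)
    {i : Fin (k + 1)} (hi : i ≠ 0) (t : ℝ) :
    phiR k (Function.update x i t) = (2 / (1 + t ^ 2)) ^ 2 := by
  unfold phiR
  have : (∑ j : Fin (k + 1), if 1 ≤ j.val then (Function.update x i t) j ^ 2 else 0) = t ^ 2 := by
    rw [Finset.sum_eq_single i]
    · have : 1 ≤ i.val := by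
        have : i.val ≠ 0 := fun h' => hi (Fin.ext h')
        omega
      rw [if_pos this, Function.update_self]
    · intro j _ hj
      by_cases h1 : 1 ≤ j.val
      · rw [if_pos h1, Function.update_of_ne hj, hx j (by rintro rfl; simp at h1)]
        ring
      · rw [if_neg h1]
    · intro h; exact absurd (Finset.mem_univ _) h
  rw [this]

theorem rev_entry {x : Fin (k + 1) → ℝ} (hcf : Continuous M.f) (hf : 0 < M.f (x 0))
    (j : Fin (k + 1)) :
    ∀ᶠ t in 𝓝 (x j), ∀ l, M.entry k (Function.update x j t) l ≠ 0 := by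
  by_cases hj : j = 0
  · subst hj
    have e1 : ∀ᶠ t in 𝓝 (x 0), 0 < M.f t := hcf.continuousAt.eventually_const_lt hf
    filter_upwards [e1] with t h1 l
    exact (rentry_pos M k (by simpa using h1) l).ne'
  · refine Eventually.of_forall fun t l => ?_
    have e : Function.update x j t 0 = x 0 := Function.update_of_ne (Ne.symm hj) _ _
    exact (rentry_pos M k (by rw [e]; exact hf) l).ne'

/-- radial sectional curvature -/
theorem rsec_radial {f1 f2 : ℝ → ℝ} (hf1 : ∀ r, HasDerivAt M.f (f1 r) r)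
    (hf2 : ∀ r, HasDerivAt f1 (f2 r) r) (hcf : Continuous M.f)
    {x : Fin (k + 1) → ℝ} (hf : 0 < M.f (x 0)) {i : Fin (k + 1)} (hi : i ≠ 0) :
    sec (M.metric k) x (Pi.single 0 1) (Pi.single i 1) = -f2 (x 0) / M.f (x 0) := by
  have hx : ∀ l, M.entry k x l ≠ 0 := fun l => (rentry_pos M k hf l).ne'
  have hmet : M.metric k = dg (M.entry k) := rfl
  have hprod : ∀ (F F' : ℝ → ℝ), (∀ r, HasDerivAt F (F' r) r) → ∀ y : Fin (k + 1) → ℝ,
      pd 0 (fun z => F (z 0) * phiR k z) y = F' (y 0) * phiR k y := by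
    intro F F' hF y
    unfold pd
    simp only [Function.update_self, phiR_update_zero]
    exact ((hF (y 0)).mul_const _).deriv
  have e1 : pd 0 (fun y => M.entry k y i) = fun y => 2 * M.f (y 0) * f1 (y 0) * phiR k y := by
    funext y
    simp only [rentry_ne M k hi]
    exact hprod (fun r => M.f r ^ 2) (fun r => 2 * M.f r * f1 r) (sq_deriv hf1) y
  have e2 : pd 0 (pd 0 (fun y => M.entry k y i)) x
      = (2 * f1 (x 0) ^ 2 + 2 * M.f (x 0) * f2 (x 0)) * phiR k x := by
    rw [e1]
    exact hprod (fun r => 2 * M.f r * f1 r) (fun r => 2 * f1 r ^ 2 + 2 * M.f r * f2 r)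
      (sq_deriv2 hf1 hf2) x
  rw [hmet, sec_diag hx (Ne.symm hi), riemann_zero hi (rev_entry M k hcf hf)
    (rentry_zero M k), e2, e1, rentry_ne M k hi]
  have h3 := phiR_pos k x
  field_simp
  ring

theorem G_deriv (t : ℝ) : HasDerivAt (fun t : ℝ => (2 / (1 + t ^ 2)) ^ 2)
    (-16 * t / (1 + t ^ 2) ^ 3) t := by
  have h1 : HasDerivAt (fun t : ℝ => 1 + t ^ 2) (2 * t) t := by
    have := (hasDerivAt_pow 2 t).const_add 1
    refine this.congr_deriv ?_
    simp
  have hne : (1 + t ^ 2) ≠ 0 := by positivity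
  have h2 := ((hasDerivAt_const t (2:ℝ)).div h1 hne).pow 2
  refine h2.congr_deriv ?_
  simp
  field_simp
  ring

/-- tangential sectional curvature at the centre of the chart -/
theorem rsec_tangential {f1 : ℝ → ℝ} (hf1 : ∀ r, HasDerivAt M.f (f1 r) r)
    {x : Fin (k + 1) → ℝ} (hxc : ∀ j : Fin (k + 1), j ≠ 0 → x j = 0)
    (hf : 0 < M.f (x 0)) {i j : Fin (k + 1)} (hi : i ≠ 0) (hj : j ≠ 0) (hij : i ≠ j) :
    sec (M.metric k) x (Pi.single i 1) (Pi.single j 1) = (1 - f1 (x 0) ^ 2) / M.f (x 0) ^ 2 := by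
  have hx : ∀ l, M.entry k x l ≠ 0 := fun l => (rentry_pos M k hf l).ne'
  have hmet : M.metric k = dg (M.entry k) := rfl
  have hup0 : ∀ (m : Fin (k + 1)), m ≠ 0 → ∀ t, Function.update x m t 0 = x 0 := fun m hm t =>
    Function.update_of_ne (Ne.symm hm) _ _
  have hent : ∀ (m l : Fin (k + 1)), m ≠ 0 → l ≠ 0 → ∀ t,
      M.entry k (Function.update x m t) l = M.f (x 0) ^ 2 * (2 / (1 + t ^ 2)) ^ 2 := by
    intro m l hm hl t
    rw [rentry_ne M k hl, hup0 m hm, phiR_update k x hxc hm]
  have hpd : ∀ (m l : Fin (k + 1)), m ≠ 0 → l ≠ 0 → ∀ t,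
      pd m (fun y => M.entry k y l) (Function.update x m t)
        = M.f (x 0) ^ 2 * (-16 * t / (1 + t ^ 2) ^ 3) := by
    intro m l hm hl t
    unfold pd
    simp only [Function.update_idem, Function.update_self, hent m l hm hl]
    exact ((G_deriv t).const_mul _).deriv
  have hposu : ∀ (m : Fin (k + 1)), m ≠ 0 → ∀ t l, M.entry k (Function.update x m t) l ≠ 0 := by
    intro m hm t l
    exact (rentry_pos M k (by rw [hup0 m hm]; exact hf) l).ne'
  have hpdx : ∀ (m l : Fin (k + 1)), m ≠ 0 → pd m (fun y => M.entry k y l) x = 0 := by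
    intro m l hm
    by_cases hl : l = 0
    · subst hl
      unfold pd
      simp only [rentry_zero]
      exact deriv_const _ _
    · have := hpd m l hm hl (x m)
      rw [Function.update_eq_self, hxc m hm] at this
      rw [this]; ring
  have hq : HasDerivAt (fun t : ℝ => 2 * t / (1 + t ^ 2)) 2 0 := by
    have h1 : HasDerivAt (fun t : ℝ => 1 + t ^ 2) (2 * 0) 0 := by
      have := (hasDerivAt_pow 2 (0:ℝ)).const_add 1
      refine this.congr_deriv ?_
      simp
    have h2 : HasDerivAt (fun t : ℝ => 2 * t) (2 * 1) 0 := (hasDerivAt_id 0).const_mul 2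
    have := h2.div h1 (by norm_num)
    refine this.congr_deriv ?_
    norm_num
  have e1 : pd i (christoffel (dg (M.entry k)) i j j) x = 2 := by
    unfold pd
    have : (fun t => christoffel (dg (M.entry k)) i j j (Function.update x i t))
        = fun t => 2 * t / (1 + t ^ 2) := by
      funext t
      rw [christoffel_diag (hposu i hi t), hpd i j hi hj, hent i i hi hi]
      simp only [if_neg (Ne.symm hij), if_true]
      have h3 : (1 + t ^ 2) ≠ 0 := by positivity
      field_simp
      ring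
    rw [this, hxc i hi]
    exact hq.deriv
  have e2 : pd j (christoffel (dg (M.entry k)) i i j) x = -2 := by
    unfold pd
    have : (fun t => christoffel (dg (M.entry k)) i i j (Function.update x j t))
        = fun t => -(2 * t / (1 + t ^ 2)) := by
      funext t
      rw [christoffel_diag (hposu j hj t), hpd j i hj hi, hent j i hj hi]
      simp only [if_neg (Ne.symm hij), if_neg hij, if_true]
      have h3 : (1 + t ^ 2) ≠ 0 := by positivity
      field_simp
      ring
    rw [this, hxc j hj]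
    exact hq.neg.deriv
  have hphi : phiR k x = 4 := by
    have := phiR_update k x hxc hi (x i)
    rw [Function.update_eq_self, hxc i hi] at this
    rw [this]; norm_num
  have hrad : ∀ l : Fin (k + 1), l ≠ 0 → pd 0 (fun y => M.entry k y l) x
      = 2 * M.f (x 0) * f1 (x 0) * 4 := by
    intro l hl
    simp only [rentry_ne M k hl]
    unfold pd
    simp only [Function.update_self, phiR_update_zero, hphi]
    exact ((sq_deriv hf1 (x 0)).mul_const _).deriv
  have hR : riemann (dg (M.entry k)) i i j j x = 4 - 4 * f1 (x 0) ^ 2 := by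
    unfold riemann
    rw [e1, e2, Finset.sum_eq_single 0]
    · have k1 : christoffel (dg (M.entry k)) i i 0 x = f1 (x 0) / M.f (x 0) := by
        rw [christoffel_diag hx i i 0, hrad i hi, rentry_ne M k hi, hphi]
        simp only [if_neg (Ne.symm hi), if_neg hi, if_true]
        field_simp
        ring
      have k2 : christoffel (dg (M.entry k)) 0 j j x = -(4 * M.f (x 0) * f1 (x 0)) := by
        rw [christoffel_diag hx 0 j j, hrad j hj, rentry_zero]
        simp only [if_neg hj, if_true]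
        ring
      have k3 : christoffel (dg (M.entry k)) i j 0 x = 0 := by
        rw [christoffel_diag hx i j 0]
        simp [Ne.symm hi, Ne.symm hij, hj]
      rw [k1, k2, k3]
      field_simp
      ring
    · intro m _ hm
      have k1 : christoffel (dg (M.entry k)) i i m x = 0 := by
        rw [christoffel_diag hx i i m, hpdx i m hi, hpdx m i hm, hpdx i i hi]
        simp
      have k3 : christoffel (dg (M.entry k)) i j m x = 0 := by
        rw [christoffel_diag hx i j m, hpdx j m hj, hpdx m j hm, hpdx i j hi]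
        simp
      rw [k1, k3]; ring
    · intro h; exact absurd (Finset.mem_univ _) h
  rw [hmet, sec_diag hx hij, hR, rentry_ne M k hj, hphi]
  field_simp

/-- displacement vectors -/
def rdisp (x y : Fin (k + 1) → ℝ) (m : Fin 5) (i : Fin (k + 1)) : ℝ :=
  if i = 0 then (if m = 0 then -x 0 else if m = 2 then y 0 else 0)
  else (if m = 1 then y i - x i else 0)

theorem RotMetric.dist_le {x y : Fin (k + 1) → ℝ} (hx : x 0 ∈ Icc 0 M.L)
    (hy : y 0 ∈ Icc 0 M.L) : M.dist k x y ≤ 2 * M.L := by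
  have hL := M.L_pos
  have f0 : M.f 0 = 0 := by
    have := M.odd_f 0
    rw [neg_zero] at this
    linarith
  set D := rdisp k x y with hD
  set γ := path5 x D with hγ
  have hmet : M.metric k = dg (M.entry k) := rfl
  have hD0 : ∀ m : Fin 5, D m 0 = (if m = 0 then -x 0 else if m = 2 then y 0 else 0) := by
    intro m; rw [hD]; unfold rdisp; simp
  have hγ0 : ∀ t, γ t 0 = x 0 * (1 - lg 0 t) + y 0 * lg 2 t := by
    intro t
    rw [hγ]
    unfold path5
    rw [Pi.add_apply, Finset.sum_apply, Fin.sum_univ_five]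
    simp only [Pi.smul_apply, hD0, smul_eq_mul]
    simp
    ring
  have hrad : ∀ (m : Fin 5), (m ≠ 1) →
      ∀ t ∈ Ioo ((m : ℝ) / 5) (((m : ℝ) + 1) / 5),
      √(ip (M.metric k) (γ t) (deriv γ t) (deriv γ t)) = 5 * |D m 0| := by
    intro m hm t ht
    obtain ⟨e1, _⟩ := path5_leg x D m ht
    rw [← hγ] at e1
    rw [e1, hmet, ip_dg, Finset.sum_eq_single 0]
    · rw [rentry_zero, one_mul, Pi.smul_apply, smul_eq_mul, Real.sqrt_sq_eq_abs, abs_mul]
      norm_num
    · intro i _ hi
      have : D m i = 0 := by rw [hD]; unfold rdisp; simp [hi, hm]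
      rw [Pi.smul_apply, this]
      simp
    · intro h; exact absurd (Finset.mem_univ _) h
  have hr0 : ∀ t ∈ Ioo (0:ℝ) (1 / 5), √(ip (M.metric k) (γ t) (deriv γ t) (deriv γ t))
      = 5 * |D 0 0| := fun t ht => hrad 0 (by simp) t (by
    have a1 := ht.1
    have a2 := ht.2
    constructor <;> norm_num <;> linarith)
  have hf1 : ∀ t ∈ Ioo (1 / 5 : ℝ) (2 / 5), √(ip (M.metric k) (γ t) (deriv γ t) (deriv γ t))
      = 0 := by
    intro t ht
    have a1 := ht.1
    have a2 := ht.2
    obtain ⟨e1, _⟩ := path5_leg x D 1 (t := t) (by constructor <;> norm_num <;> linarith)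
    rw [← hγ] at e1
    rw [e1, hmet, ip_dg, Finset.sum_eq_zero, Real.sqrt_zero]
    intro i _
    rw [Pi.smul_apply, smul_eq_mul]
    by_cases h0 : i = 0
    · subst h0
      rw [hD0]; simp
    · have hr : γ t 0 = 0 := by
        rw [hγ0, lg_right (k := 0) (by linarith), lg_left (k := 2) (by linarith)]
        ring
      rw [rentry_ne M k h0, hr, f0]; ring
  have hr2 : ∀ t ∈ Ioo (2 / 5 : ℝ) (3 / 5), √(ip (M.metric k) (γ t) (deriv γ t) (deriv γ t))
      = 5 * |D 2 0| := fun t ht => hrad 2 (by simp) t (by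
    have a1 := ht.1
    have a2 := ht.2
    constructor <;> norm_num <;> linarith)
  have hf3 : ∀ t ∈ Ioo (3 / 5 : ℝ) (4 / 5), √(ip (M.metric k) (γ t) (deriv γ t) (deriv γ t))
      = 5 * |D 3 0| := fun t ht => hrad 3 (by simp) t (by
    have a1 := ht.1
    have a2 := ht.2
    constructor <;> norm_num <;> linarith)
  have hr4 : ∀ t ∈ Ioo (4 / 5 : ℝ) 1, √(ip (M.metric k) (γ t) (deriv γ t) (deriv γ t))
      = 5 * |D 4 0| := fun t ht => hrad 4 (by simp) t (by
    have a1 := ht.1
    have a2 := ht.2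
    constructor <;> norm_num <;> linarith)
  obtain ⟨i0, j0⟩ := integral_const_Ioo (by norm_num) hr0
  obtain ⟨i1, j1⟩ := integral_const_Ioo (by norm_num) hf1
  obtain ⟨i2, j2⟩ := integral_const_Ioo (by norm_num) hr2
  obtain ⟨i3, j3⟩ := integral_const_Ioo (by norm_num) hf3
  obtain ⟨i4, j4⟩ := integral_const_Ioo (by norm_num) hr4
  have hlen : curveLen (M.metric k) γ = |D 0 0| + |D 2 0| + |D 3 0| + |D 4 0| := by
    unfold curveLen
    rw [← intervalIntegral.integral_add_adjacent_intervals (((i0.trans i1).trans i2).trans i3) i4,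
      ← intervalIntegral.integral_add_adjacent_intervals ((i0.trans i1).trans i2) i3,
      ← intervalIntegral.integral_add_adjacent_intervals (i0.trans i1) i2,
      ← intervalIntegral.integral_add_adjacent_intervals i0 i1, j0, j1, j2, j3, j4]
    ring
  have d0 : |D 0 0| = x 0 := by
    rw [hD0]; simp [abs_of_nonneg hx.1]
  have d2 : |D 2 0| = y 0 := by
    rw [hD0]; simp [abs_of_nonneg hy.1]
  have d3 : |D 3 0| = 0 := by
    rw [hD0]; simp
  have d4 : |D 4 0| = 0 := by
    rw [hD0]; simp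
  have hmem : ∀ t ∈ Icc (0:ℝ) 1, γ t 0 ∈ Icc 0 M.L := by
    intro t _
    rw [hγ0]
    have a0 := lg_nonneg 0 t
    have b0 := lg_le 0 t
    have a2 := lg_nonneg 2 t
    have b2 := lg_le 2 t
    have hx1 := hx.1
    have hx2 := hx.2
    have hy1 := hy.1
    have hy2 := hy.2
    rcases le_total (5 * t) 2 with h | h
    · rw [lg_left (k := 2) h]
      constructor
      · have := mul_nonneg hx1 (sub_nonneg.mpr b0)
        linarith
      · have := mul_le_mul hx2 (by linarith : 1 - lg 0 t ≤ 1) (by linarith) hL.le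
        linarith
    · rw [lg_right (k := 0) (by linarith)]
      constructor
      · have := mul_nonneg hy1 a2
        linarith
      · have := mul_le_mul hy2 b2 a2 hL.le
        linarith
  have hbdd : BddBelow {l | ∃ γ : ℝ → Fin (k + 1) → ℝ, (∃ K, LipschitzWith K γ) ∧
      (∀ t ∈ Icc (0:ℝ) 1, γ t 0 ∈ Icc 0 M.L) ∧ γ 0 = x ∧ γ 1 = y ∧
      l = curveLen (M.metric k) γ} := by
    refine ⟨0, ?_⟩
    rintro l ⟨γ, _, _, _, _, rfl⟩
    exact intervalIntegral.integral_nonneg (by norm_num) (fun t _ => Real.sqrt_nonneg _)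
  have h1 : M.dist k x y ≤ curveLen (M.metric k) γ := by
    refine csInf_le hbdd ⟨γ, path5_lip x D, hmem, path5_zero x D, ?_, rfl⟩
    rw [hγ, path5_one, hD]
    funext i
    rw [Pi.add_apply, Finset.sum_apply, Fin.sum_univ_five]
    unfold rdisp
    by_cases h0 : i = 0
    · subst h0; simp
    · simp [h0]
  rw [hlen, d0, d2, d3, d4] at h1
  linarith [hx.2, hy.2]

theorem RotMetric.dist_nonneg (x y : Fin (k + 1) → ℝ) : 0 ≤ M.dist k x y := by
  apply Real.sInf_nonneg
  rintro l ⟨γ, _, _, _, _, rfl⟩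
  exact intervalIntegral.integral_nonneg (by norm_num) (fun t _ => Real.sqrt_nonneg _)

theorem RotMetric.diam_le : M.diam k ≤ 2 * M.L := by
  apply csSup_le
  · exact ⟨_, 0, 0, ⟨le_rfl, M.L_pos.le⟩, ⟨le_rfl, M.L_pos.le⟩, rfl⟩
  · rintro d ⟨x, y, hx, hy, rfl⟩
    exact M.dist_le k hx hy

theorem RotMetric.diam_nonneg : 0 ≤ M.diam k := by
  apply Real.sSup_nonneg
  rintro d ⟨x, y, _, _, rfl⟩
  exact M.dist_nonneg k x y

theorem RotMetric.volume_ge {κ r1 r2 : ℝ} (hκ : 0 < κ) (h1 : 0 < r1) (h2 : r2 < M.L)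
    (_h12 : r1 ≤ r2) (hf : ∀ r ∈ Icc r1 r2, κ ≤ M.f r) :
    ENNReal.ofReal ((κ * (2 / (1 + ((k + 1 : ℕ) : ℝ)))) ^ k * (r2 - r1)) ≤ M.volume k := by
  have hL := M.L_pos
  set lo : Fin (k + 1) → ℝ := fun i => if i = 0 then r1 else 0 with hlo
  set hi : Fin (k + 1) → ℝ := fun i => if i = 0 then r2 else 1 with hhi
  set cst : ℝ := κ * (2 / (1 + ((k + 1 : ℕ) : ℝ))) with hcst
  have hcpos : 0 < cst := by positivity
  have hsub : Icc lo hi ⊆ {x : Fin (k + 1) → ℝ | x 0 ∈ Ioo 0 M.L} := by
    intro x hx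
    have h1' := hx.1 0
    have h2' := hx.2 0
    simp only [hlo, hhi, if_true] at h1' h2'
    exact ⟨by linarith, by linarith⟩
  have hdet : ∀ x ∈ Icc lo hi, cst ^ k ≤ √((M.metric k x).det) := by
    intro x hx
    have hx0 : x 0 ∈ Icc r1 r2 := by
      have h1' := hx.1 0
      have h2' := hx.2 0
      simp only [hlo, hhi, if_true] at h1' h2'
      exact ⟨h1', h2'⟩
    have hxj : ∀ j : Fin (k + 1), 1 ≤ j.val → x j ∈ Icc (0:ℝ) 1 := by
      intro j hj
      have hj0 : j ≠ 0 := by rintro rfl; simp at hj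
      have h1' := hx.1 j
      have h2' := hx.2 j
      simp only [hlo, hhi, if_neg hj0] at h1' h2'
      exact ⟨h1', h2'⟩
    have hfx := hf (x 0) hx0
    have hent : ∀ i : Fin k, cst ^ 2 ≤ M.entry k x i.succ := by
      intro i
      rw [rentry_ne M k (Fin.succ_ne_zero i), hcst, mul_pow]
      apply mul_le_mul (pow_le_pow_left₀ hκ.le hfx 2) _ (by positivity) (by positivity)
      unfold phiR
      exact phi_lower (fun j : Fin (k + 1) => 1 ≤ j.val) hxj
    apply Real.le_sqrt_of_sq_le
    have e : (M.metric k x).det = ∏ i, M.entry k x i := Matrix.det_diagonal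
    rw [e, Fin.prod_univ_succ, rentry_zero, one_mul]
    calc (cst ^ k) ^ 2 = ∏ _i : Fin k, cst ^ 2 := by
          rw [Finset.prod_const, Finset.card_univ, Fintype.card_fin]; ring
      _ ≤ ∏ i : Fin k, M.entry k x i.succ :=
          Finset.prod_le_prod (fun i _ => by positivity) (fun i _ => hent i)
  have hvol : MeasureTheory.volume (Icc lo hi) = ENNReal.ofReal (r2 - r1) := by
    rw [Real.volume_Icc_pi, Fin.prod_univ_succ]
    have e1 : ∀ i : Fin k, ENNReal.ofReal (hi i.succ - lo i.succ) = 1 := by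
      intro i
      simp [hlo, hhi]
    simp only [e1, Finset.prod_const_one, mul_one]
    congr 1
  unfold RotMetric.volume
  calc ENNReal.ofReal (cst ^ k * (r2 - r1))
      = ENNReal.ofReal (cst ^ k) * MeasureTheory.volume (Icc lo hi) := by
        rw [hvol, ENNReal.ofReal_mul (by positivity)]
    _ = ∫⁻ _x in Icc lo hi, ENNReal.ofReal (cst ^ k) := by
        rw [setLIntegral_const]
    _ ≤ ∫⁻ x in Icc lo hi, ENNReal.ofReal (√((M.metric k x).det)) := by
        apply setLIntegral_mono' measurableSet_Icc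
        intro x hx
        exact ENNReal.ofReal_le_ofReal (hdet x hx)
    _ ≤ _ := lintegral_mono_set hsub

/-- noncollapsing of rotationally symmetric metrics -/
theorem rot_noncollapse (k : ℕ) (hk : 2 ≤ k) (δ : ℝ) (hδ : 0 < δ) :
    ∃ ε : ℝ, 0 < ε ∧ ∀ M : RotMetric,
      (∀ x : Fin (k + 1) → ℝ, x 0 ∈ Ioo 0 M.L → PinchedAt δ (M.metric k) x) →
      ENNReal.ofReal (ε * M.diam k ^ (k + 1)) ≤ M.volume k := by
  set B : ℝ := 4 + 4 / (3 * δ) with hB
  have hBpos : 0 < B := by positivity
  set A : ℝ := (1 / (2 * B) * (2 / (1 + ((k + 1 : ℕ) : ℝ)))) ^ k / 2 with hA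
  have hApos : 0 < A := by positivity
  refine ⟨A / 2 ^ (k + 1), by positivity, fun M hM => ?_⟩
  have hL := M.L_pos
  have hf1 := cd2_hasDeriv M.smooth_f
  have hf2 := cd2_hasDeriv2 M.smooth_f
  have hcf := M.smooth_f.continuous
  have f0 : M.f 0 = 0 := by
    have := M.odd_f 0
    rw [neg_zero] at this
    linarith
  have fL : M.f M.L = 0 := by
    have := M.odd_f' 0
    rw [add_zero, sub_zero] at this
    linarith
  -- curvatures
  set i : Fin (k + 1) := ⟨1, by omega⟩ with hi
  set j : Fin (k + 1) := ⟨2, by omega⟩ with hj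
  have hiv : i.val = 1 := rfl
  have hjv : j.val = 2 := rfl
  have i0 : i ≠ 0 := by
    intro h
    have := congrArg Fin.val h
    rw [hiv] at this
    simp at this
  have j0 : j ≠ 0 := by
    intro h
    have := congrArg Fin.val h
    rw [hjv] at this
    simp at this
  have hij : i ≠ j := by
    intro h
    have := congrArg Fin.val h
    rw [hiv, hjv] at this
    omega
  have key : ∀ r ∈ Ioo 0 M.L, 0 < -deriv (deriv M.f) r / M.f r ∧
      δ * ((1 - deriv M.f r ^ 2) / M.f r ^ 2) ≤ -deriv (deriv M.f) r / M.f r := by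
    intro r hr
    set x : Fin (k + 1) → ℝ := fun i => if i = 0 then r else 0 with hx
    have hx0 : x 0 = r := by simp [hx]
    have hxc : ∀ j : Fin (k + 1), j ≠ 0 → x j = 0 := fun j hj => by simp [hx, hj]
    have hfx : 0 < M.f (x 0) := by rw [hx0]; exact M.f_pos r hr
    have P := hM x (by rw [hx0]; exact hr)
    have s1 := rsec_radial M k hf1 hf2 hcf hfx i0
    have s2 := rsec_tangential M k hf1 hxc hfx i0 j0 hij
    rw [hx0] at s1 s2
    have a1 := (P _ _ _ _ (indep_single (Ne.symm i0)) (indep_single (Ne.symm i0))).1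
    have a2 := (P _ _ _ _ (indep_single (Ne.symm i0)) (indep_single hij)).2
    rw [s1] at a1 a2
    rw [s2] at a2
    exact ⟨a1, a2.le⟩
  -- maximum
  obtain ⟨rs, hrs, hmax⟩ := isCompact_Icc.exists_isMaxOn (nonempty_Icc.mpr hL.le)
    (hcf.continuousOn (s := Icc 0 M.L))
  set m := M.f rs with hm
  have hle : ∀ r ∈ Icc 0 M.L, M.f r ≤ m := fun r hr => hmax hr
  have hmpos : 0 < m := by
    have h1 := M.f_pos (M.L / 2) ⟨by linarith, by linarith⟩
    have h2 := hle (M.L / 2) ⟨by linarith, by linarith⟩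
    linarith
  have hrs' : rs ∈ Ioo 0 M.L := by
    refine ⟨lt_of_le_of_ne hrs.1 ?_, lt_of_le_of_ne hrs.2 ?_⟩
    · intro h
      rw [hm, ← h, f0] at hmpos
      exact lt_irrefl _ hmpos
    · intro h
      rw [hm, h, fL] at hmpos
      exact lt_irrefl _ hmpos
  have hbound := rot_bound hL hδ hmpos hf1 hf2 f0 fL M.f_unit M.f_unit' M.f_pos hle
    (fun r hr => (key r hr).1) (fun r hr => (key r hr).2)
  -- concavity
  have hconc : ConcaveOn ℝ (Icc 0 M.L) M.f := by
    have hanti : AntitoneOn (deriv M.f) (Ioo 0 M.L) := by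
      refine antitoneOn_of_deriv_nonpos (convex_Ioo _ _)
        (fun r _ => (hf2 r).continuousAt.continuousWithinAt)
        (fun r _ => (hf2 r).differentiableAt.differentiableWithinAt) ?_
      intro r hr
      rw [interior_Ioo] at hr
      have := (div_pos_iff_of_pos_right (M.f_pos r hr)).mp (key r hr).1
      linarith
    refine AntitoneOn.concaveOn_of_deriv (convex_Icc _ _) hcf.continuousOn
      (fun r _ => (hf1 r).differentiableAt.differentiableWithinAt) ?_
    rw [interior_Icc]
    exact hanti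
  have hhalf : ∀ x ∈ Icc (rs / 2) ((rs + M.L) / 2), m / 2 ≤ M.f x := by
    intro x hx
    have h0 : (0:ℝ) ∈ Icc 0 M.L := ⟨le_rfl, hL.le⟩
    have hLm : M.L ∈ Icc 0 M.L := ⟨hL.le, le_rfl⟩
    rcases le_total x rs with hxr | hxr
    · have hr0 := hrs'.1
      have hb : x / rs ≤ 1 := by rw [div_le_one hr0]; exact hxr
      have hb2 : 1 / 2 ≤ x / rs := by rw [le_div_iff₀ hr0]; linarith [hx.1]
      have hw1 : 0 ≤ 1 - x / rs := by linarith
      have hw2 : 0 ≤ x / rs := by linarith
      have hw3 : 1 - x / rs + x / rs = 1 := by ring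
      have hcv := hconc.2 h0 hrs hw1 hw2 hw3
      simp only [smul_eq_mul, mul_zero, zero_add, f0] at hcv
      rw [div_mul_cancel₀ _ hr0.ne'] at hcv
      nlinarith
    · have hLr : 0 < M.L - rs := by linarith [hrs'.2]
      have hb : (M.L - x) / (M.L - rs) ≤ 1 := by rw [div_le_one hLr]; linarith
      have hb2 : 1 / 2 ≤ (M.L - x) / (M.L - rs) := by rw [le_div_iff₀ hLr]; linarith [hx.2]
      have hw1 : 0 ≤ 1 - (M.L - x) / (M.L - rs) := by linarith
      have hw2 : 0 ≤ (M.L - x) / (M.L - rs) := by linarith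
      have hw3 : 1 - (M.L - x) / (M.L - rs) + (M.L - x) / (M.L - rs) = 1 := by ring
      have hcv := hconc.2 hLm hrs hw1 hw2 hw3
      have ex : (1 - (M.L - x) / (M.L - rs)) • M.L + ((M.L - x) / (M.L - rs)) • rs = x := by
        simp only [smul_eq_mul]
        field_simp
        ring
      rw [ex] at hcv
      simp only [smul_eq_mul, fL] at hcv
      nlinarith
  have h3 := M.volume_ge k (κ := m / 2) (r1 := rs / 2) (r2 := (rs + M.L) / 2) (by positivity)
    (by linarith [hrs'.1]) (by linarith [hrs'.2]) (by linarith [hrs'.2]) hhalf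
  refine le_trans (ENNReal.ofReal_le_ofReal ?_) h3
  have h4 := M.diam_le k
  have h5 := M.diam_nonneg k
  have h6 : M.diam k ^ (k + 1) ≤ (2 * M.L) ^ (k + 1) := pow_le_pow_left₀ h5 h4 _
  have h7 : M.L * (1 / (2 * B)) ≤ m / 2 := by
    have : M.L ≤ B * m := hbound
    rw [mul_one_div, div_le_iff₀ (by positivity)]
    linarith
  calc A / 2 ^ (k + 1) * M.diam k ^ (k + 1)
      ≤ A / 2 ^ (k + 1) * (2 * M.L) ^ (k + 1) :=
        mul_le_mul_of_nonneg_left h6 (by positivity)
    _ = A * M.L ^ (k + 1) := by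
        rw [mul_pow]
        field_simp
    _ = (M.L * (1 / (2 * B)) * (2 / (1 + ((k + 1 : ℕ) : ℝ)))) ^ k * (M.L / 2) := by
        have : M.L * (1 / (2 * B)) * (2 / (1 + ((k + 1 : ℕ) : ℝ)))
            = M.L * (1 / (2 * B) * (2 / (1 + ((k + 1 : ℕ) : ℝ)))) := by ring
        rw [hA, pow_succ, this, mul_pow M.L]
        generalize (1 / (2 * B) * (2 / (1 + ((k + 1 : ℕ) : ℝ)))) ^ k = Q
        generalize M.L ^ k = C
        ring
    _ ≤ (m / 2 * (2 / (1 + ((k + 1 : ℕ) : ℝ)))) ^ k * ((rs + M.L) / 2 - rs / 2) := by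
        have e : (rs + M.L) / 2 - rs / 2 = M.L / 2 := by ring
        rw [e]
        apply mul_le_mul_of_nonneg_right _ (by linarith)
        apply pow_le_pow_left₀ (by positivity)
        exact mul_le_mul_of_nonneg_right h7 (by positivity)

end

end Pool.Agent.QPinch
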