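import Pool.Agent.QPinch.WarpDefs

/-!
Metrics on the sphere of dimension k + 1 invariant under SO(k+1).
-/

open Set MeasureTheory

namespace Pool.Agent.QPinch

noncomputable section

/-- A rotationally symmetric Riemannian metric of class C^2 on a sphere, of the form
dr^2 + f(r)^2 g_(S^k), where r runs from one pole at time 0 to the other pole at time L; the
function f extends to the line and is odd at 0 and at L. -/
structure RotMetric where
  L : ℝ
  f : ℝ → ℝ
  L_pos : 0 < L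
  smooth_f : ContDiff ℝ 2 f
  odd_f : ∀ r, f (-r) = -f r
  odd_f' : ∀ r, f (L + r) = -f (L - r)
  f_unit : deriv f 0 = 1
  f_unit' : deriv f L = -1
  f_pos : ∀ r ∈ Ioo 0 L, 0 < f r

/-- the squared length of the coordinate field with index i at x. Coordinate 0 is r, coordinates
1, ..., k are stereographic coordinates on S^k -/
def RotMetric.entry (M : RotMetric) (k : ℕ) (x : Fin (k + 1) → ℝ) (i : Fin (k + 1)) : ℝ :=
  if i.val = 0 then 1
  else M.f (x 0) ^ 2 * (2 / (1 + ∑ j, if 1 ≤ j.val then x j ^ 2 else 0)) ^ 2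

/-- the metric in these coordinates -/
def RotMetric.metric (M : RotMetric) (k : ℕ) (x : Fin (k + 1) → ℝ) :
    Matrix (Fin (k + 1)) (Fin (k + 1)) ℝ :=
  Matrix.diagonal (M.entry k x)

/-- distance: infimum of the lengths of the Lipschitz curves from x to y in the coordinates -/
def RotMetric.dist (M : RotMetric) (k : ℕ) (x y : Fin (k + 1) → ℝ) : ℝ :=
  sInf {l | ∃ γ : ℝ → Fin (k + 1) → ℝ, (∃ K, LipschitzWith K γ) ∧
    (∀ t ∈ Icc (0:ℝ) 1, γ t 0 ∈ Icc 0 M.L) ∧ γ 0 = x ∧ γ 1 = y ∧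
    l = curveLen (M.metric k) γ}

/-- diameter -/
def RotMetric.diam (M : RotMetric) (k : ℕ) : ℝ :=
  sSup {d | ∃ x y : Fin (k + 1) → ℝ, x 0 ∈ Icc 0 M.L ∧ y 0 ∈ Icc 0 M.L ∧ d = M.dist k x y}

/-- volume -/
def RotMetric.volume (M : RotMetric) (k : ℕ) : ENNReal :=
  ∫⁻ x in {x : Fin (k + 1) → ℝ | x 0 ∈ Ioo 0 M.L}, ENNReal.ofReal (√((M.metric k x).det))

end

end Pool.Agent.QPinch
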