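import Pool.Agent.QPinch.Defs

/-!
Torus-invariant metrics on the 3-sphere: distance, diameter and volume.
-/

open Set

namespace Pool.Agent.QPinch

noncomputable section

/-- A Riemannian metric of class C^2 on the 3-sphere, the unit sphere of pairs (z, w) of complex
numbers, invariant under the torus acting by (exp(i x) z, exp(i y) w). It is recorded by its
restriction to a unit speed geodesic orthogonal to the orbits, which runs from the circle z = 0 at
time 0 to the circle w = 0 at time L: a, b are the squared lengths of the two rotation fields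
d/dx, d/dy and c is their inner product. Away from the two circles the metric is
dr^2 + a dx^2 + 2 c dx dy + b dy^2, and the functions extend to the whole line as even functions
of period 2 L, because the geodesic is reflected by half-turns in x and in y at its two ends. -/
structure TorusMetric where
  L : ℝ
  a : ℝ → ℝ
  b : ℝ → ℝ
  c : ℝ → ℝ
  L_pos : 0 < L
  smooth_a : ContDiff ℝ 2 a
  smooth_b : ContDiff ℝ 2 b
  smooth_c : ContDiff ℝ 2 c
  even_a : ∀ r, a (-r) = a r
  even_b : ∀ r, b (-r) = b r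
  even_c : ∀ r, c (-r) = c r
  per_a : ∀ r, a (r + 2 * L) = a r
  per_b : ∀ r, b (r + 2 * L) = b r
  per_c : ∀ r, c (r + 2 * L) = c r
  a_zero : a 0 = 0
  a_unit : deriv (deriv a) 0 = 2
  c_zero : c 0 = 0
  b_pos : 0 < b 0
  b_end : b L = 0
  b_unit : deriv (deriv b) L = 2
  c_end : c L = 0
  a_pos : 0 < a L
  posdef : ∀ r ∈ Ioo 0 L, 0 < a r ∧ 0 < a r * b r - c r ^ 2

/-- the metric in the coordinates (r, x, y) -/
def TorusMetric.metric (M : TorusMetric) (x : Fin 3 → ℝ) : Matrix (Fin 3) (Fin 3) ℝ :=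
  !![1, 0, 0; 0, M.a (x 0), M.c (x 0); 0, M.c (x 0), M.b (x 0)]

/-- length of a curve parametrised by the unit interval -/
def curveLength {n : ℕ} (g : (Fin n → ℝ) → Matrix (Fin n) (Fin n) ℝ) (γ : ℝ → Fin n → ℝ) : ℝ :=
  ∫ t in (0:ℝ)..1, √(ip g (γ t) (deriv γ t) (deriv γ t))

/-- γ is a Lipschitz curve in the sphere from the point with coordinates x to the point with
coordinates y; the two angles are taken modulo full turns -/
def TorusMetric.Joins (M : TorusMetric) (x y : Fin 3 → ℝ) (γ : ℝ → Fin 3 → ℝ) : Prop :=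
  (∃ K, LipschitzWith K γ) ∧ (∀ t ∈ Icc (0:ℝ) 1, γ t 0 ∈ Icc 0 M.L) ∧ γ 0 = x ∧
    ∃ m n : ℤ, γ 1 = ![y 0, y 1 + 2 * Real.pi * m, y 2 + 2 * Real.pi * n]

/-- Riemannian distance -/
def TorusMetric.dist (M : TorusMetric) (x y : Fin 3 → ℝ) : ℝ :=
  sInf {l | ∃ γ, M.Joins x y γ ∧ l = curveLength M.metric γ}

/-- diameter -/
def TorusMetric.diam (M : TorusMetric) : ℝ :=
  sSup {d | ∃ x y : Fin 3 → ℝ, x 0 ∈ Icc 0 M.L ∧ y 0 ∈ Icc 0 M.L ∧ d = M.dist x y}

/-- volume -/
def TorusMetric.volume (M : TorusMetric) : ℝ :=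
  ∫ r in (0:ℝ)..M.L, ∫ x in (0:ℝ)..(2 * Real.pi), ∫ y in (0:ℝ)..(2 * Real.pi),
    √((M.metric ![r, x, y]).det)

end

end Pool.Agent.QPinch
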