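import Pool.Agent.QPinch.Link
import Pool.Agent.QPinch.TorusDefs
import Pool.Agent.QPinch.Curve

/-!
Proof of the volume bound for torus-invariant metrics on the 3-sphere.
-/

open Set Filter Topology MeasureTheory

namespace Pool.Agent.QPinch

noncomputable section

variable (M : TorusMetric)

theorem TorusMetric.metric_eq : M.metric = torusMetric M.a M.b M.c := rfl

theorem hasDeriv_of {f : ℝ → ℝ} (hf : ContDiff ℝ 2 f) (r : ℝ) : HasDerivAt f (deriv f r) r :=
  (hf.differentiable (by norm_num) r).hasDerivAt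

theorem hasDeriv2_of {f : ℝ → ℝ} (hf : ContDiff ℝ 2 f) (r : ℝ) :
    HasDerivAt (deriv f) (deriv (deriv f) r) r := by
  have h1 : ContDiff ℝ 1 (deriv f) := by
    have : ContDiff ℝ (1 + 1) f := by norm_num; exact hf
    exact (contDiff_succ_iff_deriv.mp this).2.2
  exact (h1.differentiable (by norm_num) r).hasDerivAt

theorem deriv_even {f : ℝ → ℝ} (hf : ∀ r, f (-r) = f r) : deriv f 0 = 0 := by
  have h : deriv (fun r => f (-r)) 0 = -deriv f (-0) := deriv_comp_neg f 0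
  have h2 : (fun r => f (-r)) = f := funext hf
  rw [h2, neg_zero] at h
  linarith

theorem refl_end {f : ℝ → ℝ} {L : ℝ} (hf : ∀ r, f (-r) = f r) (hp : ∀ r, f (r + 2 * L) = f r)
    (r : ℝ) : f (L - -r) = f (L - r) := by
  have h1 : f (L - -r) = f (-(L - -r)) := (hf _).symm
  have h2 : f (-(L - -r)) = f (-(L - -r) + 2 * L) := (hp _).symm
  rw [h1, h2]
  congr 1
  ring

theorem deriv_end {f : ℝ → ℝ} {L : ℝ} (hs : ContDiff ℝ 2 f) (hf : ∀ r, f (-r) = f r)
    (hp : ∀ r, f (r + 2 * L) = f r) : deriv f L = 0 := by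
  have h0 : deriv (fun r => f (L - r)) 0 = 0 := deriv_even (fun r => refl_end hf hp r)
  have h1 : HasDerivAt (fun r => f (L - r)) (-deriv f (L - 0)) 0 := by
    have := (hasDeriv_of hs (L - 0)).comp_const_sub L 0
    exact this
  rw [h1.deriv, sub_zero] at h0
  linarith

theorem TorusMetric.side : Side M.L M.a M.b M.c (deriv M.a) (deriv M.b) (deriv M.c)
    (deriv (deriv M.a)) (deriv (deriv M.b)) (deriv (deriv M.c)) where
  L_pos := M.L_pos
  ha := hasDeriv_of M.smooth_a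
  hb := hasDeriv_of M.smooth_b
  hc := hasDeriv_of M.smooth_c
  ha1 := hasDeriv2_of M.smooth_a
  hb1 := hasDeriv2_of M.smooth_b
  hc1 := hasDeriv2_of M.smooth_c
  a0 := M.a_zero
  a10 := deriv_even M.even_a
  a20 := M.a_unit
  c0 := M.c_zero
  c10 := deriv_even M.even_c
  b10 := deriv_even M.even_b
  b0 := M.b_pos
  apos r hr := (M.posdef r hr).1
  Dpos r hr := (M.posdef r hr).2

theorem hd_refl {f f' : ℝ → ℝ} (h : ∀ r, HasDerivAt f (f' r) r) (L r : ℝ) :
    HasDerivAt (fun r => f (L - r)) (-f' (L - r)) r := (h (L - r)).comp_const_sub L r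

theorem hd_refl_neg {f f' : ℝ → ℝ} (h : ∀ r, HasDerivAt f (f' r) r) (L r : ℝ) :
    HasDerivAt (fun r => -f (L - r)) (f' (L - r)) r := by
  have := (hd_refl h L r).neg
  rwa [neg_neg] at this

theorem TorusMetric.side' : Side M.L (fun r => M.b (M.L - r)) (fun r => M.a (M.L - r))
    (fun r => M.c (M.L - r)) (fun r => -deriv M.b (M.L - r)) (fun r => -deriv M.a (M.L - r))
    (fun r => -deriv M.c (M.L - r)) (fun r => deriv (deriv M.b) (M.L - r))
    (fun r => deriv (deriv M.a) (M.L - r)) (fun r => deriv (deriv M.c) (M.L - r)) where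
  L_pos := M.L_pos
  ha := hd_refl (hasDeriv_of M.smooth_b) M.L
  hb := hd_refl (hasDeriv_of M.smooth_a) M.L
  hc := hd_refl (hasDeriv_of M.smooth_c) M.L
  ha1 := hd_refl_neg (hasDeriv2_of M.smooth_b) M.L
  hb1 := hd_refl_neg (hasDeriv2_of M.smooth_a) M.L
  hc1 := hd_refl_neg (hasDeriv2_of M.smooth_c) M.L
  a0 := by simp [M.b_end]
  a10 := by simp [deriv_end M.smooth_b M.even_b M.per_b]
  a20 := by simp [M.b_unit]
  c0 := by simp [M.c_end]
  c10 := by simp [deriv_end M.smooth_c M.even_c M.per_c]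
  b10 := by simp [deriv_end M.smooth_a M.even_a M.per_a]
  b0 := by simpa using M.a_pos
  apos r hr := by
    have h := M.posdef (M.L - r) (refl_mem hr)
    have h2 : 0 < M.a (M.L - r) * M.b (M.L - r) := by
      have := sq_nonneg (M.c (M.L - r))
      linarith [h.2]
    exact (pos_iff_pos_of_mul_pos h2).mp h.1
  Dpos r hr := by
    have h := M.posdef (M.L - r) (refl_mem hr)
    rw [mul_comm (M.b (M.L - r))]
    exact h.2

theorem TorusMetric.volume_eq :
    M.volume = 4 * Real.pi ^ 2 * ∫ r in (0:ℝ)..M.L, √(M.a r * M.b r - M.c r ^ 2) := by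
  unfold TorusMetric.volume
  have h : ∀ r x y : ℝ, (M.metric ![r, x, y]).det = M.a r * M.b r - M.c r ^ 2 := by
    intro r x y
    simp [TorusMetric.metric, Matrix.det_fin_three]
    ring
  simp only [h, intervalIntegral.integral_const, smul_eq_mul, sub_zero]
  rw [← intervalIntegral.integral_const_mul]
  congr 1
  ext r
  ring

/-- any two points are joined by a curve of length at most (2 + π) L -/
theorem TorusMetric.dist_le (hb : √(M.b 0) ≤ M.L) {x y : Fin 3 → ℝ} (hx : x 0 ∈ Icc 0 M.L)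
    (hy : y 0 ∈ Icc 0 M.L) : M.dist x y ≤ (2 + Real.pi) * M.L := by
  obtain ⟨n, hn⟩ : ∃ n : ℤ, |y 2 + 2 * Real.pi * n - x 2| ≤ Real.pi := by
    refine ⟨-round ((y 2 - x 2) / (2 * Real.pi)), ?_⟩
    have h := abs_sub_round ((y 2 - x 2) / (2 * Real.pi))
    have hpi := Real.pi_pos
    have e : y 2 + 2 * Real.pi * ((-round ((y 2 - x 2) / (2 * Real.pi)) : ℤ) : ℝ) - x 2
        = 2 * Real.pi * ((y 2 - x 2) / (2 * Real.pi) - round ((y 2 - x 2) / (2 * Real.pi))) := by
      push_cast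
      field_simp
      ring
    rw [e, abs_mul, abs_of_pos (by positivity : 0 < 2 * Real.pi)]
    nlinarith
  set d1 := y 1 - x 1 with hd1
  set d2 := y 2 + 2 * Real.pi * n - x 2 with hd2
  set γ := path3 (x 0) (y 0) (x 1) (x 2) d1 d2 with hγ
  have hJ : M.Joins x y γ := by
    refine ⟨lip_path3 _ _ _ _ _ _, fun t ht => path3_mem hx hy _ _ _ _ ht, ?_, 0, n, ?_⟩
    · rw [hγ, path3_zero]
      ext i; fin_cases i <;> rfl
    · rw [hγ, path3_one]
      ext i
      fin_cases i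
      · rfl
      · simp [hd1]
      · simp [hd2]
  have hlen : curveLength M.metric γ = x 0 + √(M.b 0) * |d2| + y 0 := by
    unfold curveLength
    have hA : ∀ t ∈ Ioo (0:ℝ) (1 / 3), √(ip M.metric (γ t) (deriv γ t) (deriv γ t)) = 3 * x 0 := by
      intro t ht
      obtain ⟨e1, e2⟩ := deriv_path3_A (x 0) (y 0) (x 1) (x 2) d1 d2 ht
      rw [← hγ] at e1 e2
      rw [e1, e2]
      have : ip M.metric ![x 0 * (1 - 3 * t), x 1, x 2] ![-3 * x 0, 0, 0] ![-3 * x 0, 0, 0]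
          = (3 * x 0) ^ 2 := by
        simp [ip, Fin.sum_univ_three, TorusMetric.metric]
        ring
      rw [this, Real.sqrt_sq (by linarith [hx.1])]
    have hB : ∀ t ∈ Ioo (1 / 3 : ℝ) (2 / 3), √(ip M.metric (γ t) (deriv γ t) (deriv γ t))
        = 3 * (√(M.b 0) * |d2|) := by
      intro t ht
      obtain ⟨e1, e2⟩ := deriv_path3_B (x 0) (y 0) (x 1) (x 2) d1 d2 ht
      rw [← hγ] at e1 e2
      rw [e1, e2]
      have : ip M.metric ![0, x 1 + d1 * (3 * t - 1), x 2 + d2 * (3 * t - 1)]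
          ![0, 3 * d1, 3 * d2] ![0, 3 * d1, 3 * d2] = M.b 0 * (3 * d2) ^ 2 := by
        simp [ip, Fin.sum_univ_three, TorusMetric.metric, M.a_zero, M.c_zero]
        ring
      rw [this, Real.sqrt_mul M.b_pos.le, Real.sqrt_sq_eq_abs, abs_mul]
      norm_num
      ring
    have hC : ∀ t ∈ Ioo (2 / 3 : ℝ) 1, √(ip M.metric (γ t) (deriv γ t) (deriv γ t)) = 3 * y 0 := by
      intro t ht
      obtain ⟨e1, e2⟩ := deriv_path3_C (x 0) (y 0) (x 1) (x 2) d1 d2 ht
      rw [← hγ] at e1 e2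
      rw [e1, e2]
      have : ip M.metric ![y 0 * (3 * t - 2), x 1 + d1, x 2 + d2] ![3 * y 0, 0, 0] ![3 * y 0, 0, 0]
          = (3 * y 0) ^ 2 := by
        simp [ip, Fin.sum_univ_three, TorusMetric.metric]
        ring
      rw [this, Real.sqrt_sq (by linarith [hy.1])]
    obtain ⟨iA, jA⟩ := integral_const_Ioo (by norm_num : (0:ℝ) ≤ 1 / 3) hA
    obtain ⟨iB, jB⟩ := integral_const_Ioo (by norm_num : (1 / 3 : ℝ) ≤ 2 / 3) hB
    obtain ⟨iC, jC⟩ := integral_const_Ioo (by norm_num : (2 / 3 : ℝ) ≤ 1) hC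
    rw [← intervalIntegral.integral_add_adjacent_intervals (iA.trans iB) iC,
      ← intervalIntegral.integral_add_adjacent_intervals iA iB, jA, jB, jC]
    ring
  have hbdd : BddBelow {l | ∃ γ, M.Joins x y γ ∧ l = curveLength M.metric γ} := by
    refine ⟨0, ?_⟩
    rintro l ⟨γ, _, rfl⟩
    exact intervalIntegral.integral_nonneg (by norm_num) (fun t _ => Real.sqrt_nonneg _)
  have h1 : M.dist x y ≤ curveLength M.metric γ := csInf_le hbdd ⟨γ, hJ, rfl⟩
  rw [hlen] at h1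
  have h2 : √(M.b 0) * |d2| ≤ M.L * Real.pi :=
    mul_le_mul hb hn (abs_nonneg _) M.L_pos.le
  linarith [hx.2, hy.2]

theorem TorusMetric.dist_nonneg (x y : Fin 3 → ℝ) : 0 ≤ M.dist x y := by
  apply Real.sInf_nonneg
  rintro l ⟨γ, _, rfl⟩
  exact intervalIntegral.integral_nonneg (by norm_num) (fun t _ => Real.sqrt_nonneg _)

theorem TorusMetric.diam_le (hb : √(M.b 0) ≤ M.L) : M.diam ≤ (2 + Real.pi) * M.L := by
  apply csSup_le
  · exact ⟨_, 0, 0, ⟨le_rfl, M.L_pos.le⟩, ⟨le_rfl, M.L_pos.le⟩, rfl⟩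
  · rintro d ⟨x, y, hx, hy, rfl⟩
    exact M.dist_le hb hx hy

theorem TorusMetric.diam_nonneg : 0 ≤ M.diam := by
  apply Real.sSup_nonneg
  rintro d ⟨x, y, _, _, rfl⟩
  exact M.dist_nonneg x y

/-- noncollapsing -/
theorem torus_noncollapse (δ : ℝ) (hδ : 0 < δ) : ∃ ε : ℝ, 0 < ε ∧ ∀ M : TorusMetric,
    (∀ x : Fin 3 → ℝ, x 0 ∈ Ioo 0 M.L → PinchedAt δ M.metric x) →
      ε * M.diam ^ 3 ≤ M.volume := by
  obtain ⟨N, hN⟩ := exists_nat_ge (((1 / (2 * δ)) ^ 2 + 1) / δ)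
  have hpi := Real.pi_pos
  set Z := 3 + 4 * (1 / (2 * δ)) ^ 2 with hZ
  have hZpos : 0 < Z := by positivity
  set κ := 4 * Real.pi ^ 2 * (((1 / 2 : ℝ) ^ N) ^ 2 / (16 * Z)) with hκ
  have hκpos : 0 < κ := by positivity
  refine ⟨κ / (2 + Real.pi) ^ 3, by positivity, fun M hM => ?_⟩
  have hp : ∀ r ∈ Ioo 0 M.L, PinchAt δ (M.a r) (M.b r) (M.c r) (deriv M.a r) (deriv M.b r)
      (deriv M.c r) (deriv (deriv M.a) r) (deriv (deriv M.b) r) (deriv (deriv M.c) r) := by
    intro r hr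
    have hs := M.side
    exact pinchAt_of hs.ha hs.hb hs.hc hs.ha1 hs.hb1 hs.hc1 (hs.apos r hr) (hs.Dpos r hr)
      (hM ![r, 0, 0] hr)
  obtain ⟨h1, h2⟩ := analytic hδ M.side M.side' hp hN
  have h3 := M.diam_le h1
  have h0 := M.diam_nonneg
  have hL := M.L_pos
  have h4 : M.diam ^ 3 ≤ ((2 + Real.pi) * M.L) ^ 3 := pow_le_pow_left₀ h0 h3 3
  rw [M.volume_eq]
  calc κ / (2 + Real.pi) ^ 3 * M.diam ^ 3
      ≤ κ / (2 + Real.pi) ^ 3 * ((2 + Real.pi) * M.L) ^ 3 :=
        mul_le_mul_of_nonneg_left h4 (by positivity)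
    _ = κ * M.L ^ 3 := by
        have : (2 + Real.pi) ≠ 0 := by positivity
        field_simp
    _ = 4 * Real.pi ^ 2 * (((1 / 2) ^ N * (M.L / 2)) ^ 2 / Z * (M.L / 4)) := by
        rw [hκ]
        field_simp
        ring
    _ ≤ _ := mul_le_mul_of_nonneg_left h2 (by positivity)

end

end Pool.Agent.QPinch
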