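import Pool.Agent.QPinch.Defs

/-!
Metrics on the n-sphere invariant under SO(p+1) x SO(q+1), where n = p + q + 1.
-/

open Set MeasureTheory

namespace Pool.Agent.QPinch

noncomputable section

/-- A Riemannian metric of class C^2 on the sphere of dimension p + q + 1, the unit sphere of pairs
(u, v) with u in R^(p+1) and v in R^(q+1), of the form dr^2 + f(r)^2 g_(S^p) + h(r)^2 g_(S^q). The
variable r runs from the sphere u = 0 at time 0 to the sphere v = 0 at time L; the functions extend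
to the line so that f is odd at 0 and even at L, and h is even at 0 and odd at L. -/
structure WarpMetric where
  L : ℝ
  f : ℝ → ℝ
  h : ℝ → ℝ
  L_pos : 0 < L
  smooth_f : ContDiff ℝ 2 f
  smooth_h : ContDiff ℝ 2 h
  odd_f : ∀ r, f (-r) = -f r
  even_h : ∀ r, h (-r) = h r
  even_f : ∀ r, f (L + r) = f (L - r)
  odd_h : ∀ r, h (L + r) = -h (L - r)
  f_unit : deriv f 0 = 1
  h_unit : deriv h L = -1
  f_pos : ∀ r ∈ Ioc 0 L, 0 < f r
  h_pos : ∀ r ∈ Ico 0 L, 0 < h r

/-- the squared length of the coordinate field with index i at the point x. Coordinate 0 is r,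
coordinates 1, ..., p are stereographic coordinates on S^p, coordinates p + 1, ..., p + q are
stereographic coordinates on S^q -/
def WarpMetric.entry (M : WarpMetric) (p q : ℕ) (x : Fin (p + q + 1) → ℝ)
    (i : Fin (p + q + 1)) : ℝ :=
  if i.val = 0 then 1
  else if i.val ≤ p then
    M.f (x 0) ^ 2 * (2 / (1 + ∑ j, if 1 ≤ j.val ∧ j.val ≤ p then x j ^ 2 else 0)) ^ 2
  else M.h (x 0) ^ 2 * (2 / (1 + ∑ j, if p < j.val then x j ^ 2 else 0)) ^ 2

/-- the metric in these coordinates -/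
def WarpMetric.metric (M : WarpMetric) (p q : ℕ) (x : Fin (p + q + 1) → ℝ) :
    Matrix (Fin (p + q + 1)) (Fin (p + q + 1)) ℝ :=
  Matrix.diagonal (M.entry p q x)

/-- length of a curve parametrised by the unit interval -/
def curveLen {n : ℕ} (g : (Fin n → ℝ) → Matrix (Fin n) (Fin n) ℝ) (γ : ℝ → Fin n → ℝ) : ℝ :=
  ∫ t in (0:ℝ)..1, √(ip g (γ t) (deriv γ t) (deriv γ t))

/-- distance: infimum of the lengths of the Lipschitz curves from x to y in the coordinates -/
def WarpMetric.dist (M : WarpMetric) (p q : ℕ) (x y : Fin (p + q + 1) → ℝ) : ℝ :=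
  sInf {l | ∃ γ : ℝ → Fin (p + q + 1) → ℝ, (∃ K, LipschitzWith K γ) ∧
    (∀ t ∈ Icc (0:ℝ) 1, γ t 0 ∈ Icc 0 M.L) ∧ γ 0 = x ∧ γ 1 = y ∧
    l = curveLen (M.metric p q) γ}

/-- diameter -/
def WarpMetric.diam (M : WarpMetric) (p q : ℕ) : ℝ :=
  sSup {d | ∃ x y : Fin (p + q + 1) → ℝ, x 0 ∈ Icc 0 M.L ∧ y 0 ∈ Icc 0 M.L ∧
    d = M.dist p q x y}

/-- volume -/
def WarpMetric.volume (M : WarpMetric) (p q : ℕ) : ENNReal :=
  ∫⁻ x in {x : Fin (p + q + 1) → ℝ | x 0 ∈ Ioo 0 M.L},
    ENNReal.ofReal (√((M.metric p q x).det))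

end

end Pool.Agent.QPinch
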