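import Pool.Agent.QPinch.Diag
import Pool.Agent.QPinch.WarpDefs

open Set Filter Topology

namespace Pool.Agent.QPinch

noncomputable section

variable (M : WarpMetric) (p q : ℕ)

def phiP (x : Fin (p + q + 1) → ℝ) : ℝ :=
  (2 / (1 + ∑ j : Fin (p + q + 1), if 1 ≤ j.val ∧ j.val ≤ p then x j ^ 2 else 0)) ^ 2

def phiQ (x : Fin (p + q + 1) → ℝ) : ℝ :=
  (2 / (1 + ∑ j : Fin (p + q + 1), if p < j.val then x j ^ 2 else 0)) ^ 2

theorem phiP_pos (x : Fin (p + q + 1) → ℝ) : 0 < phiP p q x := by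
  unfold phiP
  have : 0 ≤ ∑ j : Fin (p + q + 1), if 1 ≤ j.val ∧ j.val ≤ p then x j ^ 2 else 0 := by
    apply Finset.sum_nonneg
    intro j _
    split_ifs
    · positivity
    · exact le_rfl
  positivity

theorem phiQ_pos (x : Fin (p + q + 1) → ℝ) : 0 < phiQ p q x := by
  unfold phiQ
  have : 0 ≤ ∑ j : Fin (p + q + 1), if p < j.val then x j ^ 2 else 0 := by
    apply Finset.sum_nonneg
    intro j _
    split_ifs
    · positivity
    · exact le_rfl
  positivity

theorem entry_zero (x : Fin (p + q + 1) → ℝ) : M.entry p q x 0 = 1 := by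
  unfold WarpMetric.entry
  simp

theorem entry_P {x : Fin (p + q + 1) → ℝ} {i : Fin (p + q + 1)} (h0 : i.val ≠ 0)
    (h1 : i.val ≤ p) : M.entry p q x i = M.f (x 0) ^ 2 * phiP p q x := by
  unfold WarpMetric.entry phiP
  rw [if_neg h0, if_pos h1]

theorem entry_Q {x : Fin (p + q + 1) → ℝ} {i : Fin (p + q + 1)} (h1 : p < i.val) :
    M.entry p q x i = M.h (x 0) ^ 2 * phiQ p q x := by
  unfold WarpMetric.entry phiQ
  rw [if_neg (by omega), if_neg (by omega)]

theorem entry_pos {x : Fin (p + q + 1) → ℝ} (hf : 0 < M.f (x 0)) (hh : 0 < M.h (x 0))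
    (i : Fin (p + q + 1)) : 0 < M.entry p q x i := by
  by_cases h0 : i.val = 0
  · have : i = 0 := Fin.ext h0
    rw [this, entry_zero]; norm_num
  · by_cases h1 : i.val ≤ p
    · rw [entry_P M p q h0 h1]
      have := phiP_pos p q x
      positivity
    · rw [entry_Q M p q (by omega)]
      have := phiQ_pos p q x
      positivity

theorem phiP_update {x : Fin (p + q + 1) → ℝ} {i : Fin (p + q + 1)}
    (h : ¬ (1 ≤ i.val ∧ i.val ≤ p)) (t : ℝ) : phiP p q (Function.update x i t) = phiP p q x := by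
  unfold phiP
  congr 3
  apply Finset.sum_congr rfl
  intro j _
  by_cases hj : 1 ≤ j.val ∧ j.val ≤ p
  · rw [if_pos hj, if_pos hj]
    have : j ≠ i := by rintro rfl; exact h hj
    rw [Function.update_of_ne this]
  · rw [if_neg hj, if_neg hj]

theorem phiQ_update {x : Fin (p + q + 1) → ℝ} {i : Fin (p + q + 1)}
    (h : ¬ p < i.val) (t : ℝ) : phiQ p q (Function.update x i t) = phiQ p q x := by
  unfold phiQ
  congr 3
  apply Finset.sum_congr rfl
  intro j _
  by_cases hj : p < j.val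
  · rw [if_pos hj, if_pos hj]
    have : j ≠ i := by rintro rfl; exact h hj
    rw [Function.update_of_ne this]
  · rw [if_neg hj, if_neg hj]

theorem update_zero_of_ne {x : Fin (p + q + 1) → ℝ} {i : Fin (p + q + 1)} (h : i ≠ 0) (t : ℝ) :
    Function.update x i t 0 = x 0 := Function.update_of_ne (Ne.symm h) _ _

/-- radial derivative of an entry of the form F(r) φ -/
theorem pd_zero_prod {F F' : ℝ → ℝ} (hF : ∀ r, HasDerivAt F (F' r) r)
    {φ : (Fin (p + q + 1) → ℝ) → ℝ}
    (hφ : ∀ x t, φ (Function.update x 0 t) = φ x) (x : Fin (p + q + 1) → ℝ) :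
    pd 0 (fun y => F (y 0) * φ y) x = F' (x 0) * φ x := by
  unfold pd
  simp only [Function.update_self, hφ]
  exact ((hF (x 0)).mul_const _).deriv

variable {f1 h1 f2 h2 : ℝ → ℝ}

theorem sq_deriv {F F1 : ℝ → ℝ} (hF : ∀ r, HasDerivAt F (F1 r) r) (r : ℝ) :
    HasDerivAt (fun r => F r ^ 2) (2 * F r * F1 r) r := by
  refine ((hF r).pow 2).congr_deriv ?_
  simp

theorem sq_deriv2 {F F1 F2 : ℝ → ℝ} (hF : ∀ r, HasDerivAt F (F1 r) r)
    (hF1 : ∀ r, HasDerivAt F1 (F2 r) r) (r : ℝ) :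
    HasDerivAt (fun r => 2 * F r * F1 r) (2 * F1 r ^ 2 + 2 * F r * F2 r) r := by
  refine (((hF r).const_mul 2).mul (hF1 r)).congr_deriv ?_
  ring

theorem ev_entry {x : Fin (p + q + 1) → ℝ} (hcf : Continuous M.f) (hch : Continuous M.h)
    (hf : 0 < M.f (x 0)) (hh : 0 < M.h (x 0)) (j : Fin (p + q + 1)) :
    ∀ᶠ t in 𝓝 (x j), ∀ k, M.entry p q (Function.update x j t) k ≠ 0 := by
  by_cases hj : j = 0
  · subst hj
    have e1 : ∀ᶠ t in 𝓝 (x 0), 0 < M.f t := hcf.continuousAt.eventually_const_lt hf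
    have e2 : ∀ᶠ t in 𝓝 (x 0), 0 < M.h t := hch.continuousAt.eventually_const_lt hh
    filter_upwards [e1, e2] with t h1 h2 k
    exact (entry_pos M p q (by simpa using h1) (by simpa using h2) k).ne'
  · refine Eventually.of_forall fun t k => ?_
    have e : Function.update x j t 0 = x 0 := update_zero_of_ne p q hj t
    exact (entry_pos M p q (by rw [e]; exact hf) (by rw [e]; exact hh) k).ne'

theorem sec_radial_P (hf1 : ∀ r, HasDerivAt M.f (f1 r) r) (hf2 : ∀ r, HasDerivAt f1 (f2 r) r)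
    (hcf : Continuous M.f) (hch : Continuous M.h)
    {x : Fin (p + q + 1) → ℝ} (hf : 0 < M.f (x 0)) (hh : 0 < M.h (x 0)) {i : Fin (p + q + 1)}
    (hi : i.val ≠ 0) (hi' : i.val ≤ p) :
    sec (M.metric p q) x (Pi.single 0 1) (Pi.single i 1) = -f2 (x 0) / M.f (x 0) := by
  have hne : (0 : Fin (p + q + 1)) ≠ i := by rintro rfl; exact hi rfl
  have hx : ∀ k, M.entry p q x k ≠ 0 := fun k => (entry_pos M p q hf hh k).ne'
  have hmet : M.metric p q = dg (M.entry p q) := rfl
  have e1 : pd 0 (fun y => M.entry p q y i) = fun y => 2 * M.f (y 0) * f1 (y 0) * phiP p q y := by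
    funext y
    simp only [entry_P M p q hi hi']
    exact pd_zero_prod p q (F := fun r => M.f r ^ 2) (F' := fun r => 2 * M.f r * f1 r)
      (sq_deriv hf1) (fun x t => phiP_update p q (by simp) t) y
  have e2 : pd 0 (pd 0 (fun y => M.entry p q y i)) x
      = (2 * f1 (x 0) ^ 2 + 2 * M.f (x 0) * f2 (x 0)) * phiP p q x := by
    rw [e1]
    exact pd_zero_prod p q (F := fun r => 2 * M.f r * f1 r)
      (F' := fun r => 2 * f1 r ^ 2 + 2 * M.f r * f2 r)
      (sq_deriv2 hf1 hf2) (fun x t => phiP_update p q (by simp) t) x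
  rw [hmet, sec_diag hx hne, riemann_zero (Ne.symm hne) (ev_entry M p q hcf hch hf hh)
    (entry_zero M p q), e2, e1, entry_P M p q hi hi']
  have h3 := phiP_pos p q x
  field_simp
  ring

theorem sec_radial_Q (hh1 : ∀ r, HasDerivAt M.h (h1 r) r) (hh2 : ∀ r, HasDerivAt h1 (h2 r) r)
    (hcf : Continuous M.f) (hch : Continuous M.h)
    {x : Fin (p + q + 1) → ℝ} (hf : 0 < M.f (x 0)) (hh : 0 < M.h (x 0)) {i : Fin (p + q + 1)}
    (hi : p < i.val) :
    sec (M.metric p q) x (Pi.single 0 1) (Pi.single i 1) = -h2 (x 0) / M.h (x 0) := by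
  have hne : (0 : Fin (p + q + 1)) ≠ i := by rintro rfl; simp at hi
  have hx : ∀ k, M.entry p q x k ≠ 0 := fun k => (entry_pos M p q hf hh k).ne'
  have hmet : M.metric p q = dg (M.entry p q) := rfl
  have e1 : pd 0 (fun y => M.entry p q y i) = fun y => 2 * M.h (y 0) * h1 (y 0) * phiQ p q y := by
    funext y
    simp only [entry_Q M p q hi]
    exact pd_zero_prod p q (F := fun r => M.h r ^ 2) (F' := fun r => 2 * M.h r * h1 r)
      (sq_deriv hh1) (fun x t => phiQ_update p q (by simp) t) y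
  have e2 : pd 0 (pd 0 (fun y => M.entry p q y i)) x
      = (2 * h1 (x 0) ^ 2 + 2 * M.h (x 0) * h2 (x 0)) * phiQ p q x := by
    rw [e1]
    exact pd_zero_prod p q (F := fun r => 2 * M.h r * h1 r)
      (F' := fun r => 2 * h1 r ^ 2 + 2 * M.h r * h2 r)
      (sq_deriv2 hh1 hh2) (fun x t => phiQ_update p q (by simp) t) x
  rw [hmet, sec_diag hx hne, riemann_zero (Ne.symm hne) (ev_entry M p q hcf hch hf hh)
    (entry_zero M p q), e2, e1, entry_Q M p q hi]
  have h3 := phiQ_pos p q x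
  field_simp
  ring

theorem sec_mixed (hf1 : ∀ r, HasDerivAt M.f (f1 r) r) (hh1 : ∀ r, HasDerivAt M.h (h1 r) r)
    (hcf : Continuous M.f) (hch : Continuous M.h)
    {x : Fin (p + q + 1) → ℝ} (hf : 0 < M.f (x 0)) (hh : 0 < M.h (x 0))
    {i j : Fin (p + q + 1)} (hi : i.val ≠ 0) (hi' : i.val ≤ p) (hj : p < j.val) :
    sec (M.metric p q) x (Pi.single i 1) (Pi.single j 1)
      = -(f1 (x 0) * h1 (x 0)) / (M.f (x 0) * M.h (x 0)) := by
  have hi0 : i ≠ 0 := by rintro rfl; exact hi rfl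
  have hj0 : j ≠ 0 := by rintro rfl; simp at hj
  have hij : i ≠ j := by rintro rfl; omega
  have hx : ∀ k, M.entry p q x k ≠ 0 := fun k => (entry_pos M p q hf hh k).ne'
  have hmet : M.metric p q = dg (M.entry p q) := rfl
  have hconst : ∀ (m k : Fin (p + q + 1)) (y : Fin (p + q + 1) → ℝ), m ≠ 0 →
      ((k.val ≠ 0 ∧ k.val ≤ p ∧ p < m.val) ∨ (p < k.val ∧ ¬ p < m.val)) →
      pd m (fun z => M.entry p q z k) y = 0 := by
    intro m k y hm hcase
    unfold pd
    rcases hcase with ⟨c1, c2, c3⟩ | ⟨c1, c2⟩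
    · simp only [entry_P M p q c1 c2, update_zero_of_ne p q hm,
        phiP_update p q (i := m) (by omega)]
      exact deriv_const _ _
    · simp only [entry_Q M p q c1, update_zero_of_ne p q hm, phiQ_update p q (i := m) c2]
      exact deriv_const _ _
  have hA : ∀ y, pd j (fun z => M.entry p q z i) y = 0 := fun y =>
    hconst j i y hj0 (Or.inl ⟨hi, hi', hj⟩)
  have hB : ∀ y, pd i (fun z => M.entry p q z j) y = 0 := fun y =>
    hconst i j y hi0 (Or.inr ⟨hj, by omega⟩)
  have hC : ∀ m y, m ≠ 0 → pd m (fun z => M.entry p q z i) y = 0 ∨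
      pd m (fun z => M.entry p q z j) y = 0 := by
    intro m y hm
    by_cases hmp : p < m.val
    · exact Or.inl (hconst m i y hm (Or.inl ⟨hi, hi', hmp⟩))
    · exact Or.inr (hconst m j y hm (Or.inr ⟨hj, hmp⟩))
  have e1 : pd 0 (fun y => M.entry p q y i) x = 2 * M.f (x 0) * f1 (x 0) * phiP p q x := by
    simp only [entry_P M p q hi hi']
    exact pd_zero_prod p q (F := fun r => M.f r ^ 2) (F' := fun r => 2 * M.f r * f1 r)
      (sq_deriv hf1) (fun x t => phiP_update p q (by simp) t) x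
  have e2 : pd 0 (fun y => M.entry p q y j) x = 2 * M.h (x 0) * h1 (x 0) * phiQ p q x := by
    simp only [entry_Q M p q hj]
    exact pd_zero_prod p q (F := fun r => M.h r ^ 2) (F' := fun r => 2 * M.h r * h1 r)
      (sq_deriv hh1) (fun x t => phiQ_update p q (by simp) t) x
  rw [hmet, sec_diag hx hij, riemann_block hi0 hj0 hij (ev_entry M p q hcf hch hf hh)
    (entry_zero M p q) hA hB hC, e1, e2, entry_P M p q hi hi', entry_Q M p q hj]
  have h3 := phiP_pos p q x
  have h4 := phiQ_pos p q x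
  field_simp
  ring

end

end Pool.Agent.QPinch
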